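import Pool.Agent.Kashaev.KV.DynAux

/-!
# The dominated slowly varying recursion (order one WKB)
-/

open Finset Real Filter Topology

namespace Pool.Agent.Kashaev.KV

open DynAux

theorem sq_close {F Zm ε : ℝ} (hF : 0 ≤ F) (hZm : 0 ≤ Zm) (hε : 0 < ε) :
    ∃ η > 0, ∀ f fh Z Zt : ℝ, 0 ≤ fh → fh ≤ F → 0 ≤ Zt → Zt ≤ Zm → |f - fh| ≤ η →
      |Z - Zt| ≤ η → |(f * Z) ^ 2 - (fh * Zt) ^ 2| ≤ ε := by
  set Q := (Zm + 1 + F) * (2 * F * Zm + Zm + 1 + F) with hQ
  have hQ0 : 0 < Q := by positivity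
  refine ⟨min 1 (ε / Q), by positivity, ?_⟩
  intro f fh Z Zt h1 h2 h3 h4 h5 h6
  set η := min 1 (ε / Q) with hη
  have hη1 : η ≤ 1 := min_le_left _ _
  have hη2 : η * Q ≤ ε := by
    have : η ≤ ε / Q := min_le_right _ _
    rwa [le_div_iff₀ hQ0] at this
  have hη0 : 0 ≤ η := by positivity
  have hZ : |Z| ≤ Zm + 1 := by
    have := abs_le.1 h6
    rw [abs_le]
    constructor <;> linarith
  have hd : |f * Z - fh * Zt| ≤ η * (Zm + 1 + F) := by
    have e : f * Z - fh * Zt = (f - fh) * Z + fh * (Z - Zt) := by ring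
    rw [e]
    refine (abs_add_le _ _).trans ?_
    rw [abs_mul, abs_mul, abs_of_nonneg h1]
    calc |f - fh| * |Z| + fh * |Z - Zt| ≤ η * (Zm + 1) + F * η := by gcongr
      _ = _ := by ring
  have hs : |f * Z + fh * Zt| ≤ 2 * F * Zm + Zm + 1 + F := by
    have e : f * Z + fh * Zt = (f * Z - fh * Zt) + 2 * (fh * Zt) := by ring
    rw [e]
    refine (abs_add_le _ _).trans ?_
    have h7 : |2 * (fh * Zt)| ≤ 2 * (F * Zm) := by
      rw [abs_of_nonneg (by positivity)]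
      gcongr
    have h8 : η * (Zm + 1 + F) ≤ 1 * (Zm + 1 + F) := by gcongr
    linarith
  have e : (f * Z) ^ 2 - (fh * Zt) ^ 2 = (f * Z - fh * Zt) * (f * Z + fh * Zt) := by ring
  rw [e, abs_mul]
  calc |f * Z - fh * Zt| * |f * Z + fh * Zt| ≤
        (η * (Zm + 1 + F)) * (2 * F * Zm + Zm + 1 + F) := by gcongr
    _ = η * Q := by rw [hQ]; ring
    _ ≤ ε := hη2

theorem dyn {n : ℕ} {a a' b' : ℝ} (ha' : a' < a) (ha : a < 1) (hb' : 1 < b')
    (S0 S1 : ℝ → Matrix (Fin n) (Fin n) ℂ)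
    (hS0 : ContinuousOn S0 (Set.Icc a 1)) (hS1 : ContinuousOn S1 (Set.Icc a 1))
    (lam : ℝ → ℂ) (r l : ℝ → Fin n → ℂ)
    (hlam : ContDiffOn ℝ 2 lam (Set.Ioo a' b')) (hr : ContDiffOn ℝ 2 r (Set.Ioo a' b'))
    (hl : ContDiffOn ℝ 2 l (Set.Ioo a' b'))
    (hlam0 : ∀ t ∈ Set.Icc a 1, lam t ≠ 0)
    (hr1 : ∀ t ∈ Set.Icc a 1, (S0 t).mulVec (r t) = lam t • r t)
    (hl1 : ∀ t ∈ Set.Icc a 1, (S0 t).vecMul (l t) = lam t • l t)
    (hlr : ∀ t ∈ Set.Icc a 1, l t ⬝ᵥ r t = 1)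
    (hdom : ∀ t ∈ Set.Icc a 1, ∀ (s : ℂ) (v : Fin n → ℂ), v ≠ 0 → (S0 t).mulVec v = s • v →
      l t ⬝ᵥ v = 0 → ‖s‖ < ‖lam t‖) :
    ∃ A : ℝ → ℝ, ContinuousOn A (Set.Icc a 1) ∧ (∀ t ∈ Set.Icc a 1, 0 < A t) ∧
      ∀ K : ℝ, ∃ C : ℝ, ∀ δ > 0, ∀ ε > 0, ∃ N0 : ℕ, ∀ N ≥ N0, ∀ k0 : ℕ, a ≤ (k0 : ℝ) / N →
      ∀ V : ℕ → Fin n → ℂ,
      (∀ i, k0 < i → i ≤ N - 1 → ‖V (i - 1) - (S0 ((i : ℝ) / N)).mulVec (V i) -
        (1 / (N : ℂ)) • (S1 ((i : ℝ) / N)).mulVec (V i)‖ ≤ K / (N : ℝ) ^ 2 * ‖V i‖) →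
      0 < ‖V (N - 1)‖ →
      ‖V (N - 1)‖ ≤ K * ‖l 1 ⬝ᵥ V (N - 1)‖ →
      ∀ k, k0 ≤ k → k ≤ N - 1 →
        ‖V k‖ ≤ C * Real.exp (N * ∫ s in ((k : ℝ) / N)..1, Real.log ‖lam s‖) * ‖V (N - 1)‖ ∧
        ((k : ℝ) / N ≤ 1 - δ → ∀ i, |‖V k i‖ ^ 2 / (‖l 1 ⬝ᵥ V (N - 1)‖ ^ 2 *
          Real.exp (2 * N * ∫ s in ((k : ℝ) / N)..1, Real.log ‖lam s‖)) -
          A ((k : ℝ) / N) * ‖r ((k : ℝ) / N) i‖ ^ 2| ≤ ε) := by
  have hsub : ∀ t ∈ Set.Icc a 1, Set.Ioo a' b' ∈ 𝓝 t := fun t ht =>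
    Ioo_mem_nhds (ha'.trans_le ht.1) (ht.2.trans_lt hb')
  have clam : ∀ t ∈ Set.Icc a 1, ContDiffAt ℝ 2 lam t := fun t ht => hlam.contDiffAt (hsub t ht)
  have cr : ∀ t ∈ Set.Icc a 1, ContDiffAt ℝ 2 r t := fun t ht => hr.contDiffAt (hsub t ht)
  have cl : ∀ t ∈ Set.Icc a 1, ContDiffAt ℝ 2 l t := fun t ht => hl.contDiffAt (hsub t ht)
  have clamc : ContinuousOn lam (Set.Icc a 1) := fun t ht =>
    (clam t ht).continuousAt.continuousWithinAt
  have crc : ContinuousOn r (Set.Icc a 1) := fun t ht =>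
    (cr t ht).continuousAt.continuousWithinAt
  have clc : ContinuousOn l (Set.Icc a 1) := fun t ht =>
    (cl t ht).continuousAt.continuousWithinAt
  have cg : ∀ t ∈ Set.Icc a 1, ContDiffAt ℝ 2 (fun s => Real.log ‖lam s‖) t := fun t ht =>
    ContDiffAt.log ((clam t ht).norm ℝ (hlam0 t ht)) (norm_ne_zero_iff.2 (hlam0 t ht))
  have cgc : ContinuousOn (fun s => Real.log ‖lam s‖) (Set.Icc a 1) := fun t ht =>
    (cg t ht).continuousAt.continuousWithinAt
  obtain ⟨cdl, Ll, hLl0, hLl1, hLl2⟩ := taylor_two ha.le l cl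
  obtain ⟨-, Lr, hLr0, hLr1, -⟩ := taylor_two ha.le r cr
  obtain ⟨-, Lg, hLg0, -, hLg2⟩ := taylor_two ha.le (fun s => Real.log ‖lam s‖) cg
  obtain ⟨b0, hb00, hb0⟩ := mat_bound S0 hS0
  obtain ⟨b1, hb10, hb1⟩ := mat_bound S1 hS1
  obtain ⟨blam, hblam⟩ := isCompact_Icc.exists_bound_of_continuousOn clamc
  obtain ⟨br, hbr⟩ := isCompact_Icc.exists_bound_of_continuousOn crc
  obtain ⟨bl, hbl⟩ := isCompact_Icc.exists_bound_of_continuousOn clc
  obtain ⟨bdl, hbdl⟩ := isCompact_Icc.exists_bound_of_continuousOn cdl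
  obtain ⟨bg, hbg⟩ := isCompact_Icc.exists_bound_of_continuousOn cgc
  have h1mem : (1 : ℝ) ∈ Set.Icc a 1 := ⟨ha.le, le_rfl⟩
  have hblam0 : 0 ≤ blam := (norm_nonneg _).trans (hblam 1 h1mem)
  have hbr0 : 0 ≤ br := (norm_nonneg _).trans (hbr 1 h1mem)
  have hbl0 : 0 ≤ bl := (norm_nonneg _).trans (hbl 1 h1mem)
  have hbdl0 : 0 ≤ bdl := (norm_nonneg _).trans (hbdl 1 h1mem)
  have hbg0 : 0 ≤ bg := (norm_nonneg _).trans (hbg 1 h1mem)
  -- the deflated matrix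
  set B : ℝ → Matrix (Fin n) (Fin n) ℂ := fun t => S0 t - lam t • Matrix.vecMulVec (r t) (l t)
    with hBdef
  have hB : ContinuousOn B (Set.Icc a 1) := by
    refine hS0.sub (clamc.smul ?_)
    refine continuousOn_pi.2 fun i => continuousOn_pi.2 fun j => ?_
    simp only [Matrix.vecMulVec_apply]
    exact (continuousOn_pi.1 crc i).mul (continuousOn_pi.1 clc j)
  have hsB : ∀ t ∈ Set.Icc a 1, ∀ (s : ℂ) (v : Fin n → ℂ), v ≠ 0 → (B t).mulVec v = s • v →
      ‖s‖ < ‖lam t‖ := by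
    intro t ht s v hv hBv
    have e1 : (B t).mulVec v = (S0 t).mulVec v - (lam t * (l t ⬝ᵥ v)) • r t := by
      simp only [hBdef]
      rw [Matrix.sub_mulVec, Matrix.smul_mulVec, Matrix.vecMulVec_mulVec]
      ext i
      simp
      ring
    have e2 : l t ⬝ᵥ (B t).mulVec v = 0 := by
      rw [e1, dotProduct_sub, dotProduct_smul, Matrix.dotProduct_mulVec, hl1 t ht,
        smul_dotProduct, hlr t ht]
      simp
    rw [hBv, dotProduct_smul, smul_eq_mul, mul_eq_zero] at e2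
    rcases e2 with h0 | h0
    · rw [h0, norm_zero]
      exact norm_pos_iff.2 (hlam0 t ht)
    · rw [e1, h0, mul_zero, zero_smul, sub_zero] at hBv
      exact hdom t ht s v hv hBv h0
  -- the first order coefficient
  set κ : ℝ → ℂ := fun t => l t ⬝ᵥ (S1 t).mulVec (r t) - lam t * (deriv l t ⬝ᵥ r t) with hκ
  have hκc : ContinuousOn κ (Set.Icc a 1) := by
    simp only [hκ]
    refine ContinuousOn.sub ?_ (clamc.mul ?_)
    · simp only [dotProduct, Matrix.mulVec]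
      refine continuousOn_finsetSum _ fun i _ => (continuousOn_pi.1 clc i).mul ?_
      refine continuousOn_finsetSum _ fun j _ => ?_
      exact (continuousOn_pi.1 (continuousOn_pi.1 hS1 i) j).mul (continuousOn_pi.1 crc j)
    · simp only [dotProduct]
      refine continuousOn_finsetSum _ fun i _ => ?_
      exact (continuousOn_pi.1 cdl i).mul (continuousOn_pi.1 crc i)
  have hρc : ContinuousOn (fun t => κ t / lam t) (Set.Icc a 1) := hκc.div clamc hlam0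
  set ρ : ℝ → ℂ := Set.IccExtend ha.le (fun t : Set.Icc a 1 => κ t / lam t) with hρ
  have hρcont : Continuous ρ := by
    refine Continuous.Icc_extend' ?_
    exact continuousOn_iff_continuous_domRestrict.1 hρc
  have hρeq : ∀ t ∈ Set.Icc a 1, ρ t = κ t / lam t := fun t ht => by
    rw [hρ, Set.IccExtend_of_mem _ _ ht]
  obtain ⟨R, hR⟩ := isCompact_Icc.exists_bound_of_continuousOn (hρcont.continuousOn (s := Set.Icc a 1))
  have hR0 : 0 ≤ R := (norm_nonneg _).trans (hR 1 h1mem)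
  set J : ℝ → ℂ := fun t => ∫ s in t..1, ρ s with hJ
  have hJc : Continuous J := by
    have h1 : J = fun t => -∫ s in (1 : ℝ)..t, ρ s := by
      ext t
      rw [hJ]
      simp only
      rw [intervalIntegral.integral_symm]
    rw [h1]
    exact (intervalIntegral.continuous_primitive (fun x y => hρcont.intervalIntegrable x y) 1).neg
  have hJb : ∀ t ∈ Set.Icc a 1, ‖J t‖ ≤ R * (1 - a) := by
    intro t ht
    have := intervalIntegral.norm_integral_le_of_norm_le_const (a := t) (b := 1)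
      (f := ρ) (C := R) (by
        intro x hx
        rw [Set.uIoc_of_le ht.2] at hx
        exact hR x ⟨ht.1.trans hx.1.le, hx.2⟩)
    rw [abs_of_nonneg (by linarith [ht.2])] at this
    refine this.trans ?_
    have := ht.1
    gcongr
  refine ⟨fun t => ‖Complex.exp (J t)‖ ^ 2 / (‖lam t‖ * ‖lam 1‖), ?_, ?_, ?_⟩
  · refine ContinuousOn.div ?_ (clamc.norm.mul continuousOn_const) ?_
    · exact ((Complex.continuous_exp.comp hJc).norm.pow 2).continuousOn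
    · intro t ht
      exact mul_ne_zero (norm_ne_zero_iff.2 (hlam0 t ht)) (norm_ne_zero_iff.2 (hlam0 1 h1mem))
  · intro t ht
    have h1 : 0 < ‖Complex.exp (J t)‖ := norm_pos_iff.2 (Complex.exp_ne_zero _)
    have h2 : 0 < ‖lam t‖ := norm_pos_iff.2 (hlam0 t ht)
    have h3 : 0 < ‖lam 1‖ := norm_pos_iff.2 (hlam0 1 h1mem)
    positivity
  intro K
  obtain ⟨G, hG1, hnG, hb0G, hb1G, hblamG, hbrG, hblG, hbdlG, hLlG, hLrG, hKG⟩ : ∃ G : ℝ,
      1 ≤ G ∧ (n : ℝ) ≤ G ∧ b0 ≤ G ∧ b1 ≤ G ∧ blam ≤ G ∧ br ≤ G ∧ bl ≤ G ∧ bdl ≤ G ∧ Ll ≤ G ∧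
      Lr ≤ G ∧ K ≤ G := by
    have hn0 : (0 : ℝ) ≤ n := Nat.cast_nonneg n
    have hK0 : 0 ≤ |K| := abs_nonneg K
    have hK1 := le_abs_self K
    refine ⟨1 + n + b0 + b1 + blam + br + bl + bdl + Ll + Lr + |K|, ?_, ?_, ?_, ?_, ?_, ?_, ?_,
      ?_, ?_, ?_, ?_⟩ <;> linarith
  have hG0 : 0 < G := by linarith
  obtain ⟨C, hC, θ, hθ0, hθ1, N1, hN11, hgrow⟩ := growth ha.le B hB lam clamc hlam0 hsB ρ R hR
    (20 * G ^ 5) (by positivity)
  refine ⟨(G * C + 2 * C) * (3 * G ^ 3) * Real.exp (bg + 2 * Lg), ?_⟩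
  intro δ hδ ε hε
  obtain ⟨EJ, hEJ⟩ : ∃ EJ : ℝ, EJ = Real.exp (R * (1 - a)) := ⟨_, rfl⟩
  have hEJ0 : 0 < EJ := by rw [hEJ]; exact Real.exp_pos _
  obtain ⟨F, hF⟩ : ∃ F : ℝ, F = Real.exp bg := ⟨_, rfl⟩
  have hF0 : 0 < F := by rw [hF]; exact Real.exp_pos _
  obtain ⟨η, hη, hclose⟩ := sq_close (F := F) (Zm := EJ * G) hF0.le (by positivity) hε
  obtain ⟨ε1, hε10, hε11, hε12⟩ : ∃ ε1 : ℝ, 0 < ε1 ∧ ε1 ≤ 1 ∧ 2 * G * EJ * ε1 ≤ η / 3 := by
    refine ⟨min 1 (η / (6 * G * EJ)), by positivity, min_le_left _ _, ?_⟩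
    have h1 : min 1 (η / (6 * G * EJ)) ≤ η / (6 * G * EJ) := min_le_right _ _
    rw [le_div_iff₀ (by positivity)] at h1
    linarith
  obtain ⟨N2, hN21, hriem⟩ := riemann_sum ρ hρcont R hR ha.le hε10
  obtain ⟨m0, hm0⟩ := ((tendsto_pow_atTop_nhds_zero_of_lt_one hθ0.le hθ1).eventually
    (gt_mem_nhds (show (0 : ℝ) < η / (9 * C * G ^ 4) by positivity))).exists
  obtain ⟨Q1, hQ1⟩ : ∃ Q1 : ℝ, Q1 = 3 * C * G ^ 5 + 3 * G ^ 4 * EJ + 3 * C * G ^ 4 := ⟨_, rfl⟩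
  obtain ⟨N3, hN3⟩ := exists_nat_gt (3 * Q1 / η)
  obtain ⟨N4, hN4⟩ := exists_nat_gt (2 * Lg)
  obtain ⟨N5, hN5⟩ := exists_nat_gt (4 * F * Lg / η)
  obtain ⟨N6, hN6⟩ := exists_nat_gt ((m0 + 1) / δ)
  refine ⟨max N1 (max N2 (max N3 (max N4 (max N5 N6)))), ?_⟩
  intro N hN k0 hk0 V hV hV0 hVK k hk0k hkN
  simp only [ge_iff_le, max_le_iff] at hN
  obtain ⟨hNN1, hNN2, hNN3, hNN4, hNN5, hNN6⟩ := hN
  have hNone : 1 ≤ N := hN11.trans hNN1
  have hN' : (0 : ℝ) < N := by positivity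
  have hN1' : (1 : ℝ) ≤ N := by exact_mod_cast hNone
  have hNc : (N : ℂ) ≠ 0 := by exact_mod_cast hN'.ne'
  have hQN : Q1 / N ≤ η / 3 := by
    have h1 : 3 * Q1 / η < N := hN3.trans_le (by exact_mod_cast hNN3)
    rw [div_lt_iff₀ hη] at h1
    rw [div_le_iff₀ hN']
    linarith only [h1]
  have hLN : 2 * Lg / N ≤ 1 := by
    rw [div_le_one hN']
    exact (hN4.trans_le (by exact_mod_cast hNN4)).le
  have hFN : F * (2 * (2 * Lg / N)) ≤ η := by
    have h1 : 4 * F * Lg / η < N := hN5.trans_le (by exact_mod_cast hNN5)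
    rw [div_lt_iff₀ hη] at h1
    have e : F * (2 * (2 * Lg / N)) = 4 * F * Lg / N := by ring
    rw [e, div_le_iff₀ hN']
    linarith only [h1]
  set M := N - 1 - k0 with hM
  set m := N - 1 - k with hm
  have hmM : m ≤ M := by omega
  have hMN : M ≤ N - 1 := by omega
  have hmN : m ≤ N - 1 := by omega
  have hk0' : ((k0 : ℕ) : ℝ) / N = tt N M := by
    rw [← tt_eq hNone hMN]
    congr 2
    omega
  have hk' : ((k : ℕ) : ℝ) / N = tt N m := by
    rw [← tt_eq hNone hmN]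
    congr 2
    omega
  have hatM : a ≤ tt N M := by rwa [hk0'] at hk0
  have hmem : ∀ j ≤ M, tt N j ∈ Set.Icc a 1 := fun j hj => ⟨hatM.trans (tt_anti hj), tt_le_one _ _⟩
  set U : ℕ → Fin n → ℂ := fun j => V (N - 1 - j) with hU
  have hU0 : U 0 = V (N - 1) := by simp [hU]
  have hUm : U m = V k := by
    simp only [hU]
    congr 1
    omega
  set x : ℕ → ℂ := fun j => l (tt N j) ⬝ᵥ U j with hx
  set w : ℕ → Fin n → ℂ := fun j => U j - x j • r (tt N j) with hw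
  have hrG : ∀ t ∈ Set.Icc a 1, ‖r t‖ ≤ G := fun t ht => (hbr t ht).trans hbrG
  have hlG : ∀ t ∈ Set.Icc a 1, ‖l t‖ ≤ G := fun t ht => (hbl t ht).trans hblG
  have hstep : ∀ j < M,
      ‖x (j + 1) - (lam (tt N j) + ((1 / N : ℝ) : ℂ) * κ (tt N j)) * x j‖ ≤
        20 * G ^ 5 * ((1 / N : ℝ) ^ 2 * ‖x j‖ + 1 / N * ‖w j‖) ∧
      ‖w (j + 1) - (B (tt N j)).mulVec (w j)‖ ≤
        20 * G ^ 5 * (1 / N) * (‖x j‖ + ‖w j‖) := by
    intro j hj
    have htj := hmem j hj.le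
    have htj1 := hmem (j + 1) hj
    have hdiff : tt N (j + 1) - tt N j = -(1 / N) := by rw [tt_succ]; ring
    have hV' := hV (N - 1 - j) (by omega) (by omega)
    have e1 : N - 1 - j - 1 = N - 1 - (j + 1) := by omega
    rw [e1, tt_eq hNone (by omega)] at hV'
    refine one_step (G := G) (h := 1 / N) hG1 hnG (by positivity)
      (by rw [div_le_one hN']; exact hN1')
      (S0 (tt N j)) (S1 (tt N j)) (lam (tt N j)) (r (tt N j)) (l (tt N j)) (deriv l (tt N j))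
      (r (tt N (j + 1))) (l (tt N (j + 1))) (U j) (U (j + 1)) ?_ ?_ ?_ ?_ ?_ ?_ ?_ ?_ ?_ ?_ ?_
      (hr1 _ htj) (hl1 _ htj) (hlr _ htj) ?_ (x j) (w j) rfl rfl
    · intro v
      exact (hb0 _ htj v).trans (mul_le_mul_of_nonneg_right hb0G (norm_nonneg _))
    · intro v
      exact (hb1 _ htj v).trans (mul_le_mul_of_nonneg_right hb1G (norm_nonneg _))
    · exact (hblam _ htj).trans hblamG
    · exact hrG _ htj
    · exact hlG _ htj
    · exact (hbdl _ htj).trans hbdlG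
    · exact hrG _ htj1
    · exact hlG _ htj1
    · refine (hLl1 _ htj1 _ htj).trans ?_
      rw [hdiff, abs_neg, abs_of_pos (show (0 : ℝ) < 1 / N by positivity)]
      exact mul_le_mul_of_nonneg_right hLlG (by positivity)
    · have h1 := hLl2 _ htj1 _ htj
      rw [hdiff, abs_neg, abs_of_pos (show (0 : ℝ) < 1 / N by positivity), neg_smul,
        sub_neg_eq_add] at h1
      have h2 : ((1 / N : ℝ) : ℂ) • deriv l (tt N j) = (1 / N : ℝ) • deriv l (tt N j) := by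
        ext i
        simp
      rw [h2]
      exact h1.trans (mul_le_mul_of_nonneg_right hLlG (by positivity))
    · refine (hLr1 _ htj1 _ htj).trans ?_
      rw [hdiff, abs_neg, abs_of_pos (show (0 : ℝ) < 1 / N by positivity)]
      exact mul_le_mul_of_nonneg_right hLrG (by positivity)
    · have h3 : ((1 / N : ℝ) : ℂ) = 1 / (N : ℂ) := by push_cast; rfl
      rw [h3]
      refine hV'.trans ?_
      have h4 : K / (N : ℝ) ^ 2 = K * (1 / N) ^ 2 := by ring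
      rw [h4]
      simp only [hU]
      gcongr
  have hgr := hgrow N hNN1 M hMN hatM w x (by
      intro j hj
      have := (hstep j hj).2
      calc ‖w (j + 1) - (B (tt N j)).mulVec (w j)‖ ≤ 20 * G ^ 5 * (1 / N) * (‖x j‖ + ‖w j‖) := this
        _ = _ := by ring) (by
      intro j hj
      have h1 := (hstep j hj).1
      have h2 : lam (tt N j) * (1 + ρ (tt N j) / N) = lam (tt N j) +
          ((1 / N : ℝ) : ℂ) * κ (tt N j) := by
        rw [hρeq _ (hmem j hj.le)]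
        have := hlam0 _ (hmem j hj.le)
        push_cast
        field_simp
      rw [h2]
      calc _ ≤ 20 * G ^ 5 * ((1 / N : ℝ) ^ 2 * ‖x j‖ + 1 / N * ‖w j‖) := h1
        _ = _ := by ring) m hmM
  obtain ⟨hgx, hgw, hgb⟩ := hgr
  set D := ‖x 0‖ + ‖w 0‖ with hD
  set P := ∏ i ∈ range m, ‖lam (tt N i)‖ with hP
  set t := tt N m with ht
  have htm : t ∈ Set.Icc a 1 := hmem m hmM
  -- the initial data
  set X := ‖l 1 ⬝ᵥ V (N - 1)‖ with hX
  have hUX : ‖U 0‖ ≤ G * X := by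
    rw [hU0]
    exact hVK.trans (mul_le_mul_of_nonneg_right hKG (norm_nonneg _))
  have hX0 : 0 < X := by
    rcases (norm_nonneg (l 1 ⬝ᵥ V (N - 1))).lt_or_eq with h | h
    · exact h
    · exfalso
      have h' : X = 0 := h.symm
      rw [h', mul_zero] at hVK
      linarith
  have hx0 : ‖x 0‖ ≤ G ^ 2 * ‖U 0‖ := by
    calc ‖x 0‖ ≤ G * (‖l (tt N 0)‖ * ‖U 0‖) := dot_bound hnG _ _
      _ ≤ G * (G * ‖U 0‖) := by
          have := hlG _ (hmem 0 (Nat.zero_le _))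
          gcongr
      _ = _ := by ring
  have hw0 : ‖w 0‖ ≤ (1 + G ^ 3) * ‖U 0‖ := by
    calc ‖w 0‖ ≤ ‖U 0‖ + ‖x 0‖ * ‖r (tt N 0)‖ := by
          simp only [hw]
          refine (norm_sub_le _ _).trans ?_
          rw [norm_smul]
      _ ≤ ‖U 0‖ + G ^ 2 * ‖U 0‖ * G := by
          have := hrG _ (hmem 0 (Nat.zero_le _))
          gcongr
      _ = _ := by ring
  have hDU : D ≤ 3 * G ^ 3 * ‖U 0‖ := by
    have h1 : G ^ 2 ≤ G ^ 3 := pow_le_pow_right₀ hG1 (by norm_num)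
    have h2 : 1 ≤ G ^ 3 := one_le_pow₀ hG1
    have h3 : 0 ≤ ‖U 0‖ := norm_nonneg _
    calc D ≤ G ^ 2 * ‖U 0‖ + (1 + G ^ 3) * ‖U 0‖ := add_le_add hx0 hw0
      _ = (G ^ 2 + 1 + G ^ 3) * ‖U 0‖ := by ring
      _ ≤ _ := by
          refine mul_le_mul_of_nonneg_right ?_ h3
          linarith
  have hDX : D ≤ 3 * G ^ 4 * X := by
    calc D ≤ 3 * G ^ 3 * ‖U 0‖ := hDU
      _ ≤ 3 * G ^ 3 * (G * X) := by gcongr
      _ = _ := by ring
  have hx0X : ‖x 0 - l 1 ⬝ᵥ V (N - 1)‖ ≤ G ^ 3 / N * X := by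
    have e : x 0 - l 1 ⬝ᵥ V (N - 1) = (l (tt N 0) - l 1) ⬝ᵥ U 0 := by
      rw [sub_dotProduct, hU0]
      simp only [hx]
      rw [hU0]
    rw [e]
    have h1 := hLl1 _ (hmem 0 (Nat.zero_le _)) _ h1mem
    have h2 : |tt N 0 - 1| = 1 / N := by
      have : tt N 0 - 1 = -(1 / N) := by unfold tt; push_cast; ring
      rw [this, abs_neg, abs_of_pos (by positivity)]
    rw [h2] at h1
    calc ‖(l (tt N 0) - l 1) ⬝ᵥ U 0‖ ≤ G * (‖l (tt N 0) - l 1‖ * ‖U 0‖) := dot_bound hnG _ _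
      _ ≤ G * ((G * (1 / N)) * (G * X)) := by
          have h3 : ‖l (tt N 0) - l 1‖ ≤ G * (1 / N) :=
            h1.trans (mul_le_mul_of_nonneg_right hLlG (by positivity))
          gcongr
      _ = _ := by ring
  -- the exponential
  set g : ℝ → ℝ := fun s => Real.log ‖lam s‖ with hg
  set I := ∫ s in t..1, Real.log ‖lam s‖ with hI
  have hPexp : P = Real.exp (∑ i ∈ range m, g (tt N i)) := by
    rw [hP, Real.exp_sum]
    refine Finset.prod_congr rfl fun i hi => ?_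
    simp only [hg]
    rw [Real.exp_log (norm_pos_iff.2 (hlam0 _ (hmem i ?_)))]
    exact (Finset.mem_range.1 hi).le.trans hmM
  have hP0 : 0 < P := by rw [hPexp]; exact Real.exp_pos _
  have htrap := trap_sum g (deriv g) Lg hLg0 cgc (by
    intro s hs u hu
    have := hLg2 s hs u hu
    simpa [Real.norm_eq_abs] using this) hNone m htm.1
  have hmN1 : ((m : ℝ) + 1) ≤ N := by
    have : m + 1 ≤ N := by omega
    exact_mod_cast this
  have htrap' : |(∑ i ∈ range m, g (tt N i)) - (N * I - (g 1 + g t) / 2)| ≤ 2 * Lg / N := by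
    refine htrap.trans ?_
    rw [div_le_div_iff₀ (by positivity) hN']
    have : 2 * Lg * (m + 1) ≤ 2 * Lg * N := by gcongr
    calc 2 * Lg * (m + 1) * N ≤ 2 * Lg * N * N := by gcongr
      _ = _ := by ring
  set u := (∑ i ∈ range m, g (tt N i)) - (N * I - (g 1 + g t) / 2) with hu
  set E := Real.exp (N * I) with hE
  have hE0 : 0 < E := Real.exp_pos _
  set fh := Real.exp (-(g 1 + g t) / 2) with hfh
  have hfh0 : 0 < fh := Real.exp_pos _
  have hPE : P / E = fh * Real.exp u := by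
    rw [hPexp, hE, hfh, ← Real.exp_sub, ← Real.exp_add]
    congr 1
    rw [hu]
    ring
  have hg1 : |g 1| ≤ bg := hbg 1 h1mem
  have hgt : |g t| ≤ bg := hbg t htm
  have hfhF : fh ≤ F := by
    rw [hfh, hF]
    apply Real.exp_le_exp.2
    have h1 := abs_le.1 hg1
    have h2 := abs_le.1 hgt
    linarith
  have hPle : P ≤ Real.exp (bg + 2 * Lg) * E := by
    rw [← div_le_iff₀ hE0, hPE, Real.exp_add, ← hF]
    refine mul_le_mul hfhF ?_ (Real.exp_pos _).le hF0.le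
    apply Real.exp_le_exp.2
    have h1 := (abs_le.1 htrap').2
    have h2 : 2 * Lg / N ≤ 2 * Lg := div_le_self (by positivity) hN1'
    linarith
  have hθm : θ ^ m ≤ 1 := pow_le_one₀ hθ0.le hθ1.le
  have hNinv : 1 / (N : ℝ) ≤ 1 := by rw [div_le_one hN']; exact hN1'
  have hVk : V k = x m • r t + w m := by
    simp only [hw]
    rw [hUm]
    abel
  rw [hk']
  refine ⟨?_, ?_⟩
  · have h1 : ‖V k‖ ≤ (G * C + 2 * C) * D * P := by
      rw [hVk]
      refine (norm_add_le _ _).trans ?_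
      rw [norm_smul]
      have h2 : ‖x m‖ * ‖r t‖ ≤ C * D * P * G := by
        have := hrG t htm
        gcongr
      have h3 : ‖w m‖ ≤ C * 2 * D * P := by
        refine hgw.trans ?_
        have : θ ^ m + 1 / (N : ℝ) ≤ 2 := by linarith
        gcongr
      calc ‖x m‖ * ‖r t‖ + ‖w m‖ ≤ C * D * P * G + C * 2 * D * P := add_le_add h2 h3
        _ = _ := by ring
    rw [← hU0]
    calc ‖V k‖ ≤ (G * C + 2 * C) * D * P := h1
      _ ≤ (G * C + 2 * C) * (3 * G ^ 3 * ‖U 0‖) * (Real.exp (bg + 2 * Lg) * E) := by gcongr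
      _ = _ := by ring
  · intro htδ i
    have hm0m : m0 ≤ m := by
      have h1 : (m0 + 1) / δ < N := hN6.trans_le (by exact_mod_cast hNN6)
      rw [div_lt_iff₀ hδ] at h1
      have h2 : t = 1 - ((m : ℝ) + 1) / N := rfl
      rw [h2] at htδ
      have h3 : δ ≤ ((m : ℝ) + 1) / N := by linarith
      rw [le_div_iff₀ hN'] at h3
      have h4 : (m0 : ℝ) < m := by linarith
      exact_mod_cast h4.le
    have hθm' : 3 * C * G ^ 4 * θ ^ m ≤ η / 3 := by
      have h1 : θ ^ m ≤ θ ^ m0 := pow_le_pow_of_le_one hθ0.le hθ1.le hm0m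
      have h2 : θ ^ m ≤ η / (9 * C * G ^ 4) := h1.trans hm0.le
      rw [le_div_iff₀ (by positivity)] at h2
      linarith
    set Pi0 : ℂ := ∏ i ∈ range m, lam (tt N i) with hPi
    have hPin : ‖Pi0‖ = P := by rw [hPi, norm_prod]
    have hPi0 : Pi0 ≠ 0 := by rw [← norm_pos_iff, hPin]; exact hP0
    set S : ℂ := ∑ i ∈ range m, ρ (tt N i) / N with hS
    have hSJ : ‖S - J t‖ ≤ ε1 := hriem N hNN2 m htm.1
    have hJn : ‖Complex.exp (J t)‖ ≤ EJ := by
      refine (Complex.norm_exp_le_exp_norm _).trans ?_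
      rw [hEJ]
      exact Real.exp_le_exp.2 (hJb t htm)
    have hSJe : ‖Complex.exp S - Complex.exp (J t)‖ ≤ EJ * (2 * ε1) := by
      have e : Complex.exp S - Complex.exp (J t) =
          Complex.exp (J t) * (Complex.exp (S - J t) - 1) := by
        rw [mul_sub, ← Complex.exp_add, mul_one]
        congr 2
        ring
      rw [e, norm_mul]
      have h1 := Complex.norm_exp_sub_one_le (hSJ.trans hε11)
      calc ‖Complex.exp (J t)‖ * ‖Complex.exp (S - J t) - 1‖ ≤ EJ * (2 * ‖S - J t‖) := by gcongr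
        _ ≤ _ := by gcongr
    have hSn : ‖Complex.exp S‖ ≤ 3 * EJ := by
      have h1 := norm_add_le (Complex.exp S - Complex.exp (J t)) (Complex.exp (J t))
      rw [sub_add_cancel] at h1
      have h2 : EJ * (2 * ε1) ≤ EJ * (2 * 1) := by gcongr
      linarith
    set xs := l 1 ⬝ᵥ V (N - 1) with hxs
    have hxs0 : xs ≠ 0 := by rw [← norm_pos_iff]; exact hX0
    have hb : ‖x m / Pi0 / xs - Complex.exp (J t)‖ ≤
        3 * C * G ^ 4 / N + 3 * G ^ 3 * EJ / N + 2 * EJ * ε1 := by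
      have e : x m / Pi0 / xs - Complex.exp (J t) = (x m / Pi0 - x 0 * Complex.exp S) / xs +
          (x 0 - xs) / xs * Complex.exp S + (Complex.exp S - Complex.exp (J t)) := by
        field_simp
        ring
      rw [e]
      have h1 : ‖(x m / Pi0 - x 0 * Complex.exp S) / xs‖ ≤ 3 * C * G ^ 4 / N := by
        rw [norm_div, div_le_iff₀ hX0]
        calc ‖x m / Pi0 - x 0 * Complex.exp S‖ ≤ C / N * D := hgb
          _ ≤ C / N * (3 * G ^ 4 * X) := by gcongr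
          _ = _ := by ring
      have h2 : ‖(x 0 - xs) / xs * Complex.exp S‖ ≤ 3 * G ^ 3 * EJ / N := by
        rw [norm_mul, norm_div]
        calc ‖x 0 - xs‖ / ‖xs‖ * ‖Complex.exp S‖ ≤ (G ^ 3 / N * X) / X * (3 * EJ) := by gcongr
          _ = _ := by field_simp
      have h3 := norm_add_le ((x m / Pi0 - x 0 * Complex.exp S) / xs +
          (x 0 - xs) / xs * Complex.exp S) (Complex.exp S - Complex.exp (J t))
      have h4 := norm_add_le ((x m / Pi0 - x 0 * Complex.exp S) / xs)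
          ((x 0 - xs) / xs * Complex.exp S)
      linarith
    have hrti : ‖r t i‖ ≤ G := (norm_le_pi_norm (r t) i).trans (hrG t htm)
    have hZ : |‖V k i‖ / (P * X) - ‖Complex.exp (J t)‖ * ‖r t i‖| ≤ η := by
      have e1 : ‖V k i‖ / (P * X) = ‖V k i / (Pi0 * xs)‖ := by
        rw [norm_div, norm_mul, hPin]
      have e2 : ‖Complex.exp (J t)‖ * ‖r t i‖ = ‖Complex.exp (J t) * r t i‖ := by
        rw [norm_mul]
      rw [e1, e2]
      refine (abs_norm_sub_norm_le _ _).trans ?_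
      have e3 : V k i / (Pi0 * xs) - Complex.exp (J t) * r t i =
          (x m / Pi0 / xs - Complex.exp (J t)) * r t i + w m i / (Pi0 * xs) := by
        rw [hVk]
        simp only [Pi.add_apply, Pi.smul_apply, smul_eq_mul]
        field_simp
        ring
      rw [e3]
      refine (norm_add_le _ _).trans ?_
      have h1 : ‖(x m / Pi0 / xs - Complex.exp (J t)) * r t i‖ ≤
          (3 * C * G ^ 4 / N + 3 * G ^ 3 * EJ / N + 2 * EJ * ε1) * G := by
        rw [norm_mul]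
        gcongr
      have h2 : ‖w m i / (Pi0 * xs)‖ ≤ C * (θ ^ m + 1 / N) * (3 * G ^ 4) := by
        rw [norm_div, norm_mul, hPin, div_le_iff₀ (by positivity)]
        calc ‖w m i‖ ≤ ‖w m‖ := norm_le_pi_norm _ _
          _ ≤ C * (θ ^ m + 1 / N) * D * P := hgw
          _ ≤ C * (θ ^ m + 1 / N) * (3 * G ^ 4 * X) * P := by gcongr
          _ = _ := by ring
      have h3 : (3 * C * G ^ 4 / N + 3 * G ^ 3 * EJ / N + 2 * EJ * ε1) * G +
          C * (θ ^ m + 1 / N) * (3 * G ^ 4) =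
          Q1 / N + 2 * G * EJ * ε1 + 3 * C * G ^ 4 * θ ^ m := by
        rw [hQ1]; ring
      linarith
    have hf : |P / E - fh| ≤ η := by
      rw [hPE]
      have e : fh * Real.exp u - fh = fh * (Real.exp u - 1) := by ring
      rw [e, abs_mul, abs_of_pos hfh0]
      have h1 := Real.abs_exp_sub_one_le (htrap'.trans hLN)
      calc fh * |Real.exp u - 1| ≤ F * (2 * |u|) := by gcongr
        _ ≤ F * (2 * (2 * Lg / N)) := by gcongr
        _ ≤ η := hFN
    have hfin := hclose (P / E) fh (‖V k i‖ / (P * X)) (‖Complex.exp (J t)‖ * ‖r t i‖) hfh0.le hfhF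
      (by positivity) (by gcongr) hf hZ
    have e1 : (P / E * (‖V k i‖ / (P * X))) ^ 2 =
        ‖V k i‖ ^ 2 / (X ^ 2 * Real.exp (2 * N * I)) := by
      have h1 : Real.exp (2 * N * I) = E ^ 2 := by
        rw [hE, sq, ← Real.exp_add]
        congr 1
        ring
      rw [h1]
      field_simp
    have e2 : (fh * (‖Complex.exp (J t)‖ * ‖r t i‖)) ^ 2 =
        ‖Complex.exp (J t)‖ ^ 2 / (‖lam t‖ * ‖lam 1‖) * ‖r t i‖ ^ 2 := by
      have h1 : fh ^ 2 = (‖lam t‖ * ‖lam 1‖)⁻¹ := by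
        rw [hfh, sq, ← Real.exp_add]
        have h2 : -(g 1 + g t) / 2 + -(g 1 + g t) / 2 = -(g t + g 1) := by ring
        rw [h2, Real.exp_neg, Real.exp_add]
        simp only [hg]
        rw [Real.exp_log (norm_pos_iff.2 (hlam0 t htm)),
          Real.exp_log (norm_pos_iff.2 (hlam0 1 h1mem))]
      rw [mul_pow, h1, mul_pow]
      ring
    rw [e1, e2] at hfin
    exact hfin

end Pool.Agent.Kashaev.KV
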