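import Pool.Agent.Kashaev.KV.Prod

/-!
# Auxiliary lemmas for the dominated slowly varying recursion

Taylor estimates, the trapezoid rule on the grid, Riemann sums, the one step estimate and the
growth of the two components of a solution.
-/

open Finset Real Filter Topology

namespace Pool.Agent.Kashaev.KV.DynAux

open Pool.Agent.Kashaev.KV

theorem taylor_two {E : Type*} [NormedAddCommGroup E] [NormedSpace ℝ E] {a b : ℝ}
    (hab : a ≤ b) (f : ℝ → E) (hf : ∀ t ∈ Set.Icc a b, ContDiffAt ℝ 2 f t) :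
    ContinuousOn (deriv f) (Set.Icc a b) ∧ ∃ L : ℝ, 0 ≤ L ∧
    (∀ s ∈ Set.Icc a b, ∀ t ∈ Set.Icc a b, ‖f s - f t‖ ≤ L * |s - t|) ∧
    ∀ s ∈ Set.Icc a b, ∀ t ∈ Set.Icc a b,
      ‖f s - f t - (s - t) • deriv f t‖ ≤ L * |s - t| ^ 2 := by
  have h1 : ∀ t ∈ Set.Icc a b, ContDiffAt ℝ 1 (deriv f) t := by
    intro t ht
    have h := (hf t ht).fderiv_right (m := 1) (by norm_num)
    have h2 : deriv f = fun x => fderiv ℝ f x 1 := by
      ext x; exact (fderiv_apply_one_eq_deriv).symm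
    rw [h2]
    exact h.clm_apply contDiffAt_const
  have hd1 : ContinuousOn (deriv f) (Set.Icc a b) := fun t ht =>
    (h1 t ht).continuousAt.continuousWithinAt
  have h2 : ∀ t ∈ Set.Icc a b, ContDiffAt ℝ 0 (deriv (deriv f)) t := by
    intro t ht
    have h := (h1 t ht).fderiv_right (m := 0) (by norm_num)
    have h2 : deriv (deriv f) = fun x => fderiv ℝ (deriv f) x 1 := by
      ext x; exact (fderiv_apply_one_eq_deriv).symm
    rw [h2]
    exact h.clm_apply contDiffAt_const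
  have hd2 : ContinuousOn (deriv (deriv f)) (Set.Icc a b) := fun t ht =>
    (h2 t ht).continuousAt.continuousWithinAt
  refine ⟨hd1, ?_⟩
  obtain ⟨L1, hL1⟩ := isCompact_Icc.exists_bound_of_continuousOn hd1
  obtain ⟨L2, hL2⟩ := isCompact_Icc.exists_bound_of_continuousOn hd2
  have hmem : a ∈ Set.Icc a b := ⟨le_rfl, hab⟩
  have hL10 : 0 ≤ L1 := (norm_nonneg _).trans (hL1 a hmem)
  have hL20 : 0 ≤ L2 := (norm_nonneg _).trans (hL2 a hmem)
  have hder : ∀ t ∈ Set.Icc a b, HasDerivAt f (deriv f t) t := fun t ht =>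
    ((hf t ht).differentiableAt (by norm_num)).hasDerivAt
  have hder2 : ∀ t ∈ Set.Icc a b, HasDerivAt (deriv f) (deriv (deriv f) t) t := fun t ht =>
    ((h1 t ht).differentiableAt (by norm_num)).hasDerivAt
  have hlip : ∀ s ∈ Set.Icc a b, ∀ t ∈ Set.Icc a b, ‖deriv f s - deriv f t‖ ≤ L2 * |s - t| := by
    intro s hs t ht
    have := (convex_Icc a b).norm_image_sub_le_of_norm_hasDerivWithin_le
      (fun x hx => (hder2 x hx).hasDerivWithinAt) hL2 ht hs
    rwa [Real.norm_eq_abs] at this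
  refine ⟨max L1 L2, le_max_of_le_left hL10, ?_, ?_⟩
  · intro s hs t ht
    have := (convex_Icc a b).norm_image_sub_le_of_norm_hasDerivWithin_le
      (fun x hx => (hder x hx).hasDerivWithinAt) hL1 ht hs
    rw [Real.norm_eq_abs] at this
    exact this.trans (mul_le_mul_of_nonneg_right (le_max_left _ _) (abs_nonneg _))
  · intro s hs t ht
    have hsub : Set.uIcc t s ⊆ Set.Icc a b := Set.uIcc_subset_Icc ht hs
    have hconv : Convex ℝ (Set.uIcc t s) := convex_uIcc _ _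
    have := hconv.norm_image_sub_le_of_norm_hasDerivWithin_le
      (f := fun u => f u - u • deriv f t) (f' := fun u => deriv f u - deriv f t)
      (C := L2 * |s - t|) (x := t) (y := s)
      (fun x hx => by
        have h3 : HasDerivAt (fun u => f u - u • deriv f t) (deriv f x - (1 : ℝ) • deriv f t) x :=
          (hder x (hsub hx)).sub ((hasDerivAt_id x).smul_const (deriv f t))
        rw [one_smul] at h3
        exact h3.hasDerivWithinAt)
      (fun x hx => by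
        refine (hlip x (hsub hx) t ht).trans ?_
        refine mul_le_mul_of_nonneg_left ?_ hL20
        have := Set.abs_sub_left_of_mem_uIcc hx
        simpa [abs_sub_comm] using this)
      Set.left_mem_uIcc Set.right_mem_uIcc
    rw [Real.norm_eq_abs] at this
    have e : f s - s • deriv f t - (f t - t • deriv f t) = f s - f t - (s - t) • deriv f t := by
      rw [sub_smul]; abel
    simp only [e] at this
    calc ‖f s - f t - (s - t) • deriv f t‖ ≤ L2 * |s - t| * |s - t| := this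
      _ = L2 * |s - t| ^ 2 := by ring
      _ ≤ _ := mul_le_mul_of_nonneg_right (le_max_right _ _) (by positivity)

theorem trap_step {a b : ℝ} (g g' : ℝ → ℝ) (L : ℝ) (hL00 : 0 ≤ L) (hgc : ContinuousOn g (Set.Icc a b))
    (hL : ∀ s ∈ Set.Icc a b, ∀ t ∈ Set.Icc a b, |g s - g t - (s - t) * g' t| ≤ L * |s - t| ^ 2)
    {x y : ℝ} (hx : a ≤ x) (hxy : x ≤ y) (hy : y ≤ b) :
    |(∫ s in x..y, g s) - (y - x) * (g x + g y) / 2| ≤ 2 * L * (y - x) ^ 3 := by
  have hxm : x ∈ Set.Icc a b := ⟨hx, hxy.trans hy⟩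
  have hym : y ∈ Set.Icc a b := ⟨hx.trans hxy, hy⟩
  have hL0 : 0 ≤ L * (y - x) ^ 2 := by positivity
  have hsub : Set.uIcc x y ⊆ Set.Icc a b := Set.uIcc_subset_Icc hxm hym
  have hint : IntervalIntegrable g MeasureTheory.volume x y :=
    (hgc.mono hsub).intervalIntegrable
  have h1 : (∫ s in x..y, (g s - g x - (s - x) * g' x)) =
      (∫ s in x..y, g s) - (y - x) * g x - (y - x) ^ 2 / 2 * g' x := by
    have hi2 : IntervalIntegrable (fun s => (s - x) * g' x) MeasureTheory.volume x y := by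
      apply Continuous.intervalIntegrable; fun_prop
    have hi1 : IntervalIntegrable (fun s => g s - g x) MeasureTheory.volume x y :=
      hint.sub intervalIntegrable_const
    rw [intervalIntegral.integral_sub hi1 hi2, intervalIntegral.integral_sub hint
      intervalIntegrable_const]
    rw [intervalIntegral.integral_mul_const, intervalIntegral.integral_sub (by
      apply Continuous.intervalIntegrable; fun_prop) (by
      apply Continuous.intervalIntegrable; fun_prop)]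
    rw [integral_id, intervalIntegral.integral_const, intervalIntegral.integral_const]
    simp only [smul_eq_mul]
    ring
  have h2 : |∫ s in x..y, (g s - g x - (s - x) * g' x)| ≤ L * (y - x) ^ 2 * |y - x| := by
    have := intervalIntegral.norm_integral_le_of_norm_le_const (a := x) (b := y)
      (f := fun s => g s - g x - (s - x) * g' x) (C := L * (y - x) ^ 2) (by
        intro s hs
        rw [Set.uIoc_of_le hxy] at hs
        have hsm : s ∈ Set.Icc a b := ⟨hx.trans hs.1.le, hs.2.trans hy⟩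
        refine (hL s hsm x hxm).trans ?_
        refine mul_le_mul_of_nonneg_left ?_ hL00
        rw [sq_abs]
        have h3 := hs.1
        have h4 := hs.2
        nlinarith)
    simpa [Real.norm_eq_abs] using this
  have h3 := hL y hym x hxm
  have h4 : |y - x| = y - x := abs_of_nonneg (by linarith)
  rw [h4] at h2 h3
  have h5 : |(y - x) / 2 * (g y - g x - (y - x) * g' x)| ≤ (y - x) / 2 * (L * (y - x) ^ 2) := by
    rw [abs_mul, abs_of_nonneg (by linarith : 0 ≤ (y - x) / 2)]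
    exact mul_le_mul_of_nonneg_left h3 (by linarith)
  have h6 : (∫ s in x..y, g s) - (y - x) * (g x + g y) / 2 =
      (∫ s in x..y, (g s - g x - (s - x) * g' x)) - (y - x) / 2 * (g y - g x - (y - x) * g' x) := by
    rw [h1]; ring
  rw [h6]
  refine (abs_sub _ _).trans ?_
  have h7 : 0 ≤ L * (y - x) ^ 2 * (y - x) := mul_nonneg hL0 (by linarith)
  nlinarith

/-- The grid points `(N - 1 - m) / N` in descending order. -/
noncomputable def tt (N m : ℕ) : ℝ := 1 - ((m : ℝ) + 1) / N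

theorem tt_succ (N m : ℕ) : tt N (m + 1) = tt N m - 1 / N := by
  unfold tt; push_cast; ring

theorem tt_eq {N m : ℕ} (hN : 1 ≤ N) (hm : m ≤ N - 1) : ((N - 1 - m : ℕ) : ℝ) / N = tt N m := by
  unfold tt
  have hN' : (N : ℝ) ≠ 0 := by positivity
  rw [Nat.cast_sub hm, Nat.cast_sub hN]
  field_simp
  push_cast
  ring

theorem tt_anti {N m m' : ℕ} (h : m ≤ m') : tt N m' ≤ tt N m := by
  unfold tt
  have : ((m : ℝ) + 1) / N ≤ ((m' : ℝ) + 1) / N := by
    have : (m : ℝ) ≤ m' := by exact_mod_cast h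
    gcongr
  linarith

theorem tt_le_one (N m : ℕ) : tt N m ≤ 1 := by
  unfold tt
  have : 0 ≤ ((m : ℝ) + 1) / N := by positivity
  linarith

theorem tt_lt (a : ℝ) {N m : ℕ} (hN : 1 ≤ N) (h : a ≤ tt N m) : (m : ℝ) + 1 ≤ (1 - a) * N := by
  unfold tt at h
  have hN' : (0 : ℝ) < N := by positivity
  have : ((m : ℝ) + 1) / N ≤ 1 - a := by linarith
  rwa [div_le_iff₀ hN'] at this

theorem trap_sum {a : ℝ} (g g' : ℝ → ℝ) (L : ℝ) (hL00 : 0 ≤ L)
    (hgc : ContinuousOn g (Set.Icc a 1))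
    (hL : ∀ s ∈ Set.Icc a 1, ∀ t ∈ Set.Icc a 1, |g s - g t - (s - t) * g' t| ≤ L * |s - t| ^ 2)
    {N : ℕ} (hN : 1 ≤ N) (m : ℕ) (hm : a ≤ tt N m) :
    |(∑ j ∈ range m, g (tt N j)) - (N * (∫ s in (tt N m)..1, g s) - (g 1 + g (tt N m)) / 2)| ≤
      2 * L * (m + 1) / N ^ 2 := by
  have hN' : (0 : ℝ) < N := by positivity
  have hone : ∀ x y : ℝ, a ≤ x → y ≤ 1 → y - x = 1 / N →
      |N * (∫ s in x..y, g s) - (g x + g y) / 2| ≤ 2 * L / N ^ 2 := by
    intro x y hx hy hxy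
    have h0 : x ≤ y := by
      have : 0 < 1 / (N : ℝ) := by positivity
      linarith
    have := trap_step g g' L hL00 hgc hL hx h0 hy
    rw [hxy] at this
    have e : (N : ℝ) * (∫ s in x..y, g s) - (g x + g y) / 2 =
        N * ((∫ s in x..y, g s) - 1 / N * (g x + g y) / 2) := by
      field_simp
    rw [e, abs_mul, abs_of_pos hN']
    calc (N : ℝ) * |(∫ s in x..y, g s) - 1 / N * (g x + g y) / 2|
        ≤ N * (2 * L * (1 / N) ^ 3) := mul_le_mul_of_nonneg_left this hN'.le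
      _ = 2 * L / N ^ 2 := by field_simp
  induction m with
  | zero =>
    have h0 : 1 - tt N 0 = 1 / N := by unfold tt; push_cast; ring
    have := hone (tt N 0) 1 hm le_rfl h0
    rw [Finset.sum_range_zero]
    have e : (0 : ℝ) - (N * (∫ s in (tt N 0)..1, g s) - (g 1 + g (tt N 0)) / 2) =
        -(N * (∫ s in (tt N 0)..1, g s) - (g (tt N 0) + g 1) / 2) := by ring
    rw [e, abs_neg]
    simpa using this
  | succ m ih =>
    have hm' : a ≤ tt N m := hm.trans (tt_anti (Nat.le_succ m))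
    have ih := ih hm'
    have h1 : tt N m - tt N (m + 1) = 1 / N := by rw [tt_succ]; ring
    have h2 := hone (tt N (m + 1)) (tt N m) hm (tt_le_one _ _) h1
    have hmem1 : tt N (m + 1) ∈ Set.Icc a 1 := ⟨hm, tt_le_one _ _⟩
    have hmem2 : tt N m ∈ Set.Icc a 1 := ⟨hm', tt_le_one _ _⟩
    have hmem3 : (1 : ℝ) ∈ Set.Icc a 1 := ⟨hm.trans (tt_le_one _ _), le_rfl⟩
    have hadj : (∫ s in (tt N (m + 1))..(tt N m), g s) + (∫ s in (tt N m)..1, g s) =
        ∫ s in (tt N (m + 1))..1, g s :=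
      intervalIntegral.integral_add_adjacent_intervals
        ((hgc.mono (Set.uIcc_subset_Icc hmem1 hmem2)).intervalIntegrable)
        ((hgc.mono (Set.uIcc_subset_Icc hmem2 hmem3)).intervalIntegrable)
    rw [Finset.sum_range_succ, ← hadj]
    have e : (∑ j ∈ range m, g (tt N j)) + g (tt N m) -
        (N * ((∫ s in (tt N (m + 1))..(tt N m), g s) + (∫ s in (tt N m)..1, g s)) -
          (g 1 + g (tt N (m + 1))) / 2) =
        ((∑ j ∈ range m, g (tt N j)) - (N * (∫ s in (tt N m)..1, g s) - (g 1 + g (tt N m)) / 2)) -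
        (N * (∫ s in (tt N (m + 1))..(tt N m), g s) - (g (tt N (m + 1)) + g (tt N m)) / 2) := by
      ring
    rw [e]
    refine (abs_sub _ _).trans ((add_le_add ih h2).trans (le_of_eq ?_))
    push_cast
    field_simp

theorem riemann_sum {a : ℝ} (ρ : ℝ → ℂ) (hρ : Continuous ρ) (M : ℝ)
    (hM : ∀ t ∈ Set.Icc a 1, ‖ρ t‖ ≤ M) (ha : a ≤ 1) {ε : ℝ} (hε : 0 < ε) :
    ∃ N0 : ℕ, 1 ≤ N0 ∧ ∀ N ≥ N0, ∀ m, a ≤ tt N m →
      ‖(∑ j ∈ range m, ρ (tt N j) / N) - ∫ s in (tt N m)..1, ρ s‖ ≤ ε := by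
  have hM0 : 0 ≤ M := (norm_nonneg _).trans (hM 1 ⟨ha, le_rfl⟩)
  have hu : UniformContinuousOn ρ (Set.Icc a 1) :=
    isCompact_Icc.uniformContinuousOn_of_continuous hρ.continuousOn
  rw [Metric.uniformContinuousOn_iff] at hu
  obtain ⟨δ, hδ, hδ'⟩ := hu (ε / (2 * (1 - a + 1))) (by
    have : 0 < 1 - a + 1 := by linarith
    positivity)
  obtain ⟨n1, hn1⟩ := exists_nat_gt (1 / δ)
  obtain ⟨n2, hn2⟩ := exists_nat_gt (2 * M / ε)
  refine ⟨max 1 (max n1 n2), le_max_left _ _, ?_⟩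
  intro N hN m hm
  have hN1 : 1 ≤ N := (le_max_left _ _).trans hN
  have hNn1 : n1 ≤ N := ((le_max_left _ _).trans (le_max_right _ _)).trans hN
  have hNn2 : n2 ≤ N := ((le_max_right _ _).trans (le_max_right _ _)).trans hN
  have hN' : (0 : ℝ) < N := by positivity
  have hNδ : 1 / (N : ℝ) < δ := by
    rw [div_lt_iff₀ hN']
    have h : 1 / δ < N := hn1.trans_le (by exact_mod_cast hNn1)
    rw [div_lt_iff₀ hδ] at h
    linarith
  have hNε : M / N ≤ ε / 2 := by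
    rw [div_le_iff₀ hN']
    have h : 2 * M / ε < N := hn2.trans_le (by exact_mod_cast hNn2)
    rw [div_lt_iff₀ hε] at h
    linarith
  set η := ε / (2 * (1 - a + 1)) with hη
  have hη0 : 0 < η := by
    have : 0 < 1 - a + 1 := by linarith
    positivity
  have key : ∀ m, a ≤ tt N m →
      ‖(∑ j ∈ range m, ρ (tt N j) / N) - ∫ s in (tt N m)..1, ρ s‖ ≤ η * m / N + M / N := by
    intro m
    induction m with
    | zero =>
      intro hm
      have h0 : 1 - tt N 0 = 1 / N := by unfold tt; push_cast; ring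
      have := intervalIntegral.norm_integral_le_of_norm_le_const (a := tt N 0) (b := 1)
        (f := ρ) (C := M) (by
          intro x hx
          rw [Set.uIoc_of_le (tt_le_one _ _)] at hx
          exact hM x ⟨hm.trans hx.1.le, hx.2⟩)
      rw [h0, abs_of_pos (by positivity)] at this
      rw [Finset.sum_range_zero, zero_sub, norm_neg]
      simpa [div_eq_mul_inv] using this
    | succ m ih =>
      intro hm
      have hm' : a ≤ tt N m := hm.trans (tt_anti (Nat.le_succ m))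
      have ih := ih hm'
      have h1 : tt N m - tt N (m + 1) = 1 / N := by rw [tt_succ]; ring
      have hle : tt N (m + 1) ≤ tt N m := tt_anti (Nat.le_succ m)
      have hadj : (∫ s in (tt N (m + 1))..(tt N m), ρ s) + (∫ s in (tt N m)..1, ρ s) =
          ∫ s in (tt N (m + 1))..1, ρ s :=
        intervalIntegral.integral_add_adjacent_intervals
          (hρ.intervalIntegrable _ _) (hρ.intervalIntegrable _ _)
      have h3 : ‖∫ s in (tt N (m + 1))..(tt N m), (ρ s - ρ (tt N m))‖ ≤ η * (1 / N) := by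
        have := intervalIntegral.norm_integral_le_of_norm_le_const (a := tt N (m + 1))
          (b := tt N m) (f := fun s => ρ s - ρ (tt N m)) (C := η) (by
            intro x hx
            rw [Set.uIoc_of_le hle] at hx
            have hx1 : x ∈ Set.Icc a 1 := ⟨hm.trans hx.1.le, hx.2.trans (tt_le_one _ _)⟩
            have hx2 : tt N m ∈ Set.Icc a 1 := ⟨hm', tt_le_one _ _⟩
            have := hδ' x hx1 (tt N m) hx2 (by
              rw [Real.dist_eq, abs_sub_comm, abs_of_nonneg (by linarith [hx.2])]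
              linarith [hx.1])
            rw [dist_eq_norm] at this
            exact this.le)
        rwa [h1, abs_of_pos (by positivity)] at this
      have h4 : (∫ s in (tt N (m + 1))..(tt N m), (ρ s - ρ (tt N m))) =
          (∫ s in (tt N (m + 1))..(tt N m), ρ s) - ρ (tt N m) / N := by
        rw [intervalIntegral.integral_sub (hρ.intervalIntegrable _ _) intervalIntegrable_const,
          intervalIntegral.integral_const, h1, Complex.real_smul]
        push_cast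
        ring
      rw [h4] at h3
      rw [Finset.sum_range_succ, ← hadj]
      have e : (∑ j ∈ range m, ρ (tt N j) / N) + ρ (tt N m) / N -
          ((∫ s in (tt N (m + 1))..(tt N m), ρ s) + (∫ s in (tt N m)..1, ρ s)) =
          ((∑ j ∈ range m, ρ (tt N j) / N) - ∫ s in (tt N m)..1, ρ s) -
          ((∫ s in (tt N (m + 1))..(tt N m), ρ s) - ρ (tt N m) / N) := by ring
      rw [e]
      refine (norm_sub_le _ _).trans ((add_le_add ih h3).trans (le_of_eq ?_))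
      push_cast
      ring
  refine (key m hm).trans ?_
  have h5 := tt_lt a hN1 hm
  have h6 : η * m / N ≤ ε / 2 := by
    rw [div_le_iff₀ hN']
    have h7 : η * (1 - a + 1) = ε / 2 := by
      rw [hη]
      have : (1 - a + 1) ≠ 0 := by linarith
      field_simp
    calc η * m ≤ η * ((1 - a + 1) * N) := by
          refine mul_le_mul_of_nonneg_left ?_ hη0.le
          nlinarith
      _ = ε / 2 * N := by rw [← mul_assoc, h7]
  linarith

theorem prod_rev {n : ℕ} {a : ℝ} (ha : a ≤ 1) (B : ℝ → Matrix (Fin n) (Fin n) ℂ)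
    (hB : ContinuousOn B (Set.Icc a 1)) (μ : ℝ → ℝ) (hμ : ContinuousOn μ (Set.Icc a 1))
    (hμ0 : ∀ t ∈ Set.Icc a 1, 0 < μ t)
    (hs : ∀ t ∈ Set.Icc a 1, ∀ (s : ℂ) (v : Fin n → ℂ), v ≠ 0 → (B t).mulVec v = s • v →
      ‖s‖ < μ t) :
    ∃ C > 0, ∃ θ : ℝ, 0 < θ ∧ θ < 1 ∧ ∃ ε > 0, ∃ N0 : ℕ, 1 ≤ N0 ∧ ∀ N ≥ N0, ∀ m1 m2 : ℕ,
      m1 ≤ m2 → m2 ≤ N - 1 → a ≤ tt N m2 → ∀ U : ℕ → Fin n → ℂ,
      (∀ j, m1 ≤ j → j < m2 → ‖U (j + 1) - (B (tt N j)).mulVec (U j)‖ ≤ ε * ‖U j‖) →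
      ‖U m2‖ ≤ C * θ ^ (m2 - m1) * (∏ j ∈ Ico m1 m2, μ (tt N j)) * ‖U m1‖ := by
  obtain ⟨C, hC, θ, hθ0, hθ1, ε, hε, N0, h⟩ := prod_bound ha B hB μ hμ hμ0 hs
  refine ⟨C, hC, θ, hθ0, hθ1, ε, hε, max 1 N0, le_max_left _ _, ?_⟩
  intro N hN m1 m2 h12 hm2 hat U hU
  have hN1 : 1 ≤ N := (le_max_left _ _).trans hN
  have hN0 : N0 ≤ N := (le_max_right _ _).trans hN
  have hm1 : m1 ≤ N - 1 := h12.trans hm2
  have := h N hN0 (N - 1 - m2) (N - 1 - m1) (by omega) (by rwa [tt_eq hN1 hm2])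
    (by rw [tt_eq hN1 hm1]; exact tt_le_one _ _) (fun k => U (N - 1 - k)) (by
      intro i hi1 hi2
      have e1 : N - 1 - (i - 1) = (N - 1 - i) + 1 := by omega
      have e2 : (i : ℝ) / N = tt N (N - 1 - i) := by
        rw [← tt_eq hN1 (by omega : N - 1 - i ≤ N - 1)]
        congr 2
        omega
      simp only [e1, e2]
      exact hU (N - 1 - i) (by omega) (by omega))
  have e3 : N - 1 - (N - 1 - m2) = m2 := by omega
  have e4 : N - 1 - (N - 1 - m1) = m1 := by omega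
  have e5 : (N - 1 - m1) - (N - 1 - m2) = m2 - m1 := by omega
  have e6 : (∏ i ∈ Ioc (N - 1 - m2) (N - 1 - m1), μ ((i : ℝ) / N)) =
      ∏ j ∈ Ico m1 m2, μ (tt N j) := by
    apply Finset.prod_nbij' (fun i => N - 1 - i) (fun j => N - 1 - j)
    · intro i hi
      simp only [Finset.mem_Ioc, Finset.mem_Ico] at hi ⊢
      omega
    · intro i hi
      simp only [Finset.mem_Ioc, Finset.mem_Ico] at hi ⊢
      omega
    · intro i hi
      simp only [Finset.mem_Ioc] at hi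
      omega
    · intro i hi
      simp only [Finset.mem_Ico] at hi
      omega
    · intro i hi
      simp only [Finset.mem_Ioc] at hi
      rw [← tt_eq hN1 (by omega : N - 1 - i ≤ N - 1)]
      congr 3
      omega
  simp only [e3, e4, e5, e6] at this
  exact this

theorem mat_bound {n : ℕ} {a : ℝ} (B : ℝ → Matrix (Fin n) (Fin n) ℂ)
    (hB : ContinuousOn B (Set.Icc a 1)) :
    ∃ b : ℝ, 0 ≤ b ∧ ∀ t ∈ Set.Icc a 1, ∀ v : Fin n → ℂ, ‖(B t).mulVec v‖ ≤ b * ‖v‖ := by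
  have h1 : ∀ i j, ∃ b, ∀ t ∈ Set.Icc a 1, ‖B t i j‖ ≤ b := by
    intro i j
    apply isCompact_Icc.exists_bound_of_continuousOn
    exact (continuousOn_pi.1 (continuousOn_pi.1 hB i) j)
  choose b hb using h1
  refine ⟨∑ i, ∑ j, |b i j|, by positivity, ?_⟩
  intro t ht v
  rw [pi_norm_le_iff_of_nonneg (by positivity)]
  intro i
  calc ‖(B t).mulVec v i‖ = ‖∑ j, B t i j * v j‖ := rfl
    _ ≤ ∑ j, ‖B t i j * v j‖ := norm_sum_le _ _
    _ ≤ ∑ j, |b i j| * ‖v‖ := by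
        refine Finset.sum_le_sum fun j _ => ?_
        rw [norm_mul]
        exact mul_le_mul ((hb i j t ht).trans (le_abs_self _)) (norm_le_pi_norm v j)
          (norm_nonneg _) (abs_nonneg _)
    _ = (∑ j, |b i j|) * ‖v‖ := by rw [Finset.sum_mul]
    _ ≤ (∑ i, ∑ j, |b i j|) * ‖v‖ := by
        refine mul_le_mul_of_nonneg_right ?_ (norm_nonneg _)
        exact Finset.single_le_sum (f := fun i => ∑ j, |b i j|) (fun i _ => by positivity)
          (Finset.mem_univ i)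

theorem exit_bound {n : ℕ} {a : ℝ} (ha : a ≤ 1) (B : ℝ → Matrix (Fin n) (Fin n) ℂ)
    (hB : ContinuousOn B (Set.Icc a 1)) (μ : ℝ → ℝ) (hμ : ContinuousOn μ (Set.Icc a 1))
    (hμ0 : ∀ t ∈ Set.Icc a 1, 0 < μ t)
    (hs : ∀ t ∈ Set.Icc a 1, ∀ (s : ℂ) (v : Fin n → ℂ), v ≠ 0 → (B t).mulVec v = s • v →
      ‖s‖ < μ t) (c : ℝ) (hc : 0 ≤ c) :
    ∃ C > 0, ∃ θ : ℝ, 0 < θ ∧ θ < 1 ∧ ∃ N0 : ℕ, 1 ≤ N0 ∧ ∀ N ≥ N0, ∀ M : ℕ,
      M ≤ N - 1 → a ≤ tt N M → ∀ (w : ℕ → Fin n → ℂ) (α : ℕ → ℝ), (∀ j < M, 0 ≤ α j) →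
      (∀ j < M, ‖w (j + 1) - (B (tt N j)).mulVec (w j)‖ ≤ c / N * (α j + ‖w j‖)) →
      ∀ Y : ℝ, 0 ≤ Y → (∀ j < M, α j ≤ Y * ∏ i ∈ range j, μ (tt N i)) →
      ‖w M‖ ≤ (C * θ ^ M * ‖w 0‖ + C / N * Y) * ∏ i ∈ range M, μ (tt N i) := by
  obtain ⟨C, hC, θ, hθ0, hθ1, ε, hε, N0, hN01, h⟩ := prod_rev ha B hB μ hμ hμ0 hs
  obtain ⟨b, hb0, hb⟩ := mat_bound B hB
  have hmem : (1 : ℝ) ∈ Set.Icc a 1 := ⟨ha, le_rfl⟩
  obtain ⟨t1, ht1, hmin⟩ := isCompact_Icc.exists_isMinOn ⟨1, hmem⟩ hμ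
  set ν := μ t1 with hν
  have hν0 : 0 < ν := hμ0 t1 ht1
  have hνle : ∀ t ∈ Set.Icc a 1, ν ≤ μ t := fun t ht => hmin ht
  set C3 := (b + ε / 2) * (2 * c / ε) + c with hC3
  have hC30 : 0 ≤ C3 := by positivity
  obtain ⟨n1, hn1⟩ := exists_nat_gt (2 * c / ε)
  refine ⟨C + C * C3 / ν, by positivity, θ, hθ0, hθ1, max N0 n1, hN01.trans (le_max_left _ _), ?_⟩
  intro N hN M hM hat w α hα hw Y hY hαY
  have hN0 : N0 ≤ N := (le_max_left _ _).trans hN
  have hNn1 : n1 ≤ N := (le_max_right _ _).trans hN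
  have hN1 : 1 ≤ N := hN01.trans hN0
  have hN' : (0 : ℝ) < N := by positivity
  have hcN : c / N ≤ ε / 2 := by
    rw [div_le_iff₀ hN']
    have h1 : 2 * c / ε < N := hn1.trans_le (by exact_mod_cast hNn1)
    rw [div_lt_iff₀ hε] at h1
    linarith
  have hPpos : ∀ m, m ≤ M → 0 < ∏ i ∈ range m, μ (tt N i) := by
    intro m hm
    refine Finset.prod_pos fun i hi => hμ0 _ ⟨?_, tt_le_one _ _⟩
    exact hat.trans (tt_anti ((Finset.mem_range.1 hi).le.trans hm))
  have hcases : ∀ m ≤ M, (∀ j < m, c / N * (α j + ‖w j‖) ≤ ε * ‖w j‖) ∨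
      ∃ j < m, ε * ‖w j‖ < c / N * (α j + ‖w j‖) ∧
        ∀ i, j < i → i < m → c / N * (α i + ‖w i‖) ≤ ε * ‖w i‖ := by
    intro m
    induction m with
    | zero => intro _; left; intro j hj; omega
    | succ m ih =>
      intro hm
      by_cases hg : c / N * (α m + ‖w m‖) ≤ ε * ‖w m‖
      · rcases ih (by omega) with h1 | ⟨j, hj, h1, h2⟩
        · left
          intro j hj
          rcases Nat.lt_succ_iff_lt_or_eq.1 hj with h3 | h3
          · exact h1 j h3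
          · rw [h3]; exact hg
        · right
          refine ⟨j, by omega, h1, ?_⟩
          intro i hi1 hi2
          rcases Nat.lt_succ_iff_lt_or_eq.1 hi2 with h3 | h3
          · exact h2 i hi1 h3
          · rw [h3]; exact hg
      · right
        exact ⟨m, by omega, not_le.1 hg, fun i hi1 hi2 => by omega⟩
  rcases hcases M le_rfl with hall | ⟨j, hj, hbad, hgood⟩
  · have h1 := h N hN0 0 M (Nat.zero_le _) hM hat w (fun j _ hj => (hw j hj).trans (hall j hj))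
    rw [Nat.sub_zero, ← Finset.range_eq_Ico] at h1
    have hP := hPpos M le_rfl
    calc ‖w M‖ ≤ C * θ ^ M * (∏ i ∈ range M, μ (tt N i)) * ‖w 0‖ := h1
      _ = (C * θ ^ M * ‖w 0‖) * (∏ i ∈ range M, μ (tt N i)) := by ring
      _ ≤ ((C + C * C3 / ν) * θ ^ M * ‖w 0‖ + (C + C * C3 / ν) / N * Y) *
          (∏ i ∈ range M, μ (tt N i)) := by
          refine mul_le_mul_of_nonneg_right ?_ hP.le
          have h2 : 0 ≤ C * C3 / ν * θ ^ M * ‖w 0‖ := by positivity
          have h3 : 0 ≤ (C + C * C3 / ν) / N * Y := by positivity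
          nlinarith
  · have hjm : tt N j ∈ Set.Icc a 1 := ⟨hat.trans (tt_anti hj.le), tt_le_one _ _⟩
    have hαj := hα j hj
    have h1 : ‖w j‖ ≤ 2 * c / ε * (α j / N) := by
      have h2 : ε / 2 * ‖w j‖ ≤ c / N * α j := by nlinarith [norm_nonneg (w j)]
      have h3 : ‖w j‖ ≤ 2 / ε * (c / N * α j) := by
        calc ‖w j‖ = 2 / ε * (ε / 2 * ‖w j‖) := by field_simp
          _ ≤ _ := mul_le_mul_of_nonneg_left h2 (by positivity)
      calc ‖w j‖ ≤ 2 / ε * (c / N * α j) := h3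
        _ = _ := by ring
    have h4 : ‖w (j + 1)‖ ≤ C3 * (α j / N) := by
      have h5 : ‖w (j + 1)‖ ≤ ‖w (j + 1) - (B (tt N j)).mulVec (w j)‖ +
          ‖(B (tt N j)).mulVec (w j)‖ := by
        have := norm_add_le (w (j + 1) - (B (tt N j)).mulVec (w j)) ((B (tt N j)).mulVec (w j))
        simpa using this
      have h6 := hw j hj
      have h7 := hb _ hjm (w j)
      have h8 : c / N * ‖w j‖ ≤ ε / 2 * ‖w j‖ := mul_le_mul_of_nonneg_right hcN (norm_nonneg _)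
      have h9 : (b + ε / 2) * ‖w j‖ ≤ (b + ε / 2) * (2 * c / ε * (α j / N)) :=
        mul_le_mul_of_nonneg_left h1 (by positivity)
      have h10 : c / N * α j = c * (α j / N) := by ring
      rw [hC3]
      nlinarith
    have h11 := h N hN0 (j + 1) M (by omega) hM hat w (fun i hi1 hi2 =>
      (hw i hi2).trans (hgood i (by omega) hi2))
    have hQ : 0 < ∏ i ∈ Ico (j + 1) M, μ (tt N i) := by
      refine Finset.prod_pos fun i hi => hμ0 _ ⟨?_, tt_le_one _ _⟩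
      exact hat.trans (tt_anti (Finset.mem_Ico.1 hi).2.le)
    have hPM : (∏ i ∈ range M, μ (tt N i)) =
        (∏ i ∈ range j, μ (tt N i)) * μ (tt N j) * ∏ i ∈ Ico (j + 1) M, μ (tt N i) := by
      rw [← Finset.prod_range_mul_prod_Ico (fun i => μ (tt N i)) (by omega : j + 1 ≤ M),
        Finset.prod_range_succ]
    have hPj := hPpos j hj.le
    have hθle : θ ^ (M - (j + 1)) ≤ 1 := pow_le_one₀ hθ0.le hθ1.le
    have hμj : ν ≤ μ (tt N j) := hνle _ hjm
    have hYj := hαY j hj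
    calc ‖w M‖ ≤ C * θ ^ (M - (j + 1)) * (∏ i ∈ Ico (j + 1) M, μ (tt N i)) * ‖w (j + 1)‖ := h11
      _ ≤ C * 1 * (∏ i ∈ Ico (j + 1) M, μ (tt N i)) *
          (C3 * ((Y * ∏ i ∈ range j, μ (tt N i)) / N)) := by
          have h12 : ‖w (j + 1)‖ ≤ C3 * ((Y * ∏ i ∈ range j, μ (tt N i)) / N) :=
            h4.trans (by gcongr)
          gcongr
      _ = C * C3 / ν / N * Y * ((∏ i ∈ range j, μ (tt N i)) * ν *
            ∏ i ∈ Ico (j + 1) M, μ (tt N i)) := by
          field_simp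
      _ ≤ C * C3 / ν / N * Y * ∏ i ∈ range M, μ (tt N i) := by
          rw [hPM]
          gcongr
      _ ≤ _ := by
          refine mul_le_mul_of_nonneg_right ?_ (hPpos M le_rfl).le
          have h13 : 0 ≤ (C + C * C3 / ν) * θ ^ M * ‖w 0‖ := by positivity
          have h14 : 0 ≤ C / N * Y := by positivity
          have h15 : (C + C * C3 / ν) / N * Y = C / N * Y + C * C3 / ν / N * Y := by ring
          linarith

theorem dot_bound {n : ℕ} {G : ℝ} (hn : (n : ℝ) ≤ G) (u v : Fin n → ℂ) :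
    ‖u ⬝ᵥ v‖ ≤ G * (‖u‖ * ‖v‖) := by
  calc ‖u ⬝ᵥ v‖ = ‖∑ i, u i * v i‖ := rfl
    _ ≤ ∑ i, ‖u i * v i‖ := norm_sum_le _ _
    _ ≤ ∑ _i : Fin n, ‖u‖ * ‖v‖ := by
        refine Finset.sum_le_sum fun i _ => ?_
        rw [norm_mul]
        exact mul_le_mul (norm_le_pi_norm u i) (norm_le_pi_norm v i) (norm_nonneg _)
          (norm_nonneg _)
    _ = n * (‖u‖ * ‖v‖) := by simp
    _ ≤ _ := mul_le_mul_of_nonneg_right hn (by positivity)

theorem one_step {n : ℕ} {G h : ℝ} (hG : 1 ≤ G) (hn : (n : ℝ) ≤ G) (hh0 : 0 ≤ h) (hh : h ≤ 1)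
    (S0 S1 : Matrix (Fin n) (Fin n) ℂ) (lam : ℂ) (r l dl rp lp U U' : Fin n → ℂ)
    (hS0 : ∀ v, ‖S0.mulVec v‖ ≤ G * ‖v‖) (hS1 : ∀ v, ‖S1.mulVec v‖ ≤ G * ‖v‖)
    (hlam : ‖lam‖ ≤ G) (hr : ‖r‖ ≤ G) (hl : ‖l‖ ≤ G) (hdl : ‖dl‖ ≤ G) (hrp : ‖rp‖ ≤ G)
    (hlp : ‖lp‖ ≤ G) (h1 : ‖lp - l‖ ≤ G * h) (h2 : ‖lp - l + (h : ℂ) • dl‖ ≤ G * h ^ 2)
    (h3 : ‖rp - r‖ ≤ G * h) (hr1 : S0.mulVec r = lam • r) (hl1 : S0.vecMul l = lam • l)
    (hlr : l ⬝ᵥ r = 1)
    (he : ‖U' - S0.mulVec U - (h : ℂ) • S1.mulVec U‖ ≤ G * h ^ 2 * ‖U‖)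
    (x : ℂ) (w : Fin n → ℂ) (hx : x = l ⬝ᵥ U) (hw : w = U - x • r) :
    ‖lp ⬝ᵥ U' - (lam + h * (l ⬝ᵥ S1.mulVec r - lam * (dl ⬝ᵥ r))) * x‖ ≤
      20 * G ^ 5 * (h ^ 2 * ‖x‖ + h * ‖w‖) ∧
    ‖(U' - (lp ⬝ᵥ U') • rp) - (S0 - lam • Matrix.vecMulVec r l).mulVec w‖ ≤
      20 * G ^ 5 * h * (‖x‖ + ‖w‖) := by
  set e := U' - S0.mulVec U - (h : ℂ) • S1.mulVec U with he_def
  have hG0 : 0 ≤ G := by linarith
  have hU : U = x • r + w := by rw [hw]; abel
  have hlw : l ⬝ᵥ w = 0 := by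
    rw [hw, dotProduct_sub, dotProduct_smul, hlr, ← hx]; simp
  have hUn : ‖U‖ ≤ G * ‖x‖ + ‖w‖ := by
    rw [hU]
    refine (norm_add_le _ _).trans ?_
    rw [norm_smul]
    have := mul_le_mul_of_nonneg_left hr (norm_nonneg x)
    linarith
  have hU' : U' = (x * lam) • r + S0.mulVec w + (h : ℂ) • S1.mulVec U + e := by
    rw [he_def]
    have : S0.mulVec U = (x * lam) • r + S0.mulVec w := by
      rw [hU, Matrix.mulVec_add, Matrix.mulVec_smul, hr1, smul_smul]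
    rw [this]
    abel
  have hlS : l ⬝ᵥ S0.mulVec w = 0 := by
    rw [Matrix.dotProduct_mulVec, hl1, smul_dotProduct, hlw]; simp
  set D1 := lp - l with hD1
  set E1 := lp - l + (h : ℂ) • dl with hE1
  have hlpr : lp ⬝ᵥ r = 1 - h * (dl ⬝ᵥ r) + E1 ⬝ᵥ r := by
    rw [hE1, add_dotProduct, sub_dotProduct, smul_dotProduct, hlr, smul_eq_mul]; ring
  have hlpS : lp ⬝ᵥ S0.mulVec w = D1 ⬝ᵥ S0.mulVec w := by
    rw [hD1, sub_dotProduct, hlS]; ring
  have hlpS1 : lp ⬝ᵥ S1.mulVec U = x * (l ⬝ᵥ S1.mulVec r) + x * (D1 ⬝ᵥ S1.mulVec r) +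
      lp ⬝ᵥ S1.mulVec w := by
    rw [hU, Matrix.mulVec_add, Matrix.mulVec_smul, dotProduct_add, dotProduct_smul, hD1,
      sub_dotProduct, smul_eq_mul]; ring
  have hx' : lp ⬝ᵥ U' - (lam + h * (l ⬝ᵥ S1.mulVec r - lam * (dl ⬝ᵥ r))) * x =
      x * lam * (E1 ⬝ᵥ r) + D1 ⬝ᵥ S0.mulVec w + h * (x * (D1 ⬝ᵥ S1.mulVec r)) +
      h * (lp ⬝ᵥ S1.mulVec w) + lp ⬝ᵥ e := by
    have : lp ⬝ᵥ U' = x * lam * (lp ⬝ᵥ r) + lp ⬝ᵥ S0.mulVec w + h * (lp ⬝ᵥ S1.mulVec U) +
        lp ⬝ᵥ e := by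
      rw [hU', dotProduct_add, dotProduct_add, dotProduct_add, dotProduct_smul, dotProduct_smul,
        smul_eq_mul, smul_eq_mul]
    rw [this, hlpr, hlpS, hlpS1]
    ring
  have hhn : ‖(h : ℂ)‖ = h := by rw [Complex.norm_real, Real.norm_eq_abs, abs_of_nonneg hh0]
  have hx0 := norm_nonneg x
  have hw0 := norm_nonneg w
  have hhh : h ^ 2 ≤ h := by nlinarith
  have b1 : ‖x * lam * (E1 ⬝ᵥ r)‖ ≤ G ^ 4 * (h ^ 2 * ‖x‖) := by
    rw [norm_mul, norm_mul]
    calc ‖x‖ * ‖lam‖ * ‖E1 ⬝ᵥ r‖ ≤ ‖x‖ * G * (G * (G * h ^ 2 * G)) := by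
          refine mul_le_mul (mul_le_mul_of_nonneg_left hlam hx0) ?_ (norm_nonneg _)
            (by positivity)
          refine (dot_bound hn E1 r).trans ?_
          refine mul_le_mul_of_nonneg_left ?_ hG0
          exact mul_le_mul h2 hr (norm_nonneg _) (by positivity)
      _ = _ := by ring
  have b2 : ‖D1 ⬝ᵥ S0.mulVec w‖ ≤ G ^ 3 * (h * ‖w‖) := by
    calc ‖D1 ⬝ᵥ S0.mulVec w‖ ≤ G * (‖D1‖ * ‖S0.mulVec w‖) := dot_bound hn _ _
      _ ≤ G * (G * h * (G * ‖w‖)) := by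
          refine mul_le_mul_of_nonneg_left ?_ hG0
          exact mul_le_mul h1 (hS0 w) (norm_nonneg _) (by positivity)
      _ = _ := by ring
  have b3 : ‖(h : ℂ) * (x * (D1 ⬝ᵥ S1.mulVec r))‖ ≤ G ^ 4 * (h ^ 2 * ‖x‖) := by
    rw [norm_mul, norm_mul, hhn]
    calc h * (‖x‖ * ‖D1 ⬝ᵥ S1.mulVec r‖) ≤ h * (‖x‖ * (G * (G * h * (G * G)))) := by
          refine mul_le_mul_of_nonneg_left ?_ hh0
          refine mul_le_mul_of_nonneg_left ?_ hx0
          refine (dot_bound hn _ _).trans ?_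
          refine mul_le_mul_of_nonneg_left ?_ hG0
          refine mul_le_mul h1 ((hS1 r).trans ?_) (norm_nonneg _) (by positivity)
          exact mul_le_mul_of_nonneg_left hr hG0
      _ = _ := by ring
  have b4 : ‖(h : ℂ) * (lp ⬝ᵥ S1.mulVec w)‖ ≤ G ^ 3 * (h * ‖w‖) := by
    rw [norm_mul, hhn]
    calc h * ‖lp ⬝ᵥ S1.mulVec w‖ ≤ h * (G * (G * (G * ‖w‖))) := by
          refine mul_le_mul_of_nonneg_left ?_ hh0
          refine (dot_bound hn _ _).trans ?_
          refine mul_le_mul_of_nonneg_left ?_ hG0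
          exact mul_le_mul hlp (hS1 w) (norm_nonneg _) (by positivity)
      _ = _ := by ring
  have hen : ‖e‖ ≤ G * h ^ 2 * (G * ‖x‖ + ‖w‖) :=
    he.trans (mul_le_mul_of_nonneg_left hUn (by positivity))
  have b5 : ‖lp ⬝ᵥ e‖ ≤ G ^ 4 * (h ^ 2 * ‖x‖) + G ^ 3 * (h * ‖w‖) := by
    calc ‖lp ⬝ᵥ e‖ ≤ G * (‖lp‖ * ‖e‖) := dot_bound hn _ _
      _ ≤ G * (G * (G * h ^ 2 * (G * ‖x‖ + ‖w‖))) := by
          refine mul_le_mul_of_nonneg_left ?_ hG0
          exact mul_le_mul hlp hen (norm_nonneg _) (by positivity)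
      _ = G ^ 4 * (h ^ 2 * ‖x‖) + G ^ 3 * (h ^ 2 * ‖w‖) := by ring
      _ ≤ _ := by gcongr
  have hG34 : G ^ 3 ≤ G ^ 5 := pow_le_pow_right₀ hG (by norm_num)
  have hG45 : G ^ 4 ≤ G ^ 5 := pow_le_pow_right₀ hG (by norm_num)
  have hG25 : G ^ 2 ≤ G ^ 5 := pow_le_pow_right₀ hG (by norm_num)
  have hG15 : G ≤ G ^ 5 := by
    calc G = G ^ 1 := (pow_one G).symm
      _ ≤ _ := pow_le_pow_right₀ hG (by norm_num)
  have hG34' : G ^ 3 ≤ G ^ 4 := pow_le_pow_right₀ hG (by norm_num)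
  have X0 : 0 ≤ h ^ 2 * ‖x‖ := by positivity
  have W0 : 0 ≤ h * ‖w‖ := by positivity
  have X1 : 0 ≤ h * ‖x‖ := by positivity
  have hA : ‖lp ⬝ᵥ U' - (lam + h * (l ⬝ᵥ S1.mulVec r - lam * (dl ⬝ᵥ r))) * x‖ ≤
      3 * G ^ 4 * (h ^ 2 * ‖x‖) + 3 * G ^ 3 * (h * ‖w‖) := by
    rw [hx']
    have := norm_add_le (x * lam * (E1 ⬝ᵥ r) + D1 ⬝ᵥ S0.mulVec w +
      h * (x * (D1 ⬝ᵥ S1.mulVec r)) + h * (lp ⬝ᵥ S1.mulVec w)) (lp ⬝ᵥ e)
    have := norm_add_le (x * lam * (E1 ⬝ᵥ r) + D1 ⬝ᵥ S0.mulVec w +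
      h * (x * (D1 ⬝ᵥ S1.mulVec r))) (h * (lp ⬝ᵥ S1.mulVec w))
    have := norm_add_le (x * lam * (E1 ⬝ᵥ r) + D1 ⬝ᵥ S0.mulVec w)
      (h * (x * (D1 ⬝ᵥ S1.mulVec r)))
    have := norm_add_le (x * lam * (E1 ⬝ᵥ r)) (D1 ⬝ᵥ S0.mulVec w)
    linarith
  refine ⟨?_, ?_⟩
  · refine hA.trans ?_
    have h5 : 3 * G ^ 4 * (h ^ 2 * ‖x‖) ≤ 20 * G ^ 5 * (h ^ 2 * ‖x‖) := by
      refine mul_le_mul_of_nonneg_right ?_ X0
      nlinarith [pow_nonneg hG0 5]
    have h6 : 3 * G ^ 3 * (h * ‖w‖) ≤ 20 * G ^ 5 * (h * ‖w‖) := by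
      refine mul_le_mul_of_nonneg_right ?_ W0
      nlinarith [pow_nonneg hG0 5]
    linarith
  · have hBw : (S0 - lam • Matrix.vecMulVec r l).mulVec w = S0.mulVec w := by
      rw [Matrix.sub_mulVec, Matrix.smul_mulVec, Matrix.vecMulVec_mulVec, hlw]
      simp
    rw [hBw]
    have hid : U' - (lp ⬝ᵥ U') • rp - S0.mulVec w = (x * lam - lp ⬝ᵥ U') • rp -
        (x * lam) • (rp - r) + (h : ℂ) • S1.mulVec U + e := by
      have h7 : U' - S0.mulVec w = (x * lam) • r + (h : ℂ) • S1.mulVec U + e := by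
        rw [hU']; abel
      have h8 : U' - (lp ⬝ᵥ U') • rp - S0.mulVec w = (U' - S0.mulVec w) - (lp ⬝ᵥ U') • rp := by
        abel
      rw [h8, h7, sub_smul, smul_sub]
      abel
    rw [hid]
    have hκ : ‖l ⬝ᵥ S1.mulVec r - lam * (dl ⬝ᵥ r)‖ ≤ 2 * G ^ 4 := by
      refine (norm_sub_le _ _).trans ?_
      have c1 : ‖l ⬝ᵥ S1.mulVec r‖ ≤ G ^ 4 := by
        calc ‖l ⬝ᵥ S1.mulVec r‖ ≤ G * (‖l‖ * ‖S1.mulVec r‖) := dot_bound hn _ _
          _ ≤ G * (G * (G * G)) := by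
              refine mul_le_mul_of_nonneg_left ?_ hG0
              refine mul_le_mul hl ((hS1 r).trans ?_) (norm_nonneg _) hG0
              exact mul_le_mul_of_nonneg_left hr hG0
          _ = _ := by ring
      have c2 : ‖lam * (dl ⬝ᵥ r)‖ ≤ G ^ 4 := by
        rw [norm_mul]
        calc ‖lam‖ * ‖dl ⬝ᵥ r‖ ≤ G * (G * (G * G)) := by
              refine mul_le_mul hlam ((dot_bound hn _ _).trans ?_) (norm_nonneg _) hG0
              refine mul_le_mul_of_nonneg_left ?_ hG0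
              exact mul_le_mul hdl hr (norm_nonneg _) hG0
          _ = _ := by ring
      linarith
    have hxx : ‖x * lam - lp ⬝ᵥ U'‖ ≤ 5 * G ^ 4 * (h * ‖x‖) + 3 * G ^ 4 * (h * ‖w‖) := by
      have h9 : x * lam - lp ⬝ᵥ U' = -(lp ⬝ᵥ U' - (lam + h * (l ⬝ᵥ S1.mulVec r -
          lam * (dl ⬝ᵥ r))) * x) - h * (l ⬝ᵥ S1.mulVec r - lam * (dl ⬝ᵥ r)) * x := by ring
      rw [h9]
      refine (norm_sub_le _ _).trans ?_
      rw [norm_neg, norm_mul, norm_mul, hhn]
      have h10 : h * ‖l ⬝ᵥ S1.mulVec r - lam * (dl ⬝ᵥ r)‖ * ‖x‖ ≤ 2 * G ^ 4 * (h * ‖x‖) := by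
        calc h * ‖l ⬝ᵥ S1.mulVec r - lam * (dl ⬝ᵥ r)‖ * ‖x‖ ≤ h * (2 * G ^ 4) * ‖x‖ := by
              gcongr
          _ = _ := by ring
      have h11 : 3 * G ^ 4 * (h ^ 2 * ‖x‖) ≤ 3 * G ^ 4 * (h * ‖x‖) := by gcongr
      have h12 : 3 * G ^ 3 * (h * ‖w‖) ≤ 3 * G ^ 4 * (h * ‖w‖) := by gcongr
      linarith
    have d1 : ‖(x * lam - lp ⬝ᵥ U') • rp‖ ≤ 5 * G ^ 5 * (h * ‖x‖) + 3 * G ^ 5 * (h * ‖w‖) := by
      rw [norm_smul]
      calc ‖x * lam - lp ⬝ᵥ U'‖ * ‖rp‖ ≤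
            (5 * G ^ 4 * (h * ‖x‖) + 3 * G ^ 4 * (h * ‖w‖)) * G := by gcongr
        _ = _ := by ring
    have d2 : ‖(x * lam) • (rp - r)‖ ≤ G ^ 2 * (h * ‖x‖) := by
      rw [norm_smul, norm_mul]
      calc ‖x‖ * ‖lam‖ * ‖rp - r‖ ≤ ‖x‖ * G * (G * h) := by gcongr
        _ = _ := by ring
    have d3 : ‖(h : ℂ) • S1.mulVec U‖ ≤ G ^ 2 * (h * ‖x‖) + G * (h * ‖w‖) := by
      rw [norm_smul, hhn]
      calc h * ‖S1.mulVec U‖ ≤ h * (G * (G * ‖x‖ + ‖w‖)) := by
            refine mul_le_mul_of_nonneg_left ((hS1 U).trans ?_) hh0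
            gcongr
        _ = _ := by ring
    have d4 : ‖e‖ ≤ G ^ 2 * (h * ‖x‖) + G * (h * ‖w‖) := by
      calc ‖e‖ ≤ G * h ^ 2 * (G * ‖x‖ + ‖w‖) := hen
        _ ≤ G * h * (G * ‖x‖ + ‖w‖) := by gcongr
        _ = _ := by ring
    have := norm_add_le ((x * lam - lp ⬝ᵥ U') • rp - (x * lam) • (rp - r) +
      (h : ℂ) • S1.mulVec U) e
    have := norm_add_le ((x * lam - lp ⬝ᵥ U') • rp - (x * lam) • (rp - r))
      ((h : ℂ) • S1.mulVec U)
    have := norm_sub_le ((x * lam - lp ⬝ᵥ U') • rp) ((x * lam) • (rp - r))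
    have f1 : G ^ 2 * (h * ‖x‖) ≤ G ^ 5 * (h * ‖x‖) := mul_le_mul_of_nonneg_right hG25 X1
    have f2 : G * (h * ‖w‖) ≤ G ^ 5 * (h * ‖w‖) := mul_le_mul_of_nonneg_right hG15 W0
    have f3 : 0 ≤ G ^ 5 * (h * ‖x‖) := by positivity
    have f4 : 0 ≤ G ^ 5 * (h * ‖w‖) := by positivity
    have f5 : 20 * G ^ 5 * h * (‖x‖ + ‖w‖) =
        20 * (G ^ 5 * (h * ‖x‖)) + 20 * (G ^ 5 * (h * ‖w‖)) := by ring
    rw [f5]
    linarith

theorem growth {n : ℕ} {a : ℝ} (ha : a ≤ 1) (B : ℝ → Matrix (Fin n) (Fin n) ℂ)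
    (hB : ContinuousOn B (Set.Icc a 1)) (lam : ℝ → ℂ) (hlam : ContinuousOn lam (Set.Icc a 1))
    (hlam0 : ∀ t ∈ Set.Icc a 1, lam t ≠ 0)
    (hs : ∀ t ∈ Set.Icc a 1, ∀ (s : ℂ) (v : Fin n → ℂ), v ≠ 0 → (B t).mulVec v = s • v →
      ‖s‖ < ‖lam t‖) (ρ : ℝ → ℂ) (R : ℝ) (hR : ∀ t ∈ Set.Icc a 1, ‖ρ t‖ ≤ R)
    (c : ℝ) (hc : 0 ≤ c) :
    ∃ C > 0, ∃ θ : ℝ, 0 < θ ∧ θ < 1 ∧ ∃ N0 : ℕ, 1 ≤ N0 ∧ ∀ N ≥ N0, ∀ M : ℕ,
      M ≤ N - 1 → a ≤ tt N M → ∀ (w : ℕ → Fin n → ℂ) (x : ℕ → ℂ),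
      (∀ j < M, ‖w (j + 1) - (B (tt N j)).mulVec (w j)‖ ≤ c / N * (‖x j‖ + ‖w j‖)) →
      (∀ j < M, ‖x (j + 1) - lam (tt N j) * (1 + ρ (tt N j) / N) * x j‖ ≤
        c / N ^ 2 * ‖x j‖ + c / N * ‖w j‖) →
      ∀ m ≤ M, ‖x m‖ ≤ C * (‖x 0‖ + ‖w 0‖) * ∏ i ∈ range m, ‖lam (tt N i)‖ ∧
        ‖w m‖ ≤ C * (θ ^ m + 1 / N) * (‖x 0‖ + ‖w 0‖) * ∏ i ∈ range m, ‖lam (tt N i)‖ ∧
        ‖x m / (∏ i ∈ range m, lam (tt N i)) - x 0 * Complex.exp (∑ i ∈ range m, ρ (tt N i) / N)‖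
          ≤ C / N * (‖x 0‖ + ‖w 0‖) := by
  obtain ⟨C1, hC1, θ, hθ0, hθ1, N1, hN1, h⟩ := exit_bound ha B hB (fun t => ‖lam t‖)
    hlam.norm (fun t ht => norm_pos_iff.2 (hlam0 t ht)) hs c hc
  have hmem : (1 : ℝ) ∈ Set.Icc a 1 := ⟨ha, le_rfl⟩
  have hR0 : 0 ≤ R := (norm_nonneg _).trans (hR 1 hmem)
  obtain ⟨t1, ht1, hmin⟩ := isCompact_Icc.exists_isMinOn ⟨1, hmem⟩ hlam.norm
  set ν := ‖lam t1‖ with hν
  have hν0 : 0 < ν := norm_pos_iff.2 (hlam0 t1 ht1)
  have hνle : ∀ t ∈ Set.Icc a 1, ν ≤ ‖lam t‖ := fun t ht => hmin ht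
  set c' := R + c / ν + 2 * c * C1 / ν with hc'
  have hc'0 : 0 ≤ c' := by positivity
  set A := Real.exp c' with hA
  have hA1 : 1 ≤ A := Real.one_le_exp hc'0
  set C2 := Real.exp R * (R ^ 2 * A + c * A / ν + c * C1 * A / ν) with hC2
  set C3 := Real.exp R * (c * C1 / ν) with hC3
  have hC20 : 0 ≤ C2 := by positivity
  have hC30 : 0 ≤ C3 := by positivity
  have h1θ : 0 < 1 - θ := by linarith
  set C := A + C1 + C1 * A + Real.exp R * (C2 + C3 / (1 - θ)) with hC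
  have hCpos : 0 < C := by positivity
  obtain ⟨n1, hn1⟩ := exists_nat_gt R
  refine ⟨C, hCpos, θ, hθ0, hθ1, max N1 n1, hN1.trans (le_max_left _ _), ?_⟩
  intro N hN M hM hat w x hw hx
  have hNN1 : N1 ≤ N := (le_max_left _ _).trans hN
  have hNn1 : n1 ≤ N := (le_max_right _ _).trans hN
  have hNone : 1 ≤ N := hN1.trans hNN1
  have hN' : (0 : ℝ) < N := by positivity
  have hN1' : (1 : ℝ) ≤ N := by exact_mod_cast hNone
  have hRN : R / N ≤ 1 := by
    rw [div_le_one hN']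
    exact (hn1.trans_le (by exact_mod_cast hNn1)).le
  set D := ‖x 0‖ + ‖w 0‖ with hD
  have hD0 : 0 ≤ D := by positivity
  set P : ℕ → ℝ := fun m => ∏ i ∈ range m, ‖lam (tt N i)‖ with hP
  have hmemI : ∀ m ≤ M, tt N m ∈ Set.Icc a 1 := fun m hm =>
    ⟨hat.trans (tt_anti hm), tt_le_one _ _⟩
  have hPpos : ∀ m ≤ M, 0 < P m := by
    intro m hm
    refine Finset.prod_pos fun i hi => norm_pos_iff.2 (hlam0 _ (hmemI i ?_))
    exact (Finset.mem_range.1 hi).le.trans hm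
  have hPs : ∀ m, P (m + 1) = P m * ‖lam (tt N m)‖ := fun m => by
    simp only [hP, Finset.prod_range_succ]
  have hP0 : P 0 = 1 := by simp [hP]
  have hq1 : 1 ≤ 1 + c' / N := by
    have : 0 ≤ c' / N := by positivity
    linarith
  have hYmono : ∀ m m' : ℕ, m ≤ m' → (1 + c' / N) ^ m * D ≤ (1 + c' / N) ^ m' * D := by
    intro m m' hmm
    exact mul_le_mul_of_nonneg_right (pow_le_pow_right₀ hq1 hmm) hD0
  have hwY : ∀ m ≤ M, (∀ j < m, ‖x j‖ ≤ (1 + c' / N) ^ j * D * P j) →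
      ‖w m‖ ≤ (C1 * θ ^ m * ‖w 0‖ + C1 / N * ((1 + c' / N) ^ m * D)) * P m := by
    intro m hm hj
    refine h N hNN1 m (hm.trans hM) (hmemI m hm).1 w (fun j => ‖x j‖) (fun j _ => norm_nonneg _)
      (fun j hj => hw j (hj.trans_le hm)) ((1 + c' / N) ^ m * D) (by positivity) ?_
    intro j hjm
    refine (hj j hjm).trans ?_
    exact mul_le_mul_of_nonneg_right (hYmono j m hjm.le) (hPpos j (hjm.le.trans hm)).le
  have hxY : ∀ m ≤ M, ‖x m‖ ≤ (1 + c' / N) ^ m * D * P m := by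
    intro m
    induction m using Nat.strong_induction_on with
    | _ m ih =>
      intro hm
      rcases m with _ | m
      · simp only [pow_zero, one_mul, hP0, mul_one]
        have := norm_nonneg (w 0)
        linarith
      · have ihm : ∀ j < m + 1, ‖x j‖ ≤ (1 + c' / N) ^ j * D * P j := fun j hj =>
          ih j hj (hj.le.trans hm)
        have hmM : m ≤ M := by omega
        have h1 := hwY m hmM (fun j hj => ihm j (by omega))
        have h2 := ihm m (by omega)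
        set Y := (1 + c' / N) ^ m * D with hY
        have hDY : D ≤ Y := by
          have := hYmono 0 m (Nat.zero_le _)
          simpa using this
        have hY0 : 0 ≤ Y := hD0.trans hDY
        have hw0Y : ‖w 0‖ ≤ Y := by
          have := norm_nonneg (x 0)
          linarith
        have hPm := hPpos m hmM
        have hθm : θ ^ m ≤ 1 := pow_le_one₀ hθ0.le hθ1.le
        have h3 : ‖w m‖ ≤ 2 * C1 * Y * P m := by
          refine h1.trans (mul_le_mul_of_nonneg_right ?_ hPm.le)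
          have h4 : C1 * θ ^ m * ‖w 0‖ ≤ C1 * 1 * Y := by gcongr
          have h5 : C1 / N * Y ≤ C1 * Y :=
            mul_le_mul_of_nonneg_right (div_le_self hC1.le hN1') hY0
          linarith
        have hlm := hνle _ (hmemI m hmM)
        have hρm := hR _ (hmemI m hmM)
        have h6 := hx m (by omega)
        have h7 : ‖x (m + 1)‖ ≤ ‖lam (tt N m)‖ * (1 + R / N) * ‖x m‖ +
            (c / N ^ 2 * ‖x m‖ + c / N * ‖w m‖) := by
          have h8 : ‖lam (tt N m) * (1 + ρ (tt N m) / N) * x m‖ ≤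
              ‖lam (tt N m)‖ * (1 + R / N) * ‖x m‖ := by
            rw [norm_mul, norm_mul]
            have h9 : ‖1 + ρ (tt N m) / (N : ℂ)‖ ≤ 1 + R / N := by
              refine (norm_add_le _ _).trans ?_
              rw [norm_one, norm_div, Complex.norm_natCast]
              gcongr
            gcongr
          have h10 := norm_add_le (x (m + 1) - lam (tt N m) * (1 + ρ (tt N m) / N) * x m)
            (lam (tt N m) * (1 + ρ (tt N m) / N) * x m)
          rw [sub_add_cancel] at h10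
          linarith
        have h11 : c / N ^ 2 * ‖x m‖ ≤ c / ν / N * ‖lam (tt N m)‖ * (Y * P m) := by
          have e1 : c / (N : ℝ) ^ 2 ≤ c / N := by
            apply div_le_div_of_nonneg_left hc hN'
            nlinarith
          calc c / N ^ 2 * ‖x m‖ ≤ c / N * (Y * P m) := by gcongr
            _ = c / ν / N * ν * (Y * P m) := by field_simp
            _ ≤ _ := by gcongr
        have h12 : c / N * ‖w m‖ ≤ 2 * c * C1 / ν / N * ‖lam (tt N m)‖ * (Y * P m) := by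
          calc c / N * ‖w m‖ ≤ c / N * (2 * C1 * Y * P m) := by gcongr
            _ = 2 * c * C1 / ν / N * ν * (Y * P m) := by field_simp
            _ ≤ _ := by gcongr
        have h13 : ‖lam (tt N m)‖ * (1 + R / N) * ‖x m‖ ≤
            ‖lam (tt N m)‖ * (1 + R / N) * (Y * P m) := by gcongr
        calc ‖x (m + 1)‖ ≤ ‖lam (tt N m)‖ * (1 + R / N) * (Y * P m) +
              (c / ν / N * ‖lam (tt N m)‖ * (Y * P m) +
                2 * c * C1 / ν / N * ‖lam (tt N m)‖ * (Y * P m)) := by linarith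
          _ = (1 + c' / N) ^ (m + 1) * D * P (m + 1) := by
              rw [hPs, pow_succ, hY, hc']
              ring
  have hpowA : ∀ m ≤ M, (1 + c' / N) ^ m ≤ A := by
    intro m hm
    have h1 : 1 + c' / N ≤ Real.exp (c' / N) := by
      have := Real.add_one_le_exp (c' / N)
      linarith
    calc (1 + c' / N) ^ m ≤ Real.exp (c' / N) ^ m := pow_le_pow_left₀ (by linarith) h1 m
      _ = Real.exp (m * (c' / N)) := by rw [← Real.exp_nat_mul]
      _ ≤ A := by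
          rw [hA]
          apply Real.exp_le_exp.2
          have hmN : (m : ℝ) ≤ N := by
            have : m ≤ N := by omega
            exact_mod_cast this
          calc (m : ℝ) * (c' / N) ≤ N * (c' / N) := by gcongr
            _ = c' := by field_simp
  have hxA : ∀ m ≤ M, ‖x m‖ ≤ A * D * P m := by
    intro m hm
    refine (hxY m hm).trans ?_
    have := hpowA m hm
    have := hPpos m hm
    gcongr
  have hwA : ∀ m ≤ M, ‖w m‖ ≤ (C1 * θ ^ m * D + C1 / N * (A * D)) * P m := by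
    intro m hm
    refine (hwY m hm (fun j hj => hxY j (hj.le.trans hm))).trans ?_
    have h1 := hpowA m hm
    have h2 := hPpos m hm
    have h3 : ‖w 0‖ ≤ D := by
      have := norm_nonneg (x 0)
      linarith
    gcongr
  -- the product of the scalars
  have hPi : ∀ m ≤ M, ‖∏ i ∈ range m, lam (tt N i)‖ = P m := fun m _ => by
    simp only [hP, norm_prod]
  have hPiz : ∀ m ≤ M, (∏ i ∈ range m, lam (tt N i)) ≠ 0 := fun m hm => by
    rw [← norm_pos_iff, hPi m hm]; exact hPpos m hm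
  set S : ℕ → ℂ := fun m => ∑ i ∈ range m, ρ (tt N i) / N with hS
  have hSs : ∀ m, S (m + 1) = S m + ρ (tt N m) / N := fun m => by
    simp only [hS, Finset.sum_range_succ]
  have hSn : ∀ m ≤ M, ‖S m‖ ≤ R := by
    intro m hm
    calc ‖S m‖ ≤ ∑ i ∈ range m, ‖ρ (tt N i) / N‖ := norm_sum_le _ _
      _ ≤ ∑ _i ∈ range m, R / N := by
          refine Finset.sum_le_sum fun i hi => ?_
          rw [norm_div, Complex.norm_natCast]
          have := hR _ (hmemI i ((Finset.mem_range.1 hi).le.trans hm))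
          gcongr
      _ = m * (R / N) := by simp
      _ ≤ N * (R / N) := by
          have hmN : (m : ℝ) ≤ N := by
            have : m ≤ N := by omega
            exact_mod_cast this
          gcongr
      _ = R := by field_simp
  have hexpS : ∀ m ≤ M, ‖Complex.exp (S m)‖ ≤ Real.exp R := fun m hm =>
    (Complex.norm_exp_le_exp_norm _).trans (Real.exp_le_exp.2 (hSn m hm))
  have hexpS' : ∀ m ≤ M, ‖Complex.exp (-S m)‖ ≤ Real.exp R := fun m hm => by
    refine (Complex.norm_exp_le_exp_norm _).trans (Real.exp_le_exp.2 ?_)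
    rw [norm_neg]
    exact hSn m hm
  set γ : ℕ → ℂ := fun m => x m / (∏ i ∈ range m, lam (tt N i)) * Complex.exp (-S m) with hγ
  have hstep : ∀ m, m < M → ‖γ (m + 1) - γ m‖ ≤ C2 * D / N ^ 2 + C3 * D / N * θ ^ m := by
    intro m hm
    have hmM : m ≤ M := hm.le
    have hmM1 : m + 1 ≤ M := hm
    have hl0 : lam (tt N m) ≠ 0 := hlam0 _ (hmemI m hmM)
    set er := x (m + 1) - lam (tt N m) * (1 + ρ (tt N m) / N) * x m with her
    have hid : γ (m + 1) - γ m = Complex.exp (-S (m + 1)) *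
        (-(Complex.exp (ρ (tt N m) / N) - 1 - ρ (tt N m) / N) *
          (x m / (∏ i ∈ range m, lam (tt N i))) + er / (∏ i ∈ range (m + 1), lam (tt N i))) := by
      have e1 : Complex.exp (-S m) = Complex.exp (-S (m + 1)) * Complex.exp (ρ (tt N m) / N) := by
        rw [← Complex.exp_add, hSs]
        congr 1
        ring
      simp only [hγ]
      rw [e1, her, Finset.prod_range_succ]
      have h0 := hPiz m hmM
      field_simp
      ring
    have g1 : ‖Complex.exp (ρ (tt N m) / N) - 1 - ρ (tt N m) / N‖ ≤ (R / N) ^ 2 := by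
      have hz : ‖ρ (tt N m) / (N : ℂ)‖ ≤ R / N := by
        rw [norm_div, Complex.norm_natCast]
        have := hR _ (hmemI m hmM)
        gcongr
      refine (Complex.norm_exp_sub_one_sub_id_le (hz.trans hRN)).trans ?_
      gcongr
    have g2 : ‖x m / (∏ i ∈ range m, lam (tt N i))‖ ≤ A * D := by
      rw [norm_div, hPi m hmM, div_le_iff₀ (hPpos m hmM)]
      exact hxA m hmM
    have g3 : ‖er / (∏ i ∈ range (m + 1), lam (tt N i))‖ ≤
        (c / N ^ 2 * (A * D) + c / N * (C1 * θ ^ m * D + C1 / N * (A * D))) / ν := by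
      rw [norm_div, hPi _ hmM1, div_le_div_iff₀ (hPpos _ hmM1) hν0, hPs]
      have k1 := hx m hm
      have k2 := hxA m hmM
      have k3 := hwA m hmM
      have hPm := hPpos m hmM
      have hl := hνle _ (hmemI m hmM)
      have k4 : ‖er‖ ≤ (c / N ^ 2 * (A * D) + c / N * (C1 * θ ^ m * D + C1 / N * (A * D))) *
          P m := by
        calc ‖er‖ ≤ c / N ^ 2 * ‖x m‖ + c / N * ‖w m‖ := k1
          _ ≤ c / N ^ 2 * (A * D * P m) + c / N * ((C1 * θ ^ m * D + C1 / N * (A * D)) * P m) := by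
              gcongr
          _ = _ := by ring
      calc ‖er‖ * ν ≤ (c / N ^ 2 * (A * D) + c / N * (C1 * θ ^ m * D + C1 / N * (A * D))) *
            P m * ‖lam (tt N m)‖ := by gcongr
        _ = _ := by ring
    rw [hid, norm_mul]
    calc ‖Complex.exp (-S (m + 1))‖ * ‖-(Complex.exp (ρ (tt N m) / N) - 1 - ρ (tt N m) / N) *
          (x m / (∏ i ∈ range m, lam (tt N i))) + er / (∏ i ∈ range (m + 1), lam (tt N i))‖
        ≤ Real.exp R * ((R / N) ^ 2 * (A * D) +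
          (c / N ^ 2 * (A * D) + c / N * (C1 * θ ^ m * D + C1 / N * (A * D))) / ν) := by
          refine mul_le_mul (hexpS' _ hmM1) ?_ (norm_nonneg _) (Real.exp_pos _).le
          refine (norm_add_le _ _).trans (add_le_add ?_ g3)
          rw [norm_mul, norm_neg]
          exact mul_le_mul g1 g2 (norm_nonneg _) (by positivity)
      _ = C2 * D / N ^ 2 + C3 * D / N * θ ^ m := by
          rw [hC2, hC3]
          field_simp
          ring
  have hsum : ∀ m ≤ M, ‖γ m - γ 0‖ ≤ C2 * D / N ^ 2 * m + C3 * D / N * ∑ i ∈ range m, θ ^ i := by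
    intro m
    induction m with
    | zero => intro _; simp
    | succ m ih =>
      intro hm
      have h1 := ih (by omega)
      have h2 := hstep m (by omega)
      have h3 := norm_add_le (γ m - γ 0) (γ (m + 1) - γ m)
      rw [show γ m - γ 0 + (γ (m + 1) - γ m) = γ (m + 1) - γ 0 by ring] at h3
      rw [Finset.sum_range_succ]
      push_cast
      have e : C2 * D / N ^ 2 * ((m : ℝ) + 1) + C3 * D / N * (∑ i ∈ range m, θ ^ i + θ ^ m) =
          (C2 * D / N ^ 2 * m + C3 * D / N * ∑ i ∈ range m, θ ^ i) +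
            (C2 * D / N ^ 2 + C3 * D / N * θ ^ m) := by ring
      rw [e]
      linarith
  have hfinal : ∀ m ≤ M, ‖γ m - γ 0‖ ≤ (C2 + C3 / (1 - θ)) / N * D := by
    intro m hm
    refine (hsum m hm).trans ?_
    have h1 : ∑ i ∈ range m, θ ^ i ≤ 1 / (1 - θ) := by
      rw [geom_sum_eq hθ1.ne, ← neg_div_neg_eq, neg_sub, neg_sub]
      have : 0 ≤ θ ^ m := by positivity
      gcongr
      linarith
    have hmN : (m : ℝ) ≤ N := by
      have : m ≤ N := by omega
      exact_mod_cast this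
    calc C2 * D / N ^ 2 * m + C3 * D / N * ∑ i ∈ range m, θ ^ i
        ≤ C2 * D / N ^ 2 * N + C3 * D / N * (1 / (1 - θ)) := by gcongr
      _ = (C2 + C3 / (1 - θ)) / N * D := by field_simp
  intro m hm
  have hPm := hPpos m hm
  refine ⟨?_, ?_, ?_⟩
  · refine (hxA m hm).trans ?_
    have : A ≤ C := by
      have h1 : 0 ≤ C1 * A := by positivity
      have h2 : 0 ≤ Real.exp R * (C2 + C3 / (1 - θ)) := by positivity
      rw [hC]; linarith
    gcongr
  · refine (hwA m hm).trans (mul_le_mul_of_nonneg_right ?_ hPm.le)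
    have h1 : C1 ≤ C := by
      have h1 : 0 ≤ C1 * A := by positivity
      have h2 : 0 ≤ Real.exp R * (C2 + C3 / (1 - θ)) := by positivity
      rw [hC]; linarith
    have h2 : C1 * A ≤ C := by
      have h2 : 0 ≤ Real.exp R * (C2 + C3 / (1 - θ)) := by positivity
      rw [hC]; linarith
    have hθm : 0 ≤ θ ^ m := by positivity
    calc C1 * θ ^ m * D + C1 / N * (A * D) = C1 * (θ ^ m * D) + C1 * A * (D / N) := by ring
      _ ≤ C * (θ ^ m * D) + C * (D / N) := by gcongr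
      _ = _ := by ring
  · have h1 := hfinal m hm
    have h2 : x m / (∏ i ∈ range m, lam (tt N i)) - x 0 * Complex.exp (S m) =
        (γ m - γ 0) * Complex.exp (S m) := by
      simp only [hγ]
      rw [sub_mul, mul_assoc, ← Complex.exp_add, neg_add_cancel, Complex.exp_zero, mul_one]
      simp [hS]
    show ‖x m / (∏ i ∈ range m, lam (tt N i)) - x 0 * Complex.exp (S m)‖ ≤ _
    rw [h2, norm_mul]
    calc ‖γ m - γ 0‖ * ‖Complex.exp (S m)‖ ≤ ((C2 + C3 / (1 - θ)) / N * D) * Real.exp R := by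
          refine mul_le_mul h1 (hexpS m hm) (norm_nonneg _) (by positivity)
      _ = (Real.exp R * (C2 + C3 / (1 - θ))) / N * D := by ring
      _ ≤ C / N * D := by
          have : Real.exp R * (C2 + C3 / (1 - θ)) ≤ C := by
            have h1 : 0 ≤ C1 * A := by positivity
            rw [hC]; linarith
          gcongr

end Pool.Agent.Kashaev.KV.DynAux
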