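import Pool.Agent.KSM.P01

/-!
Quadratic Gauss sums with a linear weight: the vector of the Kashaev invariant at `k = N - 1`.
-/

open Finset Real Filter Topology

namespace Pool.Agent.Kashaev.KV

namespace Gs

lemma ee_add (s t : ℝ) : ee (s + t) = ee s * ee t := by
  unfold ee
  rw [← Complex.exp_add]
  congr 1
  push_cast
  ring

lemma ee_zero : ee 0 = 1 := by simp [ee]

lemma ee_neg (t : ℝ) : ee (-t) = (ee t)⁻¹ := by
  unfold ee
  rw [← Complex.exp_neg]
  congr 1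
  push_cast
  ring

lemma ee_norm (t : ℝ) : ‖ee t‖ = 1 := by
  unfold ee
  have : (2 * π * Complex.I * t : ℂ) = ((2 * π * t : ℝ) : ℂ) * Complex.I := by
    push_cast
    ring
  rw [this, Complex.norm_exp_ofReal_mul_I]

lemma ee_ne_zero (t : ℝ) : ee t ≠ 0 := Complex.exp_ne_zero _

lemma ee_int (n : ℤ) : ee n = 1 := by
  unfold ee
  rw [Complex.exp_eq_one_iff]
  exact ⟨n, by push_cast; ring⟩

lemma ee_add_int (t : ℝ) (n : ℤ) : ee (t + n) = ee t := by
  rw [ee_add, ee_int, mul_one]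

lemma ee_nat_mul (n : ℕ) (t : ℝ) : ee (n * t) = ee t ^ n := by
  unfold ee
  rw [← Complex.exp_nat_mul]
  congr 1
  push_cast
  ring

lemma ee_congr {s t : ℝ} (n : ℤ) (h : s = t + n) : ee s = ee t := by
  rw [h, ee_add_int]

lemma ee_eq_one_iff (t : ℝ) : ee t = 1 ↔ ∃ n : ℤ, t = n := by
  unfold ee
  rw [Complex.exp_eq_one_iff]
  constructor
  · rintro ⟨n, hn⟩
    refine ⟨n, ?_⟩
    have h2 : (2 * π * Complex.I : ℂ) ≠ 0 := Complex.two_pi_I_ne_zero
    have h3 : (t : ℂ) = n := by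
      apply mul_left_cancel₀ h2
      rw [hn]
      ring
    exact_mod_cast h3
  · rintro ⟨n, hn⟩
    exact ⟨n, by rw [hn]; push_cast; ring⟩

lemma zeta_pow (N m : ℕ) : zeta N ^ m = ee (m / N) := by
  unfold zeta ee
  rw [← Complex.exp_nat_mul]
  congr 1
  push_cast
  ring

lemma ee_cont : Continuous ee := by
  unfold ee
  fun_prop

lemma ee_conj (t : ℝ) : (starRingEnd ℂ) (ee t) = ee (-t) := by
  rw [ee_neg, conj_eq_inv (ee_norm t)]

/-- orthogonality of the characters modulo `M` -/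
lemma ee_orth {M : ℕ} (hM : 1 ≤ M) (k : ℤ) :
    ∑ m ∈ range M, ee (m * k / M) = if (M : ℤ) ∣ k then (M : ℂ) else 0 := by
  have hM0 : (M : ℝ) ≠ 0 := by positivity
  have h1 : ∀ m : ℕ, ee (m * k / M) = ee (k / M) ^ m := by
    intro m
    rw [← ee_nat_mul]
    congr 1
    ring
  simp_rw [h1]
  split_ifs with h
  · obtain ⟨c, rfl⟩ := h
    have : ee (((M * c : ℤ) : ℝ) / M) = 1 := by
      rw [ee_eq_one_iff]
      exact ⟨c, by push_cast; field_simp⟩
    rw [this]
    simp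
  · have h2 : ee (k / M) ≠ 1 := by
      intro h3
      rw [ee_eq_one_iff] at h3
      obtain ⟨c, hc⟩ := h3
      apply h
      refine ⟨c, ?_⟩
      rw [div_eq_iff hM0] at hc
      have : (k : ℝ) = ((M * c : ℤ) : ℝ) := by
        rw [hc]
        push_cast
        ring
      exact_mod_cast this
    rw [geom_sum_eq h2, ← ee_nat_mul]
    have : ee (M * (k / M)) = 1 := by
      rw [ee_eq_one_iff]
      exact ⟨k, by field_simp⟩
    rw [this]
    simp

lemma periodic_sum_nat {M : ℕ} (g : ℤ → ℂ) (hg : ∀ m, g (m + M) = g m) (a : ℕ) :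
    ∑ m ∈ range M, g (m + a) = ∑ m ∈ range M, g m := by
  induction a with
  | zero => simp
  | succ a ih =>
    rw [← ih]
    have h1 := Finset.sum_range_succ (fun m : ℕ => g (m + a)) M
    have h2 := Finset.sum_range_succ' (fun m : ℕ => g (m + a)) M
    rw [h1] at h2
    have h3 : g ((M : ℤ) + a) = g (((0 : ℕ) : ℤ) + a) := by
      rw [show (M : ℤ) + a = (((0 : ℕ) : ℤ) + a) + M by push_cast; ring, hg]
    rw [h3] at h2
    have h4 := add_right_cancel h2
    rw [h4]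
    refine Finset.sum_congr rfl fun m _ => ?_
    congr 1
    push_cast
    ring

lemma periodic_sum {M : ℕ} (g : ℤ → ℂ) (hg : ∀ m, g (m + M) = g m) (a : ℤ) :
    ∑ m ∈ range M, g (m + a) = ∑ m ∈ range M, g m := by
  obtain ⟨n, rfl | rfl⟩ := a.eq_nat_or_neg
  · exact periodic_sum_nat g hg n
  · have := periodic_sum_nat (fun m => g (m + (-(n : ℤ))))
      (fun m => by
        show g (m + M + -(n : ℤ)) = g (m + -(n : ℤ))
        rw [show m + (M : ℤ) + -(n : ℤ) = (m + -(n : ℤ)) + M by ring, hg]) n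
    rw [← this]
    refine Finset.sum_congr rfl fun m _ => ?_
    congr 1
    ring

/-- the classical quadratic Gauss sum -/
noncomputable def gam (M : ℕ) : ℂ := ∑ m ∈ range M, ee ((m : ℝ) ^ 2 / (2 * M))

lemma quad_periodic {M : ℕ} (hM : 1 ≤ M) (he : Even M) (m : ℤ) :
    ee ((((m + M : ℤ) : ℝ)) ^ 2 / (2 * M)) = ee ((m : ℝ) ^ 2 / (2 * M)) := by
  have hM0 : (M : ℝ) ≠ 0 := by positivity
  obtain ⟨r, hr⟩ := he
  apply ee_congr (m + r)
  have : (M : ℝ) = 2 * r := by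
    rw [hr]
    push_cast
    ring
  push_cast
  field_simp
  rw [this]
  ring

lemma gam_norm {M : ℕ} (hM : 1 ≤ M) (he : Even M) : ‖gam M‖ ^ 2 = M := by
  have hM0 : (M : ℝ) ≠ 0 := by positivity
  have key : gam M * (starRingEnd ℂ) (gam M) = M := by
    have h1 : (starRingEnd ℂ) (gam M) = ∑ m ∈ range M, ee (-((m : ℝ) ^ 2 / (2 * M))) := by
      unfold gam
      rw [map_sum]
      refine Finset.sum_congr rfl fun m _ => ee_conj _
    rw [h1, Finset.mul_sum]
    have h2 : ∀ m ∈ range M, gam M * ee (-((m : ℝ) ^ 2 / (2 * M))) =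
        ∑ d ∈ range M, ee ((d : ℝ) ^ 2 / (2 * M)) * ee (m * (d : ℤ) / M) := by
      intro m _
      have h3 : gam M = ∑ d ∈ range M, ee ((((d + m : ℤ) : ℝ)) ^ 2 / (2 * M)) := by
        have := periodic_sum (M := M) (fun m : ℤ => ee ((m : ℝ) ^ 2 / (2 * M)))
          (fun m => quad_periodic hM he m) m
        rw [this]
        unfold gam
        simp
      rw [h3, Finset.sum_mul]
      refine Finset.sum_congr rfl fun d _ => ?_
      rw [← ee_add, ← ee_add]
      congr 1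
      push_cast
      field_simp
      ring
    rw [Finset.sum_congr rfl h2, Finset.sum_comm]
    have h4 : ∀ d ∈ range M, ∑ m ∈ range M, ee ((d : ℝ) ^ 2 / (2 * M)) * ee (m * (d : ℤ) / M) =
        if d = 0 then (M : ℂ) else 0 := by
      intro d hd
      rw [← Finset.mul_sum, ee_orth hM]
      have hd' := Finset.mem_range.1 hd
      by_cases h0 : d = 0
      · subst h0
        simp [ee_zero]
      · have : ¬ ((M : ℤ) ∣ (d : ℤ)) := by
          intro h
          have h5 := Int.natCast_dvd_natCast.1 h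
          exact absurd (Nat.le_of_dvd (Nat.pos_of_ne_zero h0) h5) (by omega)
        simp [this, h0]
    rw [Finset.sum_congr rfl h4]
    simp [show M ≠ 0 by omega]
  have h5 : ((‖gam M‖ ^ 2 : ℝ) : ℂ) = M := by
    rw [← key, Complex.mul_conj, Complex.normSq_eq_norm_sq]
  exact_mod_cast h5


/-- the twisted Gauss sums -/
noncomputable def ZZ (p N : ℕ) (k : ℤ) : ℂ := ∑ l ∈ range N, ee ((p * (l : ℝ) ^ 2 + k * l) / N)

/-- the main term of the twisted Gauss sum -/
noncomputable def UU (p N : ℕ) (k : ℤ) : ℂ :=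
  (∑ μ ∈ range (2 * p), ee (μ * k / (2 * p : ℕ)) * ee (-((μ : ℝ) ^ 2 * N / (4 * p)))) *
    (gam (2 * p * N) / (2 * p))

lemma UU_eq {p N : ℕ} (hp : 1 ≤ p) (hN : 1 ≤ N) (k : ℤ) :
    UU p N k = ee ((k : ℝ) ^ 2 / (4 * p * N)) * ZZ p N k := by
  have hp0 : (p : ℝ) ≠ 0 := by positivity
  have hpc : (p : ℂ) ≠ 0 := by exact_mod_cast (show p ≠ 0 by omega)
  have hN0 : (N : ℝ) ≠ 0 := by positivity
  have hM : 1 ≤ 2 * p * N := by
    have := Nat.mul_pos hp hN
    nlinarith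
  have he : Even (2 * p * N) := ⟨p * N, by ring⟩
  have h1 : ∀ μ ∈ range (2 * p), ee (μ * k / (2 * p : ℕ)) * ee (-((μ : ℝ) ^ 2 * N / (4 * p))) *
      gam (2 * p * N) = ∑ m ∈ range (2 * p * N), ee ((m : ℝ) ^ 2 / (2 * (2 * p * N : ℕ))) *
        ee (μ * (k - m : ℤ) / (2 * p : ℕ)) := by
    intro μ _
    have h2 : gam (2 * p * N) = ∑ m ∈ range (2 * p * N),
        ee ((((m + (-(μ * N : ℤ)) : ℤ) : ℝ)) ^ 2 / (2 * (2 * p * N : ℕ))) := by
      have := periodic_sum (M := 2 * p * N) (fun m : ℤ => ee ((m : ℝ) ^ 2 / (2 * (2 * p * N : ℕ))))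
          (fun m => quad_periodic hM he m) (-(μ * N : ℤ))
      rw [this]
      unfold gam
      simp
    rw [h2, Finset.mul_sum]
    refine Finset.sum_congr rfl fun m _ => ?_
    rw [← ee_add, ← ee_add, ← ee_add]
    congr 1
    push_cast
    field_simp
    ring
  have h3 : (∑ μ ∈ range (2 * p), ee (μ * k / (2 * p : ℕ)) * ee (-((μ : ℝ) ^ 2 * N / (4 * p)))) *
      gam (2 * p * N) = ∑ m ∈ range (2 * p * N), ee ((m : ℝ) ^ 2 / (2 * (2 * p * N : ℕ))) *
        (if ((2 * p : ℕ) : ℤ) ∣ (k - m) then ((2 * p : ℕ) : ℂ) else 0) := by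
    rw [Finset.sum_mul, Finset.sum_congr rfl h1, Finset.sum_comm]
    refine Finset.sum_congr rfl fun m _ => ?_
    rw [← Finset.mul_sum, ee_orth (by omega)]
  have h4 : ∑ m ∈ range (2 * p * N), ee ((m : ℝ) ^ 2 / (2 * (2 * p * N : ℕ))) *
        (if ((2 * p : ℕ) : ℤ) ∣ (k - m) then ((2 * p : ℕ) : ℂ) else 0) =
      ∑ m ∈ range (2 * p * N), ee (((m + k : ℤ) : ℝ) ^ 2 / (2 * (2 * p * N : ℕ))) *
        (if ((2 * p : ℕ) : ℤ) ∣ (m : ℤ) then ((2 * p : ℕ) : ℂ) else 0) := by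
    have := periodic_sum (M := 2 * p * N)
      (fun m : ℤ => ee ((m : ℝ) ^ 2 / (2 * (2 * p * N : ℕ))) *
        (if ((2 * p : ℕ) : ℤ) ∣ (k - m) then ((2 * p : ℕ) : ℂ) else 0)) (fun m => by
          have h5 := quad_periodic hM he m
          have h6 : (((2 * p : ℕ) : ℤ) ∣ (k - (m + (2 * p * N : ℕ)))) ↔
              (((2 * p : ℕ) : ℤ) ∣ (k - m)) := by
            rw [show k - (m + ((2 * p * N : ℕ) : ℤ)) = (k - m) - ((2 * p : ℕ) : ℤ) * N by
              push_cast; ring]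
            exact dvd_sub_left (Dvd.intro _ rfl)
          simp only [h6]
          rw [h5]) k
    have h7 : ∀ m : ℕ, (((2 * p : ℕ) : ℤ) ∣ (k - (m + k : ℤ))) ↔ (((2 * p : ℕ) : ℤ) ∣ (m : ℤ)) := by
      intro m
      rw [show k - ((m : ℤ) + k) = -(m : ℤ) by ring, dvd_neg]
    simp only [h7, Int.cast_natCast] at this
    rw [← this]
  have h8 : ∑ m ∈ range (2 * p * N), ee (((m + k : ℤ) : ℝ) ^ 2 / (2 * (2 * p * N : ℕ))) *
        (if ((2 * p : ℕ) : ℤ) ∣ (m : ℤ) then ((2 * p : ℕ) : ℂ) else 0) =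
      ∑ l ∈ range N, ee ((((2 * p * l : ℕ) + k : ℤ) : ℝ) ^ 2 / (2 * (2 * p * N : ℕ))) * (2 * p) := by
    have h9 : (range (2 * p * N)).filter (fun m : ℕ => ((2 * p : ℕ) : ℤ) ∣ (m : ℤ)) =
        (range N).image (fun l => 2 * p * l) := by
      ext m
      simp only [Finset.mem_filter, Finset.mem_range, Finset.mem_image]
      constructor
      · rintro ⟨h10, h11⟩
        obtain ⟨c, rfl⟩ := Int.natCast_dvd_natCast.1 h11
        exact ⟨c, lt_of_mul_lt_mul_left h10 (Nat.zero_le _), rfl⟩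
      · rintro ⟨c, hc, rfl⟩
        exact ⟨Nat.mul_lt_mul_of_pos_left hc (by omega), Int.natCast_dvd_natCast.2 ⟨c, rfl⟩⟩
    simp_rw [mul_ite, mul_zero]
    rw [← Finset.sum_filter, h9, Finset.sum_image]
    · refine Finset.sum_congr rfl fun l _ => ?_
      push_cast
      ring
    · intro a _ b _ hab
      exact Nat.eq_of_mul_eq_mul_left (by omega) hab
  unfold UU ZZ
  rw [mul_div_assoc', h3, h4, h8, ← Finset.sum_mul, mul_div_assoc, div_self (by simpa using hpc),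
    mul_one, Finset.mul_sum]
  refine Finset.sum_congr rfl fun l _ => ?_
  rw [← ee_add]
  congr 1
  push_cast
  field_simp
  ring

lemma gam_norm' {p N : ℕ} (hp : 1 ≤ p) (hN : 1 ≤ N) :
    ‖gam (2 * p * N)‖ = √(2 * p * N) := by
  have hM : 1 ≤ 2 * p * N := by
    have := Nat.mul_pos hp hN
    nlinarith
  have he : Even (2 * p * N) := ⟨p * N, by ring⟩
  have h1 := gam_norm hM he
  rw [← Real.sqrt_sq (norm_nonneg (gam (2 * p * N))), h1]
  push_cast
  rfl

lemma UU_norm {p N : ℕ} (hp : 1 ≤ p) (hN : 1 ≤ N) (k : ℤ) :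
    ‖UU p N k‖ ≤ √(2 * p * N) := by
  have hM : 1 ≤ 2 * p * N := by
    have := Nat.mul_pos hp hN
    nlinarith
  have he : Even (2 * p * N) := ⟨p * N, by ring⟩
  have h1 := gam_norm hM he
  have h2 : ‖gam (2 * p * N)‖ = √(2 * p * N) := by
    rw [← Real.sqrt_sq (norm_nonneg (gam (2 * p * N))), h1]
    push_cast
    rfl
  have h3 : ‖(∑ μ ∈ range (2 * p), ee (μ * k / (2 * p : ℕ)) *
      ee (-((μ : ℝ) ^ 2 * N / (4 * p))))‖ ≤ 2 * p := by
    refine (norm_sum_le _ _).trans ?_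
    simp [ee_norm]
  have hp0 : (0 : ℝ) < p := by positivity
  unfold UU
  rw [norm_mul, norm_div, h2]
  have h4 : ‖(2 * p : ℂ)‖ = 2 * p := by simp
  rw [h4]
  calc _ ≤ (2 * p : ℝ) * (√(2 * p * N) / (2 * p)) := by gcongr
    _ = √(2 * p * N) := by field_simp


lemma fourier_eq_ee (k : ℤ) (x : ℝ) : (fourier k (x : UnitAddCircle) : ℂ) = ee (k * x) := by
  rw [fourier_coe_apply]
  unfold ee
  congr 1
  push_cast
  ring

lemma fourierCoeffOn_bound {f : ℝ → ℂ} (hf : Continuous f) :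
    ∃ C : ℝ, ∀ k : ℤ, ‖fourierCoeffOn (zero_lt_one' ℝ) f k‖ ≤ C := by
  obtain ⟨C, hC⟩ := (isCompact_Icc (a := (0 : ℝ)) (b := 1)).exists_bound_of_continuousOn
    hf.continuousOn
  refine ⟨C, fun k => ?_⟩
  rw [fourierCoeffOn_eq_integral]
  have h1 : ‖∫ x in (0 : ℝ)..1, fourier (-k) (x : AddCircle ((1 : ℝ) - 0)) • f x‖ ≤
      C * |1 - 0| := by
    apply intervalIntegral.norm_integral_le_of_norm_le_const
    intro x hx
    rw [Set.uIoc_of_le zero_le_one] at hx
    rw [norm_smul]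
    have h2 : ‖(fourier (-k) (x : AddCircle ((1 : ℝ) - 0)) : ℂ)‖ = 1 := by
      rw [fourier_apply]
      exact Circle.norm_coe _
    rw [h2, one_mul]
    exact hC x ⟨hx.1.le, hx.2⟩
  simpa using h1

/-- Absolutely convergent Fourier series of a twice differentiable function. -/
lemma fourier_exp {f : ℝ → ℂ} (hf : ContDiff ℝ 2 f) (h01 : f 0 = f 1) :
    ∃ c : ℤ → ℂ, Summable (fun k => ‖c k‖) ∧ ∀ b ∈ Set.Icc (0 : ℝ) 1,
      HasSum (fun k : ℤ => c k * ee (k * b)) (f b) := by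
  have hf1 : ContDiff ℝ 1 (deriv f) := by
    have : ContDiff ℝ (1 + 1) f := by
      norm_num
      exact hf
    exact ((contDiff_succ_iff_deriv (n := 1)).1 this).2.2
  have hf2 : Continuous (deriv (deriv f)) := (hf1.continuous_deriv le_rfl)
  have hd1 : ∀ x, HasDerivAt f (deriv f x) x := fun x =>
    (hf.differentiable (by norm_num) x).hasDerivAt
  have hd2 : ∀ x, HasDerivAt (deriv f) (deriv (deriv f) x) x := fun x =>
    (hf1.differentiable (by norm_num) x).hasDerivAt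
  obtain ⟨C, hC⟩ := fourierCoeffOn_bound hf2
  set c : ℤ → ℂ := fun k => fourierCoeffOn (zero_lt_one' ℝ) f k with hc
  have hbound : ∀ k : ℤ, k ≠ 0 → ‖c k‖ ≤ (‖deriv f 1 - deriv f 0‖ + C) * (1 / (k : ℝ) ^ 2) := by
    intro k hk
    have e1 := fourierCoeffOn_of_hasDerivAt (zero_lt_one' ℝ) hk (fun x _ => hd1 x)
      (hf1.continuous.intervalIntegrable 0 1)
    have e2 := fourierCoeffOn_of_hasDerivAt (zero_lt_one' ℝ) hk (fun x _ => hd2 x)
      (hf2.intervalIntegrable 0 1)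
    rw [hc]
    simp only
    rw [e1, e2, h01]
    have hk1 : (1 : ℝ) ≤ |(k : ℝ)| := by
      have := Int.one_le_abs hk
      exact_mod_cast this
    have hn : ‖(1 : ℂ) / (-2 * π * Complex.I * k)‖ ≤ 1 / |(k : ℝ)| := by
      rw [norm_div, norm_one]
      apply one_div_le_one_div_of_le (by linarith)
      simp only [norm_mul, norm_neg, Complex.norm_ofNat, Complex.norm_real, Complex.norm_I, mul_one,
        Complex.norm_intCast]
      have : (1 : ℝ) ≤ 2 * ‖π‖ := by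
        rw [Real.norm_of_nonneg pi_pos.le]
        linarith [pi_gt_three]
      nlinarith
    have hF : ‖(fourier (-k) ((0 : ℝ) : AddCircle ((1 : ℝ) - 0)) : ℂ)‖ = 1 := by
      rw [fourier_apply]
      exact Circle.norm_coe _
    have key : ‖(fourier (-k) ((0 : ℝ) : AddCircle ((1 : ℝ) - 0)) : ℂ) * (deriv f 1 - deriv f 0) -
        ((1 : ℝ) - (0 : ℝ) : ℂ) * fourierCoeffOn (zero_lt_one' ℝ) (deriv (deriv f)) k‖ ≤
        ‖deriv f 1 - deriv f 0‖ + C := by
      refine (norm_sub_le _ _).trans ?_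
      rw [norm_mul, norm_mul, hF]
      have := hC k
      simpa using this
    have hs : (fourier (-k) ((0 : ℝ) : AddCircle ((1 : ℝ) - 0)) : ℂ) * (f 1 - f 1) -
        ((1 : ℝ) - (0 : ℝ) : ℂ) * (1 / (-2 * π * Complex.I * k) *
          ((fourier (-k) ((0 : ℝ) : AddCircle ((1 : ℝ) - 0)) : ℂ) * (deriv f 1 - deriv f 0) -
          ((1 : ℝ) - (0 : ℝ) : ℂ) * fourierCoeffOn (zero_lt_one' ℝ) (deriv (deriv f)) k)) =
        - (1 / (-2 * π * Complex.I * k) *
          ((fourier (-k) ((0 : ℝ) : AddCircle ((1 : ℝ) - 0)) : ℂ) * (deriv f 1 - deriv f 0) -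
          ((1 : ℝ) - (0 : ℝ) : ℂ) * fourierCoeffOn (zero_lt_one' ℝ) (deriv (deriv f)) k)) := by
      push_cast
      ring
    rw [hs, norm_mul, norm_neg, norm_mul]
    calc _ ≤ (1 / |(k : ℝ)|) * ((1 / |(k : ℝ)|) * (‖deriv f 1 - deriv f 0‖ + C)) := by
          gcongr
      _ = _ := by
        rw [show (k : ℝ) ^ 2 = |(k : ℝ)| ^ 2 by rw [sq_abs]]
        field_simp
  have hsum : Summable (fun k => ‖c k‖) := by
    have h1 : Summable (fun k : ℤ => (‖deriv f 1 - deriv f 0‖ + C) * (1 / (k : ℝ) ^ 2)) :=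
      (Real.summable_one_div_int_pow.2 (by norm_num)).mul_left _
    refine Summable.of_norm_bounded_eventually h1 ?_
    filter_upwards [Filter.eventually_cofinite_ne (0 : ℤ)] with k hk
    rw [norm_norm]
    exact hbound k hk
  refine ⟨c, hsum, ?_⟩
  let F : C(UnitAddCircle, ℂ) := ⟨AddCircle.liftIco 1 0 f,
    AddCircle.liftIco_zero_continuous h01 hf.continuous.continuousOn⟩
  have hco : ∀ k, fourierCoeff F k = c k := by
    intro k
    rw [ContinuousMap.coe_mk, fourierCoeff_liftIco_eq]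
    simp only [hc]
    congr 1
    norm_num
  have hFs : Summable (fourierCoeff F) := by
    apply Summable.of_norm
    refine hsum.congr fun k => ?_
    rw [hco]
  have hmain : ∀ b ∈ Set.Ico (0 : ℝ) 1, HasSum (fun k : ℤ => c k * ee (k * b)) (f b) := by
    intro b hb
    have h1 := has_pointwise_sum_fourier_series_of_summable hFs (b : UnitAddCircle)
    have h2 : F (b : UnitAddCircle) = f b := by
      show AddCircle.liftIco 1 0 f b = f b
      rw [AddCircle.liftIco_coe_apply]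
      simpa using hb
    rw [h2] at h1
    refine h1.congr_fun ?_
    intro k
    rw [smul_eq_mul, hco, fourier_eq_ee]
  intro b hb
  rcases eq_or_lt_of_le hb.2 with h | h
  · rw [h, ← h01]
    have h0 := hmain 0 ⟨le_rfl, one_pos⟩
    refine h0.congr_fun ?_
    intro k
    rw [mul_zero, mul_one, ee_zero, ee_int]
  · exact hmain b ⟨hb.1, h⟩


/-- the sum of a function against the quadratic phase -/
noncomputable def TT (p N : ℕ) (f : ℝ → ℂ) : ℂ :=
  ∑ l ∈ range N, f (l / N) * ee (p * (l : ℝ) ^ 2 / N)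

/-- its main term -/
noncomputable def MM (p N : ℕ) (f : ℝ → ℂ) : ℂ :=
  (∑ μ ∈ range (2 * p), f (μ / (2 * p : ℕ)) * ee (-((μ : ℝ) ^ 2 * N / (4 * p)))) *
    (gam (2 * p * N) / (2 * p))

lemma TT_hasSum {p N : ℕ} (hN : 1 ≤ N) {f : ℝ → ℂ} {c : ℤ → ℂ}
    (hc : ∀ b ∈ Set.Icc (0 : ℝ) 1, HasSum (fun k : ℤ => c k * ee (k * b)) (f b)) :
    HasSum (fun k : ℤ => c k * ZZ p N k) (TT p N f) := by
  have hN0 : (0 : ℝ) < N := by positivity
  unfold TT ZZ
  have h1 : ∀ l ∈ range N, HasSum (fun k : ℤ => c k * ee (k * (l / N)) * ee (p * (l : ℝ) ^ 2 / N))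
      (f (l / N) * ee (p * (l : ℝ) ^ 2 / N)) := by
    intro l hl
    apply HasSum.mul_right
    apply hc
    have : (l : ℝ) < N := by exact_mod_cast Finset.mem_range.1 hl
    exact ⟨by positivity, by rw [div_le_one hN0]; exact this.le⟩
  refine (hasSum_sum h1).congr_fun ?_
  intro k
  rw [Finset.mul_sum]
  refine Finset.sum_congr rfl fun l _ => ?_
  rw [mul_assoc, ← ee_add]
  congr 2
  field_simp
  ring

lemma MM_hasSum {p N : ℕ} (hp : 1 ≤ p) {f : ℝ → ℂ} {c : ℤ → ℂ}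
    (hc : ∀ b ∈ Set.Icc (0 : ℝ) 1, HasSum (fun k : ℤ => c k * ee (k * b)) (f b)) :
    HasSum (fun k : ℤ => c k * UU p N k) (MM p N f) := by
  have hp0 : (0 : ℝ) < (2 * p : ℕ) := by positivity
  unfold MM UU
  have h1 : ∀ μ ∈ range (2 * p), HasSum (fun k : ℤ => c k * ee (k * (μ / (2 * p : ℕ))) *
      ee (-((μ : ℝ) ^ 2 * N / (4 * p))))
      (f (μ / (2 * p : ℕ)) * ee (-((μ : ℝ) ^ 2 * N / (4 * p)))) := by
    intro l hl
    apply HasSum.mul_right
    apply hc
    have : (l : ℝ) < (2 * p : ℕ) := by exact_mod_cast Finset.mem_range.1 hl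
    exact ⟨by positivity, by rw [div_le_one hp0]; exact this.le⟩
  refine ((hasSum_sum h1).mul_right _).congr_fun ?_
  intro k
  rw [← mul_assoc, Finset.mul_sum]
  congr 1
  refine Finset.sum_congr rfl fun l _ => ?_
  rw [← mul_assoc]
  congr 3
  ring

lemma ZZ_eq {p N : ℕ} (hp : 1 ≤ p) (hN : 1 ≤ N) (k : ℤ) :
    ZZ p N k = ee (-((k : ℝ) ^ 2 / (4 * p * N))) * UU p N k := by
  rw [UU_eq hp hN, ← mul_assoc, ← ee_add, neg_add_cancel, ee_zero, one_mul]

lemma ZZ_norm {p N : ℕ} (hp : 1 ≤ p) (hN : 1 ≤ N) (k : ℤ) :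
    ‖ZZ p N k‖ ≤ √(2 * p * N) := by
  rw [ZZ_eq hp hN, norm_mul, ee_norm, one_mul]
  exact UU_norm hp hN k

lemma TT_norm {p N : ℕ} (hp : 1 ≤ p) (hN : 1 ≤ N) {f : ℝ → ℂ} {c : ℤ → ℂ}
    (hs : Summable fun k => ‖c k‖)
    (hc : ∀ b ∈ Set.Icc (0 : ℝ) 1, HasSum (fun k : ℤ => c k * ee (k * b)) (f b)) :
    ‖TT p N f‖ ≤ √(2 * p * N) * ∑' k, ‖c k‖ := by
  rw [← (TT_hasSum hN hc).tsum_eq, ← tsum_mul_left]
  refine tsum_of_norm_bounded (hs.mul_left _).hasSum ?_
  intro k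
  rw [norm_mul, mul_comm]
  gcongr
  exact ZZ_norm hp hN k

/-- the relative error -/
noncomputable def er (p : ℕ) (c : ℤ → ℂ) (N : ℕ) : ℝ :=
  ∑' k : ℤ, ‖c k‖ * ‖ee (-((k : ℝ) ^ 2 / (4 * p * N))) - 1‖

lemma er_summable (p : ℕ) {c : ℤ → ℂ} (hs : Summable fun k => ‖c k‖) (N : ℕ) :
    Summable fun k : ℤ => ‖c k‖ * ‖ee (-((k : ℝ) ^ 2 / (4 * p * N))) - 1‖ := by
  refine Summable.of_nonneg_of_le (fun k => by positivity) (fun k => ?_) (hs.mul_right 2)
  gcongr
  refine (norm_sub_le _ _).trans ?_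
  rw [ee_norm, norm_one]
  norm_num

lemma er_tendsto {p : ℕ} (hp : 1 ≤ p) {c : ℤ → ℂ} (hs : Summable fun k => ‖c k‖) :
    Tendsto (er p c) atTop (𝓝 0) := by
  have h0 : (∑' k : ℤ, (0 : ℝ)) = 0 := tsum_zero
  rw [← h0]
  unfold er
  refine tendsto_tsum_of_dominated_convergence (bound := fun k => ‖c k‖ * 2) (hs.mul_right 2) ?_ ?_
  · intro k
    have h1 : Tendsto (fun N : ℕ => -((k : ℝ) ^ 2 / (4 * p * N))) atTop (𝓝 (-0)) := by
      apply Tendsto.neg
      apply Tendsto.div_atTop tendsto_const_nhds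
      apply Tendsto.const_mul_atTop (by positivity)
      exact tendsto_natCast_atTop_atTop
    rw [neg_zero] at h1
    have h2 : Tendsto (fun N : ℕ => ee (-((k : ℝ) ^ 2 / (4 * p * N)))) atTop (𝓝 (ee 0)) :=
      (ee_cont.tendsto 0).comp h1
    rw [ee_zero] at h2
    have h3 : Tendsto (fun N : ℕ => ‖c k‖ * ‖ee (-((k : ℝ) ^ 2 / (4 * p * N))) - 1‖) atTop
        (𝓝 (‖c k‖ * ‖(1 : ℂ) - 1‖)) := (h2.sub_const 1).norm.const_mul _
    simpa using h3
  · filter_upwards with N k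
    rw [Real.norm_of_nonneg (by positivity)]
    gcongr
    refine (norm_sub_le _ _).trans ?_
    rw [ee_norm, norm_one]
    norm_num

lemma TT_sub_MM {p N : ℕ} (hp : 1 ≤ p) (hN : 1 ≤ N) {f : ℝ → ℂ} {c : ℤ → ℂ}
    (hs : Summable fun k => ‖c k‖)
    (hc : ∀ b ∈ Set.Icc (0 : ℝ) 1, HasSum (fun k : ℤ => c k * ee (k * b)) (f b)) :
    ‖TT p N f - MM p N f‖ ≤ √(2 * p * N) * er p c N := by
  have h1 := (TT_hasSum (p := p) hN hc).sub (MM_hasSum (N := N) hp hc)
  rw [← h1.tsum_eq]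
  unfold er
  rw [← tsum_mul_left]
  refine tsum_of_norm_bounded ((er_summable p hs N).mul_left _).hasSum ?_
  intro k
  rw [ZZ_eq hp hN, show c k * (ee (-((k : ℝ) ^ 2 / (4 * p * N))) * UU p N k) - c k * UU p N k =
    c k * (ee (-((k : ℝ) ^ 2 / (4 * p * N))) - 1) * UU p N k by ring, norm_mul, norm_mul, mul_comm]
  gcongr
  exact UU_norm hp hN k

/-- the symmetrized weight -/
noncomputable def gw (p n : ℕ) (b : ℝ) : ℂ :=
  Complex.I * p * (1 - 2 * b) * (Real.sin (2 * π * n * b) : ℝ)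

lemma ee_sub_conj (t : ℝ) : ee t - ee (-t) = 2 * Complex.I * (Real.sin (2 * π * t) : ℝ) := by
  unfold ee
  have h1 : (2 * π * Complex.I * t : ℂ) = ((2 * π * t : ℝ) : ℂ) * Complex.I := by
    push_cast; ring
  have h2 : (2 * π * Complex.I * (-t : ℝ) : ℂ) = -((2 * π * t : ℝ) : ℂ) * Complex.I := by
    push_cast; ring
  rw [h1, h2, Complex.exp_mul_I, Complex.exp_mul_I, Complex.cos_neg, Complex.sin_neg,
    Complex.ofReal_sin]
  ring

lemma sN_eq {p N : ℕ} (hN : 1 ≤ N) (n : ℕ) :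
    sN p N n = p + TT p N (gw p n) - n / N * ZZ p N n := by
  have hN0 : (N : ℝ) ≠ 0 := by positivity
  have hNc : (N : ℂ) ≠ 0 := by exact_mod_cast (show N ≠ 0 by omega)
  set a : ℕ → ℂ := fun l => p * (1 - 2 * l / N) * ee ((p * (l : ℝ) ^ 2 + n * l) / N) with ha
  have h1 : sN p N n = ∑ l ∈ range N, a l - n / N * ZZ p N n := by
    unfold sN ZZ
    rw [Finset.mul_sum, ← Finset.sum_sub_distrib]
    refine Finset.sum_congr rfl fun l _ => ?_
    rw [zeta_pow, ha]
    simp only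
    have : (((p * l ^ 2 + n * l : ℕ) : ℝ) / N) = (p * (l : ℝ) ^ 2 + n * l) / N := by
      push_cast; ring
    rw [this]
    push_cast
    field_simp
    ring
  have h2 : ∑ l ∈ range N, a l = p + TT p N (gw p n) := by
    obtain ⟨K, rfl⟩ : ∃ K, N = K + 1 := ⟨N - 1, by omega⟩
    unfold TT
    rw [Finset.sum_range_succ', Finset.sum_range_succ']
    have e0 : a 0 = p := by simp [ha, ee_zero]
    have e1 : gw p n ((0 : ℕ) / (K + 1 : ℕ)) * ee (p * ((0 : ℕ) : ℝ) ^ 2 / (K + 1 : ℕ)) = 0 := by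
      simp [gw]
    rw [e0, e1, add_zero, add_comm]
    congr 1
    have e2 : ∑ l ∈ range K, a (l + 1) = ∑ l ∈ range K, a (K - 1 - l + 1) :=
      (Finset.sum_range_reflect (fun l => a (l + 1)) K).symm
    have e3 : ∑ l ∈ range K, a (l + 1) = (1 / 2) * ∑ l ∈ range K, (a (l + 1) + a (K - 1 - l + 1)) := by
      rw [Finset.sum_add_distrib, ← e2]
      ring
    rw [e3, Finset.mul_sum]
    refine Finset.sum_congr rfl fun l hl => ?_
    have hl' := Finset.mem_range.1 hl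
    have e4 : ((K - 1 - l + 1 : ℕ) : ℝ) = (K + 1 : ℕ) - ((l + 1 : ℕ) : ℝ) := by
      have : K - 1 - l + 1 = (K + 1) - (l + 1) := by omega
      rw [this, Nat.cast_sub (by omega)]
    have e4c : ((K - 1 - l + 1 : ℕ) : ℂ) = (K + 1 : ℕ) - ((l + 1 : ℕ) : ℂ) := by
      have : K - 1 - l + 1 = (K + 1) - (l + 1) := by omega
      rw [this, Nat.cast_sub (by omega)]
    simp only [ha]
    rw [e4, e4c]
    generalize hL : l + 1 = L at *
    generalize hN' : K + 1 = N at *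
    have e5 : ee ((p * ((N : ℝ) - L) ^ 2 + n * (N - L)) / N) =
        ee (p * (L : ℝ) ^ 2 / N) * ee (-(n * (L / N))) := by
      rw [← ee_add]
      apply ee_congr ((p : ℤ) * N - 2 * p * L + n)
      push_cast
      field_simp
      ring
    have e6 : ee ((p * (L : ℝ) ^ 2 + n * L) / N) =
        ee (p * (L : ℝ) ^ 2 / N) * ee (n * (L / N)) := by
      rw [← ee_add]
      congr 1
      field_simp
    rw [e5, e6]
    have e7 := ee_sub_conj (n * (L / N))
    have e8 : ee (n * (L / N)) = ee (-(n * (L / N))) +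
      2 * Complex.I * (Real.sin (2 * π * (n * (L / N))) : ℝ) := by
      rw [← e7]; ring
    rw [e8]
    unfold gw
    rw [show (2 * π * n * (L / N) : ℝ) = 2 * π * (n * (L / N)) by ring]
    push_cast
    field_simp
    ring
  rw [h1, h2]

lemma ZZ_trivial (p : ℕ) {N : ℕ} (k : ℤ) : ‖ZZ p N k‖ ≤ N := by
  unfold ZZ
  refine (norm_sum_le _ _).trans ?_
  simp [ee_norm]

lemma sN_sub {p N : ℕ} (hN : 1 ≤ N) {n : ℕ} (hn : n ≤ p) :
    ‖sN p N n - TT p N (gw p n)‖ ≤ 2 * p := by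
  have hN0 : (0 : ℝ) < N := by positivity
  rw [sN_eq hN, show (p : ℂ) + TT p N (gw p n) - n / N * ZZ p N n - TT p N (gw p n) =
    p - n / N * ZZ p N n by ring]
  refine (norm_sub_le _ _).trans ?_
  have h1 : ‖((n : ℂ) / N * ZZ p N n)‖ ≤ n := by
    rw [norm_mul, norm_div, Complex.norm_natCast, Complex.norm_natCast]
    calc _ ≤ (n : ℝ) / N * N := by
          gcongr
          exact ZZ_trivial p _
      _ = n := by field_simp
  have h2 : (n : ℝ) ≤ p := by exact_mod_cast hn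
  rw [Complex.norm_natCast]
  linarith

lemma gw_contDiff (p n : ℕ) : ContDiff ℝ 2 (gw p n) := by
  unfold gw
  have h1 : ContDiff ℝ 2 (fun b : ℝ => ((b : ℝ) : ℂ)) := Complex.ofRealCLM.contDiff
  have h2 : ContDiff ℝ 2 (fun b : ℝ => ((Real.sin (2 * π * n * b) : ℝ) : ℂ)) :=
    Complex.ofRealCLM.contDiff.comp (f := fun b : ℝ => Real.sin (2 * π * n * b)) (by fun_prop)
  fun_prop

lemma gw_zero (p n : ℕ) : gw p n 0 = 0 := by simp [gw]

lemma gw_one (p n : ℕ) : gw p n 1 = 0 := by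
  have : Real.sin (2 * π * n * 1) = 0 := by
    have := Real.sin_nat_mul_pi (2 * n)
    rw [← this]
    congr 1
    push_cast
    ring
  simp only [gw, this]
  simp

end Gs

open Gs in
theorem sN_bound (p : ℕ) (hp : 1 ≤ p) :
    ∃ C : ℝ, ∀ N : ℕ, 1 ≤ N → ∀ n ≤ p, ‖sN p N n‖ ≤ C * √N := by
  have h1 : ∀ n : ℕ, ∃ c : ℤ → ℂ, Summable (fun k => ‖c k‖) ∧ ∀ b ∈ Set.Icc (0 : ℝ) 1,
      HasSum (fun k : ℤ => c k * ee (k * b)) (gw p n b) := fun n =>
    fourier_exp (gw_contDiff p n) (by rw [gw_zero, gw_one])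
  choose c hs hc using h1
  refine ⟨2 * p + √(2 * p) * ∑ n ∈ range (p + 1), ∑' k, ‖c n k‖, fun N hN n hn => ?_⟩
  have h2 := TT_norm hp hN (hs n) (hc n)
  have h3 := sN_sub (N := N) hN hn
  have h4 : ‖sN p N n‖ ≤ 2 * p + √(2 * p * N) * ∑' k, ‖c n k‖ := by
    calc ‖sN p N n‖ = ‖(sN p N n - TT p N (gw p n)) + TT p N (gw p n)‖ := by congr 1; ring
      _ ≤ _ := (norm_add_le _ _).trans (add_le_add h3 h2)
  have h5 : ∑' k, ‖c n k‖ ≤ ∑ n ∈ range (p + 1), ∑' k, ‖c n k‖ :=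
    Finset.single_le_sum (f := fun n => ∑' k, ‖c n k‖)
      (fun i _ => tsum_nonneg fun k => norm_nonneg _) (Finset.mem_range.2 (by omega))
  have h6 : (1 : ℝ) ≤ √N := by
    rw [Real.one_le_sqrt]
    exact_mod_cast hN
  rw [Real.sqrt_mul (by positivity)] at h4
  have h7 : (0 : ℝ) ≤ √(2 * p) := Real.sqrt_nonneg _
  calc ‖sN p N n‖ ≤ _ := h4
    _ ≤ 2 * p * √N + √(2 * p) * √N * ∑ n ∈ range (p + 1), ∑' k, ‖c n k‖ := by
      have h8 : 2 * (p : ℝ) ≤ 2 * p * √N := by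
        have : (0 : ℝ) ≤ 2 * p := by positivity
        nlinarith
      gcongr
    _ = _ := by ring

namespace Gs

lemma cos_sum {p : ℕ} (hp : 1 ≤ p) (k : ℤ) :
    ∑ n ∈ Icc 1 (p - 1), Real.cos (π * n * k / p) =
      (if ((2 * p : ℕ) : ℤ) ∣ k then (p : ℝ) else 0) - (1 + Real.cos (π * k)) / 2 := by
  obtain ⟨P, rfl⟩ : ∃ P, p = P + 1 := ⟨p - 1, by omega⟩
  set φ : ℕ → ℝ := fun n => Real.cos (π * n * k / (P + 1 : ℕ)) with hφ
  have hp0 : ((P + 1 : ℕ) : ℝ) ≠ 0 := by positivity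
  have h1 := congrArg Complex.re (ee_orth (M := 2 * (P + 1)) (by omega) k)
  have h2 : ∀ n : ℕ, (ee (n * k / (2 * (P + 1) : ℕ))).re = φ n := by
    intro n
    unfold ee
    have : (2 * π * Complex.I * ((n * k / (2 * (P + 1) : ℕ) : ℝ) : ℂ)) =
        ((π * n * k / (P + 1 : ℕ) : ℝ) : ℂ) * Complex.I := by
      push_cast
      field_simp
    rw [this, Complex.exp_ofReal_mul_I_re]
  rw [Complex.re_sum] at h1
  simp_rw [h2] at h1
  have h3 : (if ((2 * (P + 1) : ℕ) : ℤ) ∣ k then (((2 * (P + 1) : ℕ)) : ℂ) else 0).re =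
      2 * (if ((2 * (P + 1) : ℕ) : ℤ) ∣ k then ((P + 1 : ℕ) : ℝ) else 0) := by
    split_ifs
    · rw [Complex.natCast_re]
      push_cast
      ring
    · simp
  rw [h3] at h1
  have h4 : ∑ n ∈ range (2 * (P + 1)), φ n =
      (∑ n ∈ range P, φ (n + 1) + φ 0) + (∑ n ∈ range P, φ (P + 1 + (n + 1)) + φ (P + 1 + 0)) := by
    rw [two_mul, Finset.sum_range_add, Finset.sum_range_succ' φ,
      Finset.sum_range_succ' (fun n => φ (P + 1 + n))]
  have h5 : ∑ n ∈ range P, φ (P + 1 + (n + 1)) = ∑ n ∈ range P, φ (n + 1) := by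
    rw [← Finset.sum_range_reflect (fun n => φ (n + 1)) P]
    refine Finset.sum_congr rfl fun n hn => ?_
    have hn' := Finset.mem_range.1 hn
    have : ((P - 1 - n + 1 : ℕ) : ℝ) = 2 * (P + 1 : ℕ) - ((P + 1 + (n + 1) : ℕ) : ℝ) := by
      have : P - 1 - n + 1 = 2 * (P + 1) - (P + 1 + (n + 1)) := by omega
      rw [this, Nat.cast_sub (by omega)]
      push_cast
      ring
    simp only [hφ]
    rw [this, ← Real.cos_neg, ← Real.cos_add_int_mul_two_pi _ k]
    congr 1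
    field_simp
    ring
  have h6 : φ 0 = 1 := by simp [hφ]
  have h7 : φ (P + 1 + 0) = Real.cos (π * k) := by
    simp only [hφ, add_zero]
    congr 1
    field_simp
  rw [h4, h5, h6, h7] at h1
  have h8 : ∑ n ∈ Icc 1 (P + 1 - 1), Real.cos (π * n * k / (P + 1 : ℕ)) =
      ∑ n ∈ range P, φ (n + 1) := by
    rw [Nat.add_sub_cancel, ← Finset.Ico_succ_right_eq_Icc, Finset.sum_Ico_eq_sum_range]
    simp only [Order.succ_eq_add_one, Nat.add_sub_cancel]
    refine Finset.sum_congr rfl fun n _ => ?_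
    simp only [hφ]
    rw [add_comm 1 n]
  rw [h8]
  linarith

lemma dst {p μ : ℕ} (hp : 2 ≤ p) (hμ : μ < 2 * p) :
    ∑ n ∈ Icc 1 (p - 1), Real.sin (π * (p - 1) * n / p) * Real.sin (2 * π * n * (μ / (2 * p : ℕ)))
      = (if μ = p - 1 then (p : ℝ) / 2 else 0) - (if μ = p + 1 then (p : ℝ) / 2 else 0) := by
  have hp0 : (p : ℝ) ≠ 0 := by positivity
  have h1 : ∀ n ∈ Icc 1 (p - 1), Real.sin (π * (p - 1) * n / p) *
      Real.sin (2 * π * n * (μ / (2 * p : ℕ))) =
      (1 / 2) * (Real.cos (π * n * ((p : ℤ) - 1 - μ : ℤ) / p) -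
        Real.cos (π * n * ((p : ℤ) - 1 + μ : ℤ) / p)) := by
    intro n _
    have e1 : π * n * ((p : ℤ) - 1 - μ : ℤ) / p =
        π * (p - 1) * n / p - 2 * π * n * (μ / (2 * p : ℕ)) := by
      push_cast
      field_simp
    have e2 : π * n * ((p : ℤ) - 1 + μ : ℤ) / p =
        π * (p - 1) * n / p + 2 * π * n * (μ / (2 * p : ℕ)) := by
      push_cast
      field_simp
    rw [e1, e2, Real.cos_sub, Real.cos_add]
    ring
  rw [Finset.sum_congr rfl h1, ← Finset.mul_sum, Finset.sum_sub_distrib, cos_sum (by omega),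
    cos_sum (by omega)]
  have h2 : Real.cos (π * ((p : ℤ) - 1 - μ : ℤ)) = Real.cos (π * ((p : ℤ) - 1 + μ : ℤ)) := by
    rw [← Real.cos_add_int_mul_two_pi (π * ((p : ℤ) - 1 - μ : ℤ)) μ]
    congr 1
    push_cast
    ring
  have h3 : (((2 * p : ℕ) : ℤ) ∣ ((p : ℤ) - 1 - μ)) ↔ μ = p - 1 := by
    constructor
    · rintro ⟨c, hc⟩
      have hc' : (p : ℤ) - 1 - μ = 2 * p * c := by
        rw [hc]; push_cast; ring
      have h4 : c = 0 := by
        by_contra h5
        rcases lt_or_gt_of_ne h5 with h6 | h6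
        · have : c ≤ -1 := by omega
          nlinarith
        · have : 1 ≤ c := by omega
          nlinarith
      subst h4
      simp only [mul_zero] at hc'
      omega
    · intro h
      subst h
      have : (p : ℤ) - 1 - ((p - 1 : ℕ) : ℤ) = 0 := by omega
      rw [this]
      exact dvd_zero _
  have h4 : (((2 * p : ℕ) : ℤ) ∣ ((p : ℤ) - 1 + μ)) ↔ μ = p + 1 := by
    constructor
    · rintro ⟨c, hc⟩
      have hc' : (p : ℤ) - 1 + μ = 2 * p * c := by
        rw [hc]; push_cast; ring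
      have h4 : c = 1 := by
        by_contra h5
        rcases lt_or_gt_of_ne h5 with h6 | h6
        · have : c ≤ 0 := by omega
          nlinarith
        · have : 2 ≤ c := by omega
          nlinarith
      subst h4
      simp only [mul_one] at hc'
      omega
    · intro h
      subst h
      refine ⟨1, ?_⟩
      push_cast
      ring
  rw [h2]
  simp only [h3, h4]
  split_ifs <;> ring

/-- the total symmetrized weight -/
noncomputable def GG (p : ℕ) (b : ℝ) : ℂ :=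
  ∑ n ∈ Icc 1 (p - 1), ((Real.sin (π * (p - 1) * n / p) : ℝ) : ℂ) * gw p n b

lemma GG_eq {p μ : ℕ} (hp : 2 ≤ p) (hμ : μ < 2 * p) :
    GG p (μ / (2 * p : ℕ)) =
      if μ = p - 1 then Complex.I * p / 2 else if μ = p + 1 then Complex.I * p / 2 else 0 := by
  have hpc : (p : ℂ) ≠ 0 := by exact_mod_cast (show p ≠ 0 by omega)
  have h1 : GG p (μ / (2 * p : ℕ)) = Complex.I * p * (1 - μ / p) *
      ((∑ n ∈ Icc 1 (p - 1), Real.sin (π * (p - 1) * n / p) *
        Real.sin (2 * π * n * (μ / (2 * p : ℕ))) : ℝ) : ℂ) := by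
    unfold GG gw
    rw [Complex.ofReal_sum, Finset.mul_sum]
    refine Finset.sum_congr rfl fun n _ => ?_
    push_cast
    field_simp
  rw [h1, dst hp hμ]
  by_cases h2 : μ = p - 1
  · subst h2
    have h3 : ¬ (p - 1 = p + 1) := by omega
    have h4 : ((p - 1 : ℕ) : ℂ) = p - 1 := by
      rw [Nat.cast_sub (by omega)]
      simp
    simp only [if_true, h3, if_false, sub_zero]
    rw [h4]
    push_cast
    field_simp
    ring
  · by_cases h3 : μ = p + 1
    · subst h3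
      have h4 : ¬ (p + 1 = p - 1) := by omega
      simp only [h4, if_false, if_true]
      push_cast
      field_simp
      ring
    · simp [h2, h3]

lemma MM_GG {p N : ℕ} (hp : 2 ≤ p) (hN : 1 ≤ N) : ‖MM p N (GG p)‖ = √(2 * p * N) / 2 := by
  have hp0 : (p : ℝ) ≠ 0 := by positivity
  have hpc : (p : ℂ) ≠ 0 := by exact_mod_cast (show p ≠ 0 by omega)
  have h1 : ∑ μ ∈ range (2 * p), GG p (μ / (2 * p : ℕ)) * ee (-((μ : ℝ) ^ 2 * N / (4 * p))) =
      ∑ μ ∈ range (2 * p), ((if μ = p - 1 then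
        Complex.I * p / 2 * ee (-((((p - 1 : ℕ) : ℝ)) ^ 2 * N / (4 * p))) else 0) +
        (if μ = p + 1 then
        Complex.I * p / 2 * ee (-((((p + 1 : ℕ) : ℝ)) ^ 2 * N / (4 * p))) else 0)) := by
    refine Finset.sum_congr rfl fun μ hμ => ?_
    rw [GG_eq hp (Finset.mem_range.1 hμ)]
    by_cases h2 : μ = p - 1
    · subst h2
      have h3 : ¬ (p - 1 = p + 1) := by omega
      simp [h3]
    · by_cases h3 : μ = p + 1
      · subst h3
        have h4 : ¬ (p + 1 = p - 1) := by omega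
        simp [h4]
      · simp [h2, h3]
  have h2 : ee (-((((p + 1 : ℕ) : ℝ)) ^ 2 * N / (4 * p))) =
      ee (-((((p - 1 : ℕ) : ℝ)) ^ 2 * N / (4 * p))) := by
    apply ee_congr (-N)
    rw [Nat.cast_sub (by omega)]
    push_cast
    field_simp
    ring
  have h3 : MM p N (GG p) = Complex.I * ee (-((((p - 1 : ℕ) : ℝ)) ^ 2 * N / (4 * p))) *
      (gam (2 * p * N) / 2) := by
    unfold MM
    rw [h1, Finset.sum_add_distrib, Finset.sum_ite_eq', Finset.sum_ite_eq',
      if_pos (Finset.mem_range.2 (by omega)), if_pos (Finset.mem_range.2 (by omega)), h2]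
    field_simp
    ring
  rw [h3, norm_mul, norm_mul, Complex.norm_I, ee_norm, norm_div, gam_norm']
  · simp
  · omega
  · exact hN

end Gs

open Gs in
theorem amp (p : ℕ) (hp : 2 ≤ p) :
    Tendsto (fun N : ℕ => ‖∑ n ∈ Icc 1 (p - 1),
      ((Real.sin (π * (p - 1) * n / p) : ℝ) : ℂ) * sN p N n‖ ^ 2 / N) atTop (𝓝 ((p : ℝ) / 2)) := by
  have hG : ContDiff ℝ 2 (GG p) := by
    unfold GG
    apply ContDiff.sum
    intro n _
    exact contDiff_const.mul (gw_contDiff p n)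
  have h01 : GG p 0 = GG p 1 := by
    unfold GG
    simp [gw_zero, gw_one]
  obtain ⟨c, hs, hc⟩ := fourier_exp hG h01
  set A : ℕ → ℂ := fun N => ∑ n ∈ Icc 1 (p - 1),
      ((Real.sin (π * (p - 1) * n / p) : ℝ) : ℂ) * sN p N n with hA
  have h1 : ∀ N : ℕ, 1 ≤ N → |‖A N‖ - √(2 * p * N) / 2| ≤
      2 * (p : ℝ) ^ 2 + √(2 * p * N) * er p c N := by
    intro N hN
    rw [← MM_GG hp hN]
    refine (abs_norm_sub_norm_le _ _).trans ?_
    have e1 : ‖A N - TT p N (GG p)‖ ≤ 2 * (p : ℝ) ^ 2 := by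
      have e2 : TT p N (GG p) = ∑ n ∈ Icc 1 (p - 1),
          ((Real.sin (π * (p - 1) * n / p) : ℝ) : ℂ) * TT p N (gw p n) := by
        unfold TT GG
        simp_rw [Finset.sum_mul, Finset.mul_sum]
        rw [Finset.sum_comm]
        refine Finset.sum_congr rfl fun n _ => Finset.sum_congr rfl fun l _ => ?_
        ring
      rw [hA, e2]
      simp only
      rw [← Finset.sum_sub_distrib]
      refine (norm_sum_le _ _).trans ?_
      have e3 : ∀ n ∈ Icc 1 (p - 1), ‖((Real.sin (π * (p - 1) * n / p) : ℝ) : ℂ) * sN p N n -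
          ((Real.sin (π * (p - 1) * n / p) : ℝ) : ℂ) * TT p N (gw p n)‖ ≤ 2 * p := by
        intro n hn
        rw [← mul_sub, norm_mul, Complex.norm_real]
        have e4 := sN_sub (p := p) hN (n := n) (by
          have := (Finset.mem_Icc.1 hn).2
          omega)
        have e5 : ‖Real.sin (π * (p - 1) * n / p)‖ ≤ 1 := Real.abs_sin_le_one _
        have e6 := norm_nonneg (sN p N n - TT p N (gw p n))
        nlinarith
      refine (Finset.sum_le_card_nsmul _ _ _ e3).trans ?_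
      rw [Nat.card_Icc, nsmul_eq_mul]
      have e7 : ((p - 1 + 1 - 1 : ℕ) : ℝ) ≤ p := by
        exact_mod_cast (show p - 1 + 1 - 1 ≤ p by omega)
      nlinarith [show (0 : ℝ) ≤ p by positivity]
    calc ‖A N - MM p N (GG p)‖ = ‖(A N - TT p N (GG p)) + (TT p N (GG p) - MM p N (GG p))‖ := by
          congr 1; ring
      _ ≤ _ := (norm_add_le _ _).trans (add_le_add e1 (TT_sub_MM (by omega) hN hs hc))
  have h2 : Tendsto (fun N : ℕ => ‖A N‖ / √N) atTop (𝓝 (√(2 * p) / 2)) := by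
    have e1 : Tendsto (fun N : ℕ => 2 * (p : ℝ) ^ 2 / √N + √(2 * p) * er p c N) atTop (𝓝 0) := by
      have e2 : Tendsto (fun N : ℕ => 2 * (p : ℝ) ^ 2 / √N) atTop (𝓝 0) := by
        apply Tendsto.div_atTop tendsto_const_nhds
        exact Real.tendsto_sqrt_atTop.comp tendsto_natCast_atTop_atTop
      have e3 := (er_tendsto (p := p) (by omega) hs).const_mul (√(2 * p))
      have e4 := e2.add e3
      simpa using e4
    rw [tendsto_iff_norm_sub_tendsto_zero]
    refine squeeze_zero' (Eventually.of_forall fun N => norm_nonneg _) ?_ e1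
    filter_upwards [Filter.eventually_ge_atTop 1] with N hN
    have hN0 : (0 : ℝ) < √N := by
      rw [Real.sqrt_pos]
      exact_mod_cast hN
    have e5 := h1 N hN
    rw [Real.sqrt_mul (by positivity)] at e5
    rw [Real.norm_eq_abs]
    have e6 : ‖A N‖ / √N - √(2 * p) / 2 = (‖A N‖ - √(2 * p) * √N / 2) / √N := by
      field_simp
    rw [e6, abs_div, abs_of_pos hN0, div_le_iff₀ hN0]
    calc _ ≤ _ := e5
      _ = _ := by field_simp
  have h3 := h2.pow 2
  have h4 : (√(2 * (p : ℝ)) / 2) ^ 2 = (p : ℝ) / 2 := by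
    rw [div_pow, Real.sq_sqrt (by positivity)]
    ring
  rw [h4] at h3
  refine h3.congr fun N => ?_
  rw [div_pow, Real.sq_sqrt (by positivity)]

end Pool.Agent.Kashaev.KV
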