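import Mathlib

/-!
The discrete Laplace method.
-/

open Finset Real Filter Topology MeasureTheory

namespace Pool.Agent.Kashaev.KV

lemma indicator_floor (f : ℕ → ℝ) (N : ℕ) (y : ℝ) :
    (Set.Ico (0 : ℝ) N).indicator (fun y => f ⌊y⌋₊) y =
      ∑ k ∈ range N, (Set.Ico (k : ℝ) (k + 1)).indicator (fun _ => f k) y := by
  by_cases hy : y ∈ Set.Ico (0 : ℝ) N
  · rw [Set.indicator_of_mem hy, Finset.sum_eq_single ⌊y⌋₊]
    · rw [Set.indicator_of_mem]
      exact ⟨Nat.floor_le hy.1, Nat.lt_floor_add_one y⟩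
    · intro b _ hb
      rw [Set.indicator_of_notMem]
      intro h
      apply hb
      symm
      rw [Nat.floor_eq_iff hy.1]
      exact h
    · intro h
      exact absurd (mem_range.2 ((Nat.floor_lt hy.1).2 hy.2)) h
  · rw [Set.indicator_of_notMem hy]
    symm
    apply Finset.sum_eq_zero
    intro k hk
    rw [Set.indicator_of_notMem]
    intro h
    apply hy
    have h1 : (k : ℝ) + 1 ≤ N := by exact_mod_cast mem_range.1 hk
    exact ⟨le_trans (Nat.cast_nonneg k) h.1, lt_of_lt_of_le h.2 h1⟩

lemma measurable_floor (f : ℕ → ℝ) (N : ℕ) :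
    Measurable (fun y : ℝ => (Set.Ico (0 : ℝ) N).indicator (fun y => f ⌊y⌋₊) y) := by
  simp only [indicator_floor]
  refine Finset.measurable_sum _ fun k _ => ?_
  exact measurable_const.indicator measurableSet_Ico

lemma integral_floor (f : ℕ → ℝ) (N : ℕ) :
    ∫ y : ℝ, (Set.Ico (0 : ℝ) N).indicator (fun y => f ⌊y⌋₊) y = ∑ k ∈ range N, f k := by
  simp only [indicator_floor]
  rw [integral_finsetSum]
  · refine Finset.sum_congr rfl fun k _ => ?_
    rw [integral_indicator measurableSet_Ico, setIntegral_const]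
    simp
  · intro k _
    rw [integrable_indicator_iff measurableSet_Ico]
    exact integrableOn_const (by simp)

lemma integral_floor_comp (f : ℕ → ℝ) (N : ℕ) (hN : 0 < N) (s : ℝ) :
    ∫ x : ℝ, (Set.Ico (0 : ℝ) N).indicator (fun y => f ⌊y⌋₊) (s + √N * x) =
      (∑ k ∈ range N, f k) / √N := by
  have h := Measure.integral_comp_mul_left
    (fun z => (Set.Ico (0 : ℝ) N).indicator (fun y => f ⌊y⌋₊) (s + z)) (√N)
  rw [h, integral_add_left_eq_self (fun z => (Set.Ico (0 : ℝ) N).indicator (fun y => f ⌊y⌋₊) z) s,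
    integral_floor, abs_of_nonneg (by positivity), smul_eq_mul]
  rw [div_eq_inv_mul]

/-- The discrete Laplace method. -/
theorem laplace {a b t0 g c : ℝ} (h0 : 0 < t0) (h3 : t0 < 1) (h1 : a < t0) (h2 : t0 < b)
    (_hg : 0 < g) (hc : 0 < c)
    (G A : ℝ → ℝ) (hA : ContinuousOn A (Set.Icc a b))
    (hG1 : ∀ t ∈ Set.Icc a b, G t ≤ G t0 - c * (t - t0) ^ 2)
    (hG2 : Tendsto (fun t => (G t0 - G t) / (t - t0) ^ 2) (𝓝[≠] t0) (𝓝 g))
    (F : ℕ → ℕ → ℝ)
    (hF : ∀ ε > 0, ∃ N0 : ℕ, ∀ N ≥ N0, ∀ k : ℕ, a ≤ (k : ℝ) / N → (k : ℝ) / N ≤ b →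
      |F N k * Real.exp (-(N * G ((k : ℝ) / N))) - A ((k : ℝ) / N)| ≤ ε) :
    Tendsto (fun N : ℕ =>
      (∑ k ∈ (range N).filter (fun k : ℕ => a ≤ (k : ℝ) / N ∧ (k : ℝ) / N ≤ b), F N k) *
        Real.exp (-(N * G t0)) / √N) atTop (𝓝 (A t0 * √(π / g))) := by
  classical
  -- the summand
  set f : ℕ → ℕ → ℝ := fun N k =>
    if a ≤ (k : ℝ) / N ∧ (k : ℝ) / N ≤ b then F N k * Real.exp (-(N * G t0)) else 0 with hf
  have hsum : ∀ N : ℕ, (∑ k ∈ (range N).filter (fun k : ℕ => a ≤ (k : ℝ) / N ∧ (k : ℝ) / N ≤ b),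
      F N k) * Real.exp (-(N * G t0)) / √N = (∑ k ∈ range N, f N k) / √N := by
    intro N
    rw [sum_filter, sum_mul]
    congr 1
    refine Finset.sum_congr rfl fun k _ => ?_
    rw [hf]
    simp only
    split_ifs <;> simp
  simp only [hsum]
  -- the step functions
  set φ : ℕ → ℝ → ℝ := fun N x =>
    (Set.Ico (0 : ℝ) N).indicator (fun y => f N ⌊y⌋₊) (N * t0 + √N * x) with hφ
  have hint : ∀ᶠ N : ℕ in atTop, ∫ x, φ N x = (∑ k ∈ range N, f N k) / √N := by
    filter_upwards [eventually_gt_atTop 0] with N hN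
    exact integral_floor_comp (f N) N hN _
  refine Tendsto.congr' hint ?_
  have hlim : A t0 * √(π / g) = ∫ x : ℝ, A t0 * Real.exp (-g * x ^ 2) := by
    rw [integral_const_mul, integral_gaussian]
  rw [hlim]
  -- a bound of the amplitude
  obtain ⟨M, hM⟩ : ∃ M, ∀ t ∈ Set.Icc a b, |A t| ≤ M := by
    obtain ⟨M, hM⟩ := isCompact_Icc.exists_bound_of_continuousOn hA
    exact ⟨M, fun t ht => by simpa using hM t ht⟩
  have hM0 : 0 ≤ M := le_trans (abs_nonneg _) (hM t0 ⟨h1.le, h2.le⟩)
  -- comparison of the floor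
  have hfl : ∀ N : ℕ, 0 < N → ∀ y : ℝ, 0 ≤ y →
      |√N * ((⌊y⌋₊ : ℝ) / N - t0) - (y - N * t0) / √N| ≤ 1 / √N := by
    intro N hN y hy
    have hN' : (0 : ℝ) < N := by exact_mod_cast hN
    have hs : (0 : ℝ) < √N := by positivity
    have hsq : √(N : ℝ) * √N = N := Real.mul_self_sqrt hN'.le
    have e : √N * ((⌊y⌋₊ : ℝ) / N - t0) - (y - N * t0) / √N = ((⌊y⌋₊ : ℝ) - y) / √N := by
      rw [eq_div_iff hs.ne']
      have : (y - N * t0) / √N * √N = y - N * t0 := by field_simp
      rw [sub_mul, this]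
      have : √N * ((⌊y⌋₊ : ℝ) / N - t0) * √N = (√N * √N) * ((⌊y⌋₊ : ℝ) / N - t0) := by ring
      rw [this, hsq]
      field_simp
      ring
    rw [e, abs_div, abs_of_pos hs]
    apply div_le_div_of_nonneg_right _ hs.le
    rw [abs_le]
    constructor
    · linarith [Nat.lt_floor_add_one y]
    · linarith [Nat.floor_le hy]
  refine tendsto_integral_filter_of_dominated_convergence
    (fun x => (M + 1) * (Real.exp c * Real.exp (-(c / 2) * x ^ 2))) ?_ ?_ ?_ ?_
  · refine Eventually.of_forall fun N => ?_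
    have h := measurable_floor (f N) N
    have h' : Measurable (fun x : ℝ => N * t0 + √N * x) := by fun_prop
    exact (h.comp h').aestronglyMeasurable
  · obtain ⟨N0, hN0⟩ := hF 1 one_pos
    filter_upwards [eventually_ge_atTop N0, eventually_gt_atTop 0] with N hN hNpos
    refine ae_of_all _ fun x => ?_
    have hN' : (1 : ℝ) ≤ N := by exact_mod_cast hNpos
    have hs : (1 : ℝ) ≤ √N := by
      rw [Real.one_le_sqrt]
      exact hN'
    rw [hφ]
    simp only
    by_cases hy : (N * t0 + √N * x) ∈ Set.Ico (0 : ℝ) N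
    · rw [Set.indicator_of_mem hy]
      set k := ⌊N * t0 + √N * x⌋₊ with hk
      rw [hf]
      simp only
      split_ifs with hab
      · have h4 := hN0 N hN k hab.1 hab.2
        have h5 := hM ((k : ℝ) / N) ⟨hab.1, hab.2⟩
        have h6 : |F N k * Real.exp (-(N * G ((k : ℝ) / N)))| ≤ M + 1 := by
          have := abs_sub_abs_le_abs_sub (F N k * Real.exp (-(N * G ((k : ℝ) / N))))
            (A ((k : ℝ) / N))
          linarith
        have h7 : F N k * Real.exp (-(N * G t0)) =
            F N k * Real.exp (-(N * G ((k : ℝ) / N))) *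
              Real.exp (-(N * (G t0 - G ((k : ℝ) / N)))) := by
          rw [mul_assoc, ← Real.exp_add]
          congr 2
          ring
        rw [h7, norm_mul, Real.norm_eq_abs, Real.norm_eq_abs, abs_of_pos (Real.exp_pos _)]
        apply mul_le_mul h6 _ (Real.exp_pos _).le (by linarith)
        rw [← Real.exp_add, Real.exp_le_exp]
        have h8 := hG1 ((k : ℝ) / N) ⟨hab.1, hab.2⟩
        have h9 := hfl N hNpos _ hy.1
        rw [← hk] at h9
        have h10 : (N * t0 + √N * x - N * t0) / √N = x := by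
          have : (0 : ℝ) < √N := by linarith
          field_simp
          ring
        rw [h10] at h9
        have h11 : 1 / √(N : ℝ) ≤ 1 := by
          rw [div_le_one (by linarith)]
          exact hs
        set z := √N * ((k : ℝ) / N - t0) with hz
        have h12 : |z - x| ≤ 1 := h9.trans h11
        have h13 : N * (((k : ℝ) / N - t0) ^ 2) = z ^ 2 := by
          rw [hz, mul_pow, Real.sq_sqrt (by linarith)]
        have h14 : x ^ 2 / 2 - 1 ≤ z ^ 2 := by
          have := abs_le.1 h12
          nlinarith [sq_nonneg (z + (z - x)), sq_nonneg (2 * z - x), sq_nonneg (z - x)]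
        have h15 : N * (G t0 - G ((k : ℝ) / N)) ≥ c * z ^ 2 := by
          rw [← h13]
          nlinarith
        nlinarith
      · simp only [norm_zero]
        positivity
    · rw [Set.indicator_of_notMem hy]
      simp only [norm_zero]
      positivity
  · exact ((integrable_exp_neg_mul_sq (by linarith : 0 < c / 2)).const_mul _).const_mul _
  · refine ae_of_all _ fun x => ?_
    -- the points
    set y : ℕ → ℝ := fun N => N * t0 + √N * x with hy
    have hsq : Tendsto (fun N : ℕ => 1 / √(N : ℝ)) atTop (𝓝 0) := by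
      simp only [one_div]
      exact tendsto_inv_atTop_zero.comp (Real.tendsto_sqrt_atTop.comp tendsto_natCast_atTop_atTop)
    have hyN : ∀ᶠ N : ℕ in atTop, y N / N = t0 + x * (1 / √N) := by
      filter_upwards [eventually_gt_atTop 0] with N hN
      have hN' : (0 : ℝ) < N := by exact_mod_cast hN
      have hs : (0 : ℝ) < √N := by positivity
      have hsq : √(N : ℝ) * √N = N := Real.mul_self_sqrt hN'.le
      rw [hy]
      simp only
      rw [add_div, mul_div_cancel_left₀ _ hN'.ne']
      congr 1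
      rw [div_eq_iff hN'.ne']
      calc √(N : ℝ) * x = x * (1 / √N) * (√N * √N) := by field_simp
        _ = x * (1 / √N) * N := by rw [hsq]
    have hylim : Tendsto (fun N : ℕ => y N / N) atTop (𝓝 t0) := by
      have : Tendsto (fun N : ℕ => t0 + x * (1 / √(N : ℝ))) atTop (𝓝 (t0 + x * 0)) :=
        (hsq.const_mul x).const_add t0
      rw [mul_zero, add_zero] at this
      exact this.congr' (hyN.mono fun N h => h.symm)
    have hy0 : ∀ᶠ N : ℕ in atTop, 0 < y N := by
      filter_upwards [hylim.eventually_const_lt h0, eventually_gt_atTop 0] with N h hN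
      have hN' : (0 : ℝ) < N := by exact_mod_cast hN
      by_contra hcon
      push Not at hcon
      have := div_nonpos_of_nonpos_of_nonneg hcon hN'.le
      linarith
    have hy1 : ∀ᶠ N : ℕ in atTop, y N < N := by
      filter_upwards [hylim.eventually_lt_const h3, eventually_gt_atTop 0] with N h hN
      have hN' : (0 : ℝ) < N := by exact_mod_cast hN
      rwa [div_lt_one hN'] at h
    set z : ℕ → ℝ := fun N => √N * ((⌊y N⌋₊ : ℝ) / N - t0) with hz
    have hzlim : Tendsto z atTop (𝓝 x) := by
      rw [tendsto_iff_norm_sub_tendsto_zero]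
      refine squeeze_zero' (Eventually.of_forall fun N => norm_nonneg _) ?_ hsq
      filter_upwards [hy0, eventually_gt_atTop 0] with N h hN
      have h9 := hfl N hN _ h.le
      have h10 : (y N - N * t0) / √N = x := by
        have hN' : (0 : ℝ) < N := by exact_mod_cast hN
        have hs : (0 : ℝ) < √N := by positivity
        rw [hy]
        field_simp
        ring
      rw [h10] at h9
      exact h9
    set t : ℕ → ℝ := fun N => (⌊y N⌋₊ : ℝ) / N with ht
    have htlim : Tendsto t atTop (𝓝 t0) := by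
      have h4 : Tendsto (fun N : ℕ => t0 + z N * (1 / √(N : ℝ))) atTop (𝓝 (t0 + x * 0)) :=
        (hzlim.mul hsq).const_add t0
      rw [mul_zero, add_zero] at h4
      refine h4.congr' ?_
      filter_upwards [eventually_gt_atTop 0] with N hN
      have hN' : (0 : ℝ) < N := by exact_mod_cast hN
      have hs : (0 : ℝ) < √N := by positivity
      rw [hz]
      simp only
      rw [ht]
      simp only
      field_simp
      ring
    have htab : ∀ᶠ N : ℕ in atTop, a ≤ t N ∧ t N ≤ b := by
      filter_upwards [htlim.eventually_const_lt h1, htlim.eventually_lt_const h2] with N h h'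
      exact ⟨h.le, h'.le⟩
    -- the amplitude
    have hAlim : Tendsto (fun N => A (t N)) atTop (𝓝 (A t0)) :=
      ((hA.continuousAt (Icc_mem_nhds h1 h2)).tendsto).comp htlim
    have hFlim : Tendsto (fun N : ℕ => F N ⌊y N⌋₊ * Real.exp (-(N * G (t N)))) atTop
        (𝓝 (A t0)) := by
      have h4 : Tendsto (fun N : ℕ => F N ⌊y N⌋₊ * Real.exp (-(N * G (t N))) - A (t N)) atTop
          (𝓝 0) := by
        rw [Metric.tendsto_atTop]
        intro ε hε
        obtain ⟨N0, hN0⟩ := hF (ε / 2) (by linarith)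
        obtain ⟨N1, hN1⟩ := eventually_atTop.1 htab
        refine ⟨max N0 N1, fun N hN => ?_⟩
        have h5 := hN1 N (le_trans (le_max_right _ _) hN)
        have h6 := hN0 N (le_trans (le_max_left _ _) hN) ⌊y N⌋₊ h5.1 h5.2
        rw [Real.dist_eq, sub_zero]
        exact lt_of_le_of_lt h6 (by linarith)
      have h5 := h4.add hAlim
      rw [zero_add] at h5
      refine h5.congr fun N => ?_
      ring
    -- the phase
    set H : ℝ → ℝ := Function.update (fun t => (G t0 - G t) / (t - t0) ^ 2) t0 g with hH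
    have hHc : ContinuousAt H t0 := by
      rw [hH, continuousAt_update_same]
      exact hG2
    have hHG : ∀ t, G t0 - G t = H t * (t - t0) ^ 2 := by
      intro t
      by_cases h : t = t0
      · subst h
        simp
      · rw [hH, Function.update_of_ne h]
        have : (t - t0) ^ 2 ≠ 0 := pow_ne_zero _ (sub_ne_zero.2 h)
        field_simp
    have hHlim : Tendsto (fun N => H (t N)) atTop (𝓝 g) := by
      have := hHc.tendsto.comp htlim
      rwa [hH, Function.update_self] at this
    have hE : Tendsto (fun N : ℕ => Real.exp (-(H (t N) * z N ^ 2))) atTop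
        (𝓝 (Real.exp (-(g * x ^ 2)))) :=
      (Real.continuous_exp.tendsto _).comp ((hHlim.mul (hzlim.pow 2)).neg)
    have hprod := hFlim.mul hE
    have hend : A t0 * Real.exp (-g * x ^ 2) = A t0 * Real.exp (-(g * x ^ 2)) := by
      rw [neg_mul]
    rw [hend]
    refine hprod.congr' ?_
    filter_upwards [hy0, hy1, htab, eventually_gt_atTop 0] with N h4 h5 h6 hN
    have hN' : (0 : ℝ) < N := by exact_mod_cast hN
    rw [hφ]
    simp only
    have hmem : (N * t0 + √N * x) ∈ Set.Ico (0 : ℝ) N := ⟨h4.le, h5⟩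
    rw [Set.indicator_of_mem hmem]
    have hfe : f N ⌊(N : ℝ) * t0 + √N * x⌋₊ = F N ⌊y N⌋₊ * Real.exp (-(N * G t0)) := by
      rw [hf]
      simp only
      rw [if_pos h6]
    rw [hfe, mul_assoc, ← Real.exp_add]
    congr 2
    have h7 : z N ^ 2 = N * (t N - t0) ^ 2 := by
      rw [hz]
      simp only
      rw [mul_pow, Real.sq_sqrt hN'.le]
    have h8 := hHG (t N)
    rw [h7]
    have : H (t N) * (N * (t N - t0) ^ 2) = N * (G t0 - G (t N)) := by
      rw [h8]
      ring
    rw [this]
    ring

end Pool.Agent.Kashaev.KV
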