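import Mathlib

/-!
# Products of slowly varying matrices
-/

open Finset Real Filter Topology

namespace Pool.Agent.Kashaev.KV

section general

variable {E : Type*} [NormedAddCommGroup E] [NormedSpace ℂ E]

/-- Iterating an operator with small relative errors. -/
theorem prod_pert (T : E →L[ℂ] E) (m : ℕ) : ∀ η > 0, ∃ δ > 0, ∀ V : ℕ → E,
    (∀ i < m, ‖V (i + 1) - T (V i)‖ ≤ δ * ‖V i‖) → ‖V m - (T ^ m) (V 0)‖ ≤ η * ‖V 0‖ := by
  induction m with
  | zero =>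
    intro η hη
    refine ⟨1, one_pos, fun V _ => ?_⟩
    simp only [pow_zero, one_apply_eq_self, sub_self, norm_zero]
    positivity
  | succ m ih =>
    intro η hη
    obtain ⟨δ, hδ, h⟩ := ih (η / (2 * (‖T‖ + 1))) (by positivity)
    set η' := η / (2 * (‖T‖ + 1)) with hη'
    have hη'0 : 0 < η' := by positivity
    refine ⟨min δ (η / (2 * (‖T ^ m‖ + η'))), by positivity, fun V hV => ?_⟩
    have h1 : ‖V m - (T ^ m) (V 0)‖ ≤ η' * ‖V 0‖ := by
      apply h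
      intro i hi
      exact (hV i (by omega)).trans (by gcongr; exact min_le_left _ _)
    have h2 : ‖V m‖ ≤ (‖T ^ m‖ + η') * ‖V 0‖ := by
      calc ‖V m‖ = ‖(T ^ m) (V 0) + (V m - (T ^ m) (V 0))‖ := by congr 1; abel
        _ ≤ ‖(T ^ m) (V 0)‖ + ‖V m - (T ^ m) (V 0)‖ := norm_add_le _ _
        _ ≤ ‖T ^ m‖ * ‖V 0‖ + η' * ‖V 0‖ := by
          gcongr
          exact (T ^ m).le_opNorm _
        _ = _ := by ring
    have h3 : ‖V (m + 1) - T (V m)‖ ≤ η / 2 * ‖V 0‖ := by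
      refine (hV m (by omega)).trans ?_
      calc min δ (η / (2 * (‖T ^ m‖ + η'))) * ‖V m‖
          ≤ (η / (2 * (‖T ^ m‖ + η'))) * ((‖T ^ m‖ + η') * ‖V 0‖) := by
            gcongr
            exact min_le_right _ _
        _ = η / 2 * ‖V 0‖ := by
            have : ‖T ^ m‖ + η' ≠ 0 := by positivity
            field_simp
    have h4 : ‖T (V m - (T ^ m) (V 0))‖ ≤ η / 2 * ‖V 0‖ := by
      calc ‖T (V m - (T ^ m) (V 0))‖ ≤ ‖T‖ * ‖V m - (T ^ m) (V 0)‖ := T.le_opNorm _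
        _ ≤ (‖T‖ + 1) * (η' * ‖V 0‖) := by
          gcongr
          linarith
        _ = η / 2 * ‖V 0‖ := by
          rw [hη']
          have : ‖T‖ + 1 ≠ 0 := by positivity
          field_simp
    calc ‖V (m + 1) - (T ^ (m + 1)) (V 0)‖
        = ‖(V (m + 1) - T (V m)) + T (V m - (T ^ m) (V 0))‖ := by
          congr 1
          rw [map_sub, pow_succ', mul_apply_eq_comp]
          abel
      _ ≤ η / 2 * ‖V 0‖ + η / 2 * ‖V 0‖ := (norm_add_le _ _).trans (add_le_add h3 h4)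
      _ = η * ‖V 0‖ := by ring

/-- The chain of windows. -/
theorem prod_chain {a b : ℝ} (B : ℝ → E →L[ℂ] E)
    (hB : ContinuousOn B (Set.Icc a b))
    (hs : ∀ t ∈ Set.Icc a b, ∃ m : ℕ, 1 ≤ m ∧ ‖(B t) ^ m‖ ≤ 1 / 4) :
    ∃ C > 0, ∃ θ : ℝ, 0 < θ ∧ θ < 1 ∧ ∃ ε > 0, ∃ N0 : ℕ, ∀ N ≥ N0, ∀ k1 k2 : ℕ, k1 ≤ k2 →
      a ≤ (k1 : ℝ) / N → (k2 : ℝ) / N ≤ b → ∀ V : ℕ → E,
      (∀ i, k1 < i → i ≤ k2 → ‖V (i - 1) - (B ((i : ℝ) / N)) (V i)‖ ≤ ε * ‖V i‖) →
      ‖V k1‖ ≤ C * θ ^ (k2 - k1) * ‖V k2‖ := by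
  -- local windows
  have hloc : ∀ t ∈ Set.Icc a b, ∃ m : ℕ, 1 ≤ m ∧ ∃ ε > 0, ∃ r > 0, ∀ V : ℕ → E, ∀ s : ℕ → ℝ,
      (∀ i < m, s i ∈ Set.Icc a b ∧ |s i - t| < r) →
      (∀ i < m, ‖V (i + 1) - B (s i) (V i)‖ ≤ ε * ‖V i‖) → ‖V m‖ ≤ 1 / 2 * ‖V 0‖ := by
    intro t ht
    obtain ⟨m, hm, hmt⟩ := hs t ht
    obtain ⟨δ, hδ, h⟩ := prod_pert (B t) m (1 / 4) (by norm_num)
    have hc := hB t ht
    rw [Metric.continuousWithinAt_iff] at hc
    obtain ⟨r, hr, hr2⟩ := hc (δ / 2) (by positivity)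
    refine ⟨m, hm, δ / 2, by positivity, r, hr, fun V s hs1 hs2 => ?_⟩
    have h1 : ‖V m - (B t ^ m) (V 0)‖ ≤ 1 / 4 * ‖V 0‖ := by
      apply h
      intro i hi
      have h2 : ‖B (s i) - B t‖ ≤ δ / 2 := by
        rw [← dist_eq_norm]
        exact (hr2 (hs1 i hi).1 (by rw [Real.dist_eq]; exact (hs1 i hi).2)).le
      calc ‖V (i + 1) - B t (V i)‖
          = ‖(V (i + 1) - B (s i) (V i)) + (B (s i) - B t) (V i)‖ := by
            congr 1
            rw [sub_apply]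
            abel
        _ ≤ δ / 2 * ‖V i‖ + δ / 2 * ‖V i‖ := by
            refine (norm_add_le _ _).trans (add_le_add (hs2 i hi) ?_)
            refine ((B (s i) - B t).le_opNorm _).trans ?_
            gcongr
        _ = δ * ‖V i‖ := by ring
    calc ‖V m‖ = ‖(B t ^ m) (V 0) + (V m - (B t ^ m) (V 0))‖ := by congr 1; abel
      _ ≤ ‖(B t ^ m) (V 0)‖ + ‖V m - (B t ^ m) (V 0)‖ := norm_add_le _ _
      _ ≤ 1 / 4 * ‖V 0‖ + 1 / 4 * ‖V 0‖ := by
        refine add_le_add ?_ h1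
        refine ((B t ^ m).le_opNorm _).trans ?_
        gcongr
      _ = 1 / 2 * ‖V 0‖ := by ring
  rcases le_or_gt a b with hab | hab
  swap
  · refine ⟨1, one_pos, 1 / 2, by norm_num, by norm_num, 1, one_pos, 0, ?_⟩
    intro N _ k1 k2 hk h1 h2
    exfalso
    have : (k1 : ℝ) / N ≤ (k2 : ℝ) / N := by
      have : (k1 : ℝ) ≤ k2 := by exact_mod_cast hk
      gcongr
    linarith
  choose! m hm e he r hr hw using hloc
  obtain ⟨F, hF1, hF2⟩ := (isCompact_Icc (a := a) (b := b)).elim_nhds_subcover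
    (fun t => Metric.ball t (r t / 2)) (by
      intro t ht
      exact Metric.ball_mem_nhds _ (by have := hr t ht; positivity))
  have hFne : F.Nonempty := by
    have : a ∈ ⋃ x ∈ F, Metric.ball x (r x / 2) := hF2 ⟨le_rfl, hab⟩
    simp only [Set.mem_iUnion] at this
    obtain ⟨x, hx, _⟩ := this
    exact ⟨x, hx⟩
  -- a uniform bound for the number of steps
  obtain ⟨M, hM⟩ : ∃ M : ℕ, 1 ≤ M ∧ ∀ t ∈ F, m t ≤ M := by
    refine ⟨F.sup m, ?_, fun t ht => Finset.le_sup ht⟩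
    obtain ⟨t, ht⟩ := hFne
    exact (hm t (hF1 t ht)).trans (Finset.le_sup ht)
  obtain ⟨ρ, hρ0, hρ⟩ : ∃ ρ > 0, ∀ t ∈ F, ρ ≤ r t := by
    refine ⟨F.inf' hFne r, ?_, fun t ht => Finset.inf'_le _ ht⟩
    rw [gt_iff_lt, Finset.lt_inf'_iff]
    exact fun t ht => hr t (hF1 t ht)
  obtain ⟨ε, hε0, hε⟩ : ∃ ε > 0, ∀ t ∈ F, ε ≤ e t := by
    refine ⟨F.inf' hFne e, ?_, fun t ht => Finset.inf'_le _ ht⟩
    rw [gt_iff_lt, Finset.lt_inf'_iff]
    exact fun t ht => he t (hF1 t ht)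
  obtain ⟨D, hD1, hD⟩ : ∃ D : ℝ, 1 ≤ D ∧ ∀ t ∈ Set.Icc a b, ‖B t‖ + ε ≤ D := by
    obtain ⟨D, hD⟩ := isCompact_Icc.exists_bound_of_continuousOn hB
    refine ⟨max 1 (D + ε), le_max_left _ _, fun t ht => ?_⟩
    exact (add_le_add_left (hD t ht) ε).trans (le_max_right _ _)
  -- the rate
  obtain ⟨θ, hθ0, hθ1, hθ⟩ : ∃ θ : ℝ, 0 < θ ∧ θ < 1 ∧ 1 / 2 ≤ θ ^ M := by
    refine ⟨(1 / 2 : ℝ) ^ ((1 : ℝ) / M), by positivity, ?_, ?_⟩
    · apply Real.rpow_lt_one (by norm_num) (by norm_num)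
      have : (0 : ℝ) < M := by exact_mod_cast hM.1
      positivity
    · rw [← Real.rpow_natCast, ← Real.rpow_mul (by norm_num)]
      have : (M : ℝ) ≠ 0 := by
        have : (0 : ℝ) < M := by exact_mod_cast hM.1
        positivity
      rw [one_div_mul_cancel this, Real.rpow_one]
  obtain ⟨N1, hN1⟩ := exists_nat_gt (2 * (M : ℝ) / ρ)
  refine ⟨D ^ M / θ ^ M, by positivity, θ, hθ0, hθ1, ε, hε0, N1 + 1, ?_⟩
  intro N hN
  have hN0 : (0 : ℝ) < N := by
    have : 0 < N := by omega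
    exact_mod_cast this
  have hNM : (M : ℝ) / N ≤ ρ / 2 := by
    have h1 : (N1 : ℝ) ≤ N := by
      have : N1 ≤ N := by omega
      exact_mod_cast this
    rw [div_lt_iff₀ hρ0] at hN1
    rw [div_le_iff₀ hN0]
    nlinarith
  -- strong induction on the number of steps
  have main : ∀ d : ℕ, ∀ k1 k2 : ℕ, k1 ≤ k2 → k2 - k1 = d → a ≤ (k1 : ℝ) / N →
      (k2 : ℝ) / N ≤ b → ∀ V : ℕ → E,
      (∀ i, k1 < i → i ≤ k2 → ‖V (i - 1) - (B ((i : ℝ) / N)) (V i)‖ ≤ ε * ‖V i‖) →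
      ‖V k1‖ ≤ D ^ M / θ ^ M * θ ^ (k2 - k1) * ‖V k2‖ := by
    intro d
    induction d using Nat.strong_induction_on with
    | _ d ih =>
    intro k1 k2 hk hd h1 h2 V hV
    have hmono : ∀ i j : ℕ, i ≤ j → (i : ℝ) / N ≤ (j : ℝ) / N := by
      intro i j hij
      have : (i : ℝ) ≤ j := by exact_mod_cast hij
      gcongr
    have hk2 : (k2 : ℝ) / N ∈ Set.Icc a b := ⟨h1.trans (hmono _ _ hk), h2⟩
    have hcov := hF2 hk2
    simp only [Set.mem_iUnion, Metric.mem_ball, Real.dist_eq] at hcov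
    obtain ⟨t, htF, ht⟩ := hcov
    have htI := hF1 t htF
    rcases le_or_gt (m t) (k2 - k1) with hmk | hmk
    · -- a full window
      have hw' : ‖V (k2 - m t)‖ ≤ 1 / 2 * ‖V k2‖ := by
        have := hw t htI (fun i => V (k2 - i)) (fun i => ((k2 - i : ℕ) : ℝ) / N) ?_ ?_
        · simpa using this
        · intro i hi
          refine ⟨⟨h1.trans (hmono _ _ (by omega)), (hmono _ _ (by omega)).trans h2⟩, ?_⟩
          have h3 : ((k2 - i : ℕ) : ℝ) / N = (k2 : ℝ) / N - (i : ℝ) / N := by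
            rw [Nat.cast_sub (by omega)]
            ring
          have h4 : (i : ℝ) / N ≤ ρ / 2 := by
            refine le_trans ?_ hNM
            have : (i : ℝ) ≤ M := by
              have := hM.2 t htF
              have : i ≤ M := by omega
              exact_mod_cast this
            gcongr
          have h5 : (0 : ℝ) ≤ (i : ℝ) / N := by positivity
          have h6 := hρ t htF
          rw [h3]
          rw [abs_lt] at ht ⊢
          constructor <;> linarith [ht.1, ht.2]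
        · intro i hi
          have := hV (k2 - i) (by omega) (by omega)
          have h7 : k2 - i - 1 = k2 - (i + 1) := by omega
          rw [h7] at this
          refine this.trans ?_
          have := hε t htF
          gcongr
      have h1m := hm t htI
      have hrec := ih (k2 - m t - k1) (by omega) k1 (k2 - m t) (by omega) rfl h1
        ((hmono _ _ (by omega)).trans h2) V (fun i hi1 hi2 => hV i hi1 (by omega))
      refine hrec.trans ?_
      have h8 : (1 / 2 : ℝ) ≤ θ ^ (m t) :=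
        hθ.trans (pow_le_pow_of_le_one hθ0.le hθ1.le (hM.2 t htF))
      calc D ^ M / θ ^ M * θ ^ (k2 - m t - k1) * ‖V (k2 - m t)‖
          ≤ D ^ M / θ ^ M * θ ^ (k2 - m t - k1) * (θ ^ (m t) * ‖V k2‖) := by
            gcongr
            exact hw'.trans (by gcongr)
        _ = D ^ M / θ ^ M * θ ^ (k2 - k1) * ‖V k2‖ := by
            have : k2 - k1 = (k2 - m t - k1) + m t := by omega
            rw [this, pow_add]
            ring
    · -- few steps
      have hshort : ∀ j : ℕ, j ≤ k2 - k1 → ‖V (k2 - j)‖ ≤ D ^ j * ‖V k2‖ := by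
        intro j
        induction j with
        | zero => intro _; simp
        | succ j ihj =>
          intro hj
          have h9 := hV (k2 - j) (by omega) (by omega)
          have h7 : k2 - j - 1 = k2 - (j + 1) := by omega
          rw [h7] at h9
          have h10 : ((k2 - j : ℕ) : ℝ) / N ∈ Set.Icc a b :=
            ⟨h1.trans (hmono _ _ (by omega)), (hmono _ _ (by omega)).trans h2⟩
          calc ‖V (k2 - (j + 1))‖
              = ‖(V (k2 - (j + 1)) - B (((k2 - j : ℕ) : ℝ) / N) (V (k2 - j))) +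
                B (((k2 - j : ℕ) : ℝ) / N) (V (k2 - j))‖ := by congr 1; abel
            _ ≤ ε * ‖V (k2 - j)‖ + ‖B (((k2 - j : ℕ) : ℝ) / N)‖ * ‖V (k2 - j)‖ := by
                refine (norm_add_le _ _).trans (add_le_add h9 ?_)
                exact ContinuousLinearMap.le_opNorm _ _
            _ = (‖B (((k2 - j : ℕ) : ℝ) / N)‖ + ε) * ‖V (k2 - j)‖ := by ring
            _ ≤ D * (D ^ j * ‖V k2‖) := by
                gcongr
                · exact hD _ h10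
                · exact ihj (by omega)
            _ = D ^ (j + 1) * ‖V k2‖ := by ring
      have hfin := hshort (k2 - k1) le_rfl
      have h11 : k2 - (k2 - k1) = k1 := by omega
      rw [h11] at hfin
      refine hfin.trans ?_
      have hMt := hM.2 t htF
      have h12 : D ^ (k2 - k1) ≤ D ^ M := pow_le_pow_right₀ hD1 (by omega)
      have h13 : θ ^ M ≤ θ ^ (k2 - k1) := pow_le_pow_of_le_one hθ0.le hθ1.le (by omega)
      have h14 : 1 ≤ θ ^ (k2 - k1) / θ ^ M := by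
        rw [le_div_iff₀ (by positivity)]
        linarith
      calc D ^ (k2 - k1) * ‖V k2‖ ≤ D ^ M * ‖V k2‖ := by gcongr
        _ = D ^ M * 1 * ‖V k2‖ := by ring
        _ ≤ D ^ M * (θ ^ (k2 - k1) / θ ^ M) * ‖V k2‖ := by gcongr
        _ = D ^ M / θ ^ M * θ ^ (k2 - k1) * ‖V k2‖ := by ring
  intro k1 k2 hk h1 h2 V hV
  exact main _ k1 k2 hk rfl h1 h2 V hV

end general

/-- Some power of an operator whose eigenvalues are in the open unit disc is small. -/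
theorem exists_pow_small {E : Type*} [NormedAddCommGroup E] [NormedSpace ℂ E]
    [FiniteDimensional ℂ E] (T : E →L[ℂ] E)
    (h : ∀ (s : ℂ) (v : E), v ≠ 0 → T v = s • v → ‖s‖ < 1) :
    ∃ m : ℕ, 1 ≤ m ∧ ‖T ^ m‖ ≤ 1 / 4 := by
  rcases subsingleton_or_nontrivial E with hE | hE
  · refine ⟨1, le_rfl, ?_⟩
    have : T ^ 1 = 0 := by
      ext v
      exact Subsingleton.elim _ _
    rw [this, norm_zero]
    norm_num
  have : CompleteSpace E := FiniteDimensional.complete ℂ E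
  have hsr : spectralRadius ℂ T < 1 := by
    have := spectrum.spectralRadius_lt_of_forall_lt (A := E →L[ℂ] E) T (r := 1) (by
      intro k hk
      have h1 : k ∈ spectrum ℂ (T : E →ₗ[ℂ] E) := by
        have h2 := AlgEquiv.spectrum_eq (Module.End.toContinuousLinearMap E (𝕜 := ℂ))
          (T : E →ₗ[ℂ] E)
        rw [← h2]
        exact hk
      rw [← Module.End.hasEigenvalue_iff_mem_spectrum] at h1
      obtain ⟨v, hv⟩ := h1.exists_hasEigenvector
      have h3 := h k v hv.2 (by simpa using hv.apply_eq_smul)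
      exact h3)
    simpa using this
  have hg := spectrum.pow_nnnorm_pow_one_div_tendsto_nhds_spectralRadius (A := E →L[ℂ] E) T
  obtain ⟨q, hq1, hq2⟩ := ENNReal.lt_iff_exists_nnreal_btwn.1 hsr
  have hq2' : q < 1 := by exact_mod_cast hq2
  have hev := hg.eventually_lt_const hq1
  have hpow : Tendsto (fun n : ℕ => (q : ℝ) ^ n) atTop (𝓝 0) :=
    tendsto_pow_atTop_nhds_zero_of_lt_one q.2 (by exact_mod_cast hq2')
  have hev2 := hpow.eventually_lt_const (show (0 : ℝ) < 1 / 4 by norm_num)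
  obtain ⟨m, ⟨hm1, hm2⟩, hm3⟩ := ((hev.and hev2).and (eventually_ge_atTop 1)).exists
  refine ⟨m, hm3, ?_⟩
  have hm0 : (m : ℝ) ≠ 0 := by
    have : m ≠ 0 := by omega
    exact_mod_cast this
  have h4 : (‖T ^ m‖₊ : ENNReal) ≤ (q : ENNReal) ^ m := by
    have h5 : ((‖T ^ m‖₊ : ENNReal) ^ (1 / m : ℝ)) ^ (m : ℝ) ≤ (q : ENNReal) ^ (m : ℝ) :=
      ENNReal.rpow_le_rpow hm1.le (by positivity)
    rwa [← ENNReal.rpow_mul, one_div_mul_cancel hm0, ENNReal.rpow_one,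
      ENNReal.rpow_natCast] at h5
  have h6 : ‖T ^ m‖₊ ≤ q ^ m := by exact_mod_cast h4
  have h7 : ‖T ^ m‖ ≤ (q : ℝ) ^ m := by exact_mod_cast h6
  linarith

/-- Matrices as continuous linear maps. -/
noncomputable def matCLM (n : ℕ) :
    Matrix (Fin n) (Fin n) ℂ →ₗ[ℂ] ((Fin n → ℂ) →L[ℂ] (Fin n → ℂ)) :=
  (LinearMap.toContinuousLinearMap (𝕜 := ℂ) (E := Fin n → ℂ) (F' := Fin n → ℂ)).toLinearMap ∘ₗ
    (Matrix.toLin' (R := ℂ) (m := Fin n) (n := Fin n)).toLinearMap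

theorem matCLM_apply {n : ℕ} (M : Matrix (Fin n) (Fin n) ℂ) (v : Fin n → ℂ) :
    matCLM n M v = M.mulVec v := rfl

theorem prod_bound {n : ℕ} {a b : ℝ} (hab : a ≤ b) (B : ℝ → Matrix (Fin n) (Fin n) ℂ)
    (hB : ContinuousOn B (Set.Icc a b)) (μ : ℝ → ℝ) (hμ : ContinuousOn μ (Set.Icc a b))
    (hμ0 : ∀ t ∈ Set.Icc a b, 0 < μ t)
    (hs : ∀ t ∈ Set.Icc a b, ∀ (s : ℂ) (v : Fin n → ℂ), v ≠ 0 → (B t).mulVec v = s • v →
      ‖s‖ < μ t) :
    ∃ C > 0, ∃ θ : ℝ, 0 < θ ∧ θ < 1 ∧ ∃ ε > 0, ∃ N0 : ℕ, ∀ N ≥ N0, ∀ k1 k2 : ℕ, k1 ≤ k2 →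
      a ≤ (k1 : ℝ) / N → (k2 : ℝ) / N ≤ b → ∀ V : ℕ → Fin n → ℂ,
      (∀ i, k1 < i → i ≤ k2 →
        ‖V (i - 1) - (B ((i : ℝ) / N)).mulVec (V i)‖ ≤ ε * ‖V i‖) →
      ‖V k1‖ ≤ C * θ ^ (k2 - k1) * (∏ i ∈ Ioc k1 k2, μ ((i : ℝ) / N)) * ‖V k2‖ := by
  have hcont : Continuous (matCLM n) := LinearMap.continuous_of_finiteDimensional _
  have hB' : ContinuousOn (fun t => (((μ t)⁻¹ : ℝ) : ℂ) • matCLM n (B t)) (Set.Icc a b) := by
    have h1 : ContinuousOn (fun t => (((μ t)⁻¹ : ℝ) : ℂ)) (Set.Icc a b) :=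
      Complex.continuous_ofReal.comp_continuousOn (hμ.inv₀ (fun t ht => (hμ0 t ht).ne'))
    have h2 : ContinuousOn (fun t => matCLM n (B t)) (Set.Icc a b) :=
      hcont.comp_continuousOn hB
    exact h1.smul h2
  obtain ⟨C, hC, θ, hθ0, hθ1, ε, hε, N0, h⟩ := prod_chain
    (fun t => (((μ t)⁻¹ : ℝ) : ℂ) • matCLM n (B t)) hB' (by
      intro t ht
      apply exists_pow_small
      intro s v hv hsv
      have hμt := hμ0 t ht
      have h1 : (B t).mulVec v = ((μ t : ℂ) * s) • v := by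
        have h2 : (((μ t)⁻¹ : ℝ) : ℂ) • (B t).mulVec v = s • v := hsv
        rw [mul_smul, ← h2, smul_smul, ← Complex.ofReal_mul, mul_inv_cancel₀ hμt.ne',
          Complex.ofReal_one, one_smul]
      have h3 := hs t ht _ v hv h1
      rw [norm_mul, Complex.norm_real, Real.norm_of_nonneg hμt.le] at h3
      nlinarith)
  obtain ⟨c, hc0, hc⟩ : ∃ c > 0, ∀ t ∈ Set.Icc a b, c ≤ μ t := by
    obtain ⟨t, ht, h1⟩ := isCompact_Icc.exists_isMinOn (Set.nonempty_Icc.2 hab) hμ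
    exact ⟨μ t, hμ0 t ht, fun s hs => h1 hs⟩
  refine ⟨C, hC, θ, hθ0, hθ1, ε * c, by positivity, N0 + 1, ?_⟩
  intro N hN k1 k2 hk h1 h2 V hV
  have hN0 : (0 : ℝ) < N := by
    have : 0 < N := by omega
    exact_mod_cast this
  have hmono : ∀ i j : ℕ, i ≤ j → (i : ℝ) / N ≤ (j : ℝ) / N := by
    intro i j hij
    have : (i : ℝ) ≤ j := by exact_mod_cast hij
    gcongr
  have hμi : ∀ i, k1 < i → i ≤ k2 → 0 < μ ((i : ℝ) / N) ∧ c ≤ μ ((i : ℝ) / N) := by
    intro i hi1 hi2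
    have : (i : ℝ) / N ∈ Set.Icc a b :=
      ⟨h1.trans (hmono _ _ (by omega)), (hmono _ _ (by omega)).trans h2⟩
    exact ⟨hμ0 _ this, hc _ this⟩
  have hPpos : ∀ i, k1 ≤ i → 0 < ∏ j ∈ Ioc i k2, μ ((j : ℝ) / N) := by
    intro i hi
    apply Finset.prod_pos
    intro j hj
    rw [Finset.mem_Ioc] at hj
    exact (hμi j (by omega) hj.2).1
  -- the rescaled sequence
  have hU := h N (by omega) k1 k2 hk h1 h2
    (fun i => (((∏ j ∈ Ioc i k2, μ ((j : ℝ) / N))⁻¹ : ℝ) : ℂ) • V i) (by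
      intro i hi1 hi2
      have h3 : Ioc (i - 1) k2 = insert i (Ioc i k2) := by
        ext j
        simp only [Finset.mem_Ioc, Finset.mem_insert]
        omega
      have h4 : ∏ j ∈ Ioc (i - 1) k2, μ ((j : ℝ) / N) =
          μ ((i : ℝ) / N) * ∏ j ∈ Ioc i k2, μ ((j : ℝ) / N) := by
        rw [h3, Finset.prod_insert (by simp)]
      have hPi := hPpos i hi1.le
      obtain ⟨hμ1, hμ2⟩ := hμi i hi1 hi2
      set P := ∏ j ∈ Ioc i k2, μ ((j : ℝ) / N) with hP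
      set x := μ ((i : ℝ) / N) with hx
      have h5 : (((∏ j ∈ Ioc (i - 1) k2, μ ((j : ℝ) / N))⁻¹ : ℝ) : ℂ) • V (i - 1) -
          ((((x)⁻¹ : ℝ) : ℂ) • matCLM n (B ((i : ℝ) / N))) (((P⁻¹ : ℝ) : ℂ) • V i) =
          (((x * P)⁻¹ : ℝ) : ℂ) • (V (i - 1) - (B ((i : ℝ) / N)).mulVec (V i)) := by
        rw [h4, smul_apply, map_smul, matCLM_apply, smul_sub, smul_smul,
          mul_inv, Complex.ofReal_mul]
      show ‖_‖ ≤ _
      rw [h5, norm_smul, norm_smul, Complex.norm_real, Complex.norm_real,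
        Real.norm_of_nonneg (by positivity), Real.norm_of_nonneg (by positivity)]
      calc (x * P)⁻¹ * ‖V (i - 1) - (B ((i : ℝ) / N)).mulVec (V i)‖
          ≤ (x * P)⁻¹ * (ε * c * ‖V i‖) := by
            gcongr
            exact hV i hi1 hi2
        _ = ε * (c / x) * (P⁻¹ * ‖V i‖) := by
            rw [mul_inv]
            field_simp
        _ ≤ ε * 1 * (P⁻¹ * ‖V i‖) := by
            gcongr
            rw [div_le_one hμ1]
            exact hμ2
        _ = ε * (P⁻¹ * ‖V i‖) := by ring)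
  have hP1 := hPpos k1 le_rfl
  have h6 : ‖(((∏ j ∈ Ioc k1 k2, μ ((j : ℝ) / N))⁻¹ : ℝ) : ℂ) • V k1‖ ≤
      C * θ ^ (k2 - k1) * ‖V k2‖ := by
    simpa using hU
  rw [norm_smul, Complex.norm_real, Real.norm_of_nonneg (by positivity),
    inv_mul_le_iff₀ hP1] at h6
  calc ‖V k1‖ ≤ (∏ j ∈ Ioc k1 k2, μ ((j : ℝ) / N)) * (C * θ ^ (k2 - k1) * ‖V k2‖) := h6
    _ = _ := by ring

end Pool.Agent.Kashaev.KV
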